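import Pool.Agent.Helper94.LCY.Defs

/-!
# Standard coordinates (a, b, p, q) on the function field of E x P^2
-/

noncomputable section

namespace Pool.Agent.Helper94.LCY

variable {K : Type} [Field K] [Algebra ℂ K]

theorem indep_aux {a b p q : K} (rel : 1 + a ^ 3 + b ^ 3 = 0)
    (gen : IntermediateField.adjoin ℂ {a, b, p, q} = ⊤) (tr : Algebra.trdeg ℂ K = 3) :
    AlgebraicIndependent ℂ ![a, p, q] := by
  set S := Algebra.adjoin ℂ (Set.range ![a, p, q]) with hS
  have ha : a ∈ S := Algebra.subset_adjoin ⟨0, rfl⟩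
  have hp : p ∈ S := Algebra.subset_adjoin ⟨1, rfl⟩
  have hq : q ∈ S := Algebra.subset_adjoin ⟨2, rfl⟩
  have hmem : ∀ x ∈ S, IsAlgebraic S x := fun x hx => isAlgebraic_algebraMap (⟨x, hx⟩ : S)
  have hb : IsAlgebraic S b := by
    have h1 : IsAlgebraic S (b ^ 3) := by
      have : b ^ 3 = -(1 + a ^ 3) := by linear_combination rel
      rw [this]
      exact hmem _ (neg_mem (add_mem (one_mem _) (pow_mem ha 3)))
    exact h1.of_pow (by norm_num)
  have key : ∀ x ∈ IntermediateField.adjoin ℂ ({a, b, p, q} : Set K), IsAlgebraic S x := by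
    intro x hx
    induction hx using IntermediateField.adjoin_induction with
    | mem x hx =>
      rcases hx with rfl | rfl | rfl | rfl
      · exact hmem _ ha
      · exact hb
      · exact hmem _ hp
      · exact hmem _ hq
    | algebraMap z =>
      exact hmem _ (algebraMap_mem S z)
    | add x y _ _ hx hy => exact hx.add hy
    | inv x _ hx => exact hx.inv
    | mul x y _ _ hx hy => exact hx.mul hy
  have alg : Algebra.IsAlgebraic S K := ⟨fun x => key x (by rw [gen]; trivial)⟩
  exact (Algebra.IsAlgebraic.isTranscendenceBasis_of_le_trdeg_of_finite ℂ ![a, p, q] (by rw [tr]; simp)).1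

theorem isTrBasis_aux {a b p q : K} (rel : 1 + a ^ 3 + b ^ 3 = 0)
    (gen : IntermediateField.adjoin ℂ {a, b, p, q} = ⊤)
    (ind : AlgebraicIndependent ℂ ![a, p, q]) : Algebra.trdeg ℂ K = 3 := by
  set S := Algebra.adjoin ℂ (Set.range ![a, p, q]) with hS
  have ha : a ∈ S := Algebra.subset_adjoin ⟨0, rfl⟩
  have hp : p ∈ S := Algebra.subset_adjoin ⟨1, rfl⟩
  have hq : q ∈ S := Algebra.subset_adjoin ⟨2, rfl⟩
  have hmem : ∀ x ∈ S, IsAlgebraic S x := fun x hx => isAlgebraic_algebraMap (⟨x, hx⟩ : S)
  have hb : IsAlgebraic S b := by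
    have h1 : IsAlgebraic S (b ^ 3) := by
      have : b ^ 3 = -(1 + a ^ 3) := by linear_combination rel
      rw [this]
      exact hmem _ (neg_mem (add_mem (one_mem _) (pow_mem ha 3)))
    exact h1.of_pow (by norm_num)
  have key : ∀ x ∈ IntermediateField.adjoin ℂ ({a, b, p, q} : Set K), IsAlgebraic S x := by
    intro x hx
    induction hx using IntermediateField.adjoin_induction with
    | mem x hx =>
      rcases hx with rfl | rfl | rfl | rfl
      · exact hmem _ ha
      · exact hb
      · exact hmem _ hp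
      · exact hmem _ hq
    | algebraMap z =>
      exact hmem _ (algebraMap_mem S z)
    | add x y _ _ hx hy => exact hx.add hy
    | inv x _ hx => exact hx.inv
    | mul x y _ _ hx hy => exact hx.mul hy
  have alg : Algebra.IsAlgebraic S K := ⟨fun x => key x (by rw [gen]; trivial)⟩
  have hB : IsTranscendenceBasis ℂ ![a, p, q] := ind.isTranscendenceBasis_iff_isAlgebraic.2 alg
  rw [← hB.cardinalMk_eq_trdeg]
  simp

/-- Standard coordinates on `K`: `1 + a ^ 3 + b ^ 3 = 0` and `K = ℂ(a, b, p, q)`. -/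
structure Coord (K : Type) [Field K] [Algebra ℂ K] where
  a : K
  b : K
  p : K
  q : K
  rel : 1 + a ^ 3 + b ^ 3 = 0
  gen : IntermediateField.adjoin ℂ {a, b, p, q} = ⊤
  tr : Algebra.trdeg ℂ K = 3

namespace Coord

variable (c : Coord K)

/-- In standard coordinates `a, p, q` are algebraically independent over `ℂ`. -/
theorem indep : AlgebraicIndependent ℂ ![c.a, c.p, c.q] := indep_aux c.rel c.gen c.tr

/-- Same with `b` in place of `a`. -/
theorem indep' : AlgebraicIndependent ℂ ![c.b, c.p, c.q] := by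
  refine indep_aux (b := c.a) (by linear_combination c.rel) ?_ c.tr
  rw [← c.gen]
  congr 1
  ext x
  simp only [Set.mem_insert_iff, Set.mem_singleton_iff]
  tauto

theorem a_ne : c.a ≠ 0 := by
  have h := c.indep.transcendental 0
  intro h0
  simp only [Matrix.cons_val_zero] at h
  rw [h0] at h
  exact h (isAlgebraic_zero)

theorem b_ne : c.b ≠ 0 := by
  have h := c.indep'.transcendental 0
  intro h0
  simp only [Matrix.cons_val_zero] at h
  rw [h0] at h
  exact h (isAlgebraic_zero)

theorem p_ne : c.p ≠ 0 := by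
  have h := c.indep.transcendental 1
  intro h0
  simp only [Matrix.cons_val_one, Matrix.cons_val_zero] at h
  rw [h0] at h
  exact h (isAlgebraic_zero)

theorem q_ne : c.q ≠ 0 := by
  have h := c.indep.transcendental 2
  intro h0
  simp only [Matrix.cons_val] at h
  rw [h0] at h
  exact h (isAlgebraic_zero)

/-- The other affine chart of the Fermat cubic: `(1/a, b/a, p, q/a)`. -/
def inv : Coord K where
  a := 1 / c.a
  b := c.b / c.a
  p := c.p
  q := c.q / c.a
  rel := by
    have h := c.rel
    have ha := c.a_ne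
    field_simp
    linear_combination h
  gen := by
    rw [eq_top_iff, ← c.gen, IntermediateField.adjoin_le_iff]
    set L := IntermediateField.adjoin ℂ {1 / c.a, c.b / c.a, c.p, c.q / c.a} with hL
    have h1 : 1 / c.a ∈ L := IntermediateField.subset_adjoin _ _ (by simp)
    have h2 : c.b / c.a ∈ L := IntermediateField.subset_adjoin _ _ (by simp)
    have h3 : c.p ∈ L := IntermediateField.subset_adjoin _ _ (by simp)
    have h4 : c.q / c.a ∈ L := IntermediateField.subset_adjoin _ _ (by simp)
    have ha : c.a ∈ L := by simpa using inv_mem h1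
    have hb : c.b ∈ L := by
      have := mul_mem h2 ha
      rwa [div_mul_cancel₀ _ c.a_ne] at this
    have hq : c.q ∈ L := by
      have := mul_mem h4 ha
      rwa [div_mul_cancel₀ _ c.a_ne] at this
    rintro x (rfl | rfl | rfl | rfl) <;> assumption
  tr := c.tr

/-- Swap the roles of `a` and `b`. -/
def swap : Coord K where
  a := c.b
  b := c.a
  p := c.p
  q := c.q
  rel := by linear_combination c.rel
  gen := by
    rw [← c.gen]
    congr 1
    ext x
    simp only [Set.mem_insert_iff, Set.mem_singleton_iff]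
    tauto
  tr := c.tr

/-- The other chart of `ℙ^1`: `(a, b, 1/p, q/p)`. -/
def pinv : Coord K where
  a := c.a
  b := c.b
  p := 1 / c.p
  q := c.q / c.p
  rel := c.rel
  gen := by
    rw [eq_top_iff, ← c.gen, IntermediateField.adjoin_le_iff]
    set L := IntermediateField.adjoin ℂ {c.a, c.b, 1 / c.p, c.q / c.p} with hL
    have h1 : c.a ∈ L := IntermediateField.subset_adjoin _ _ (by simp)
    have h2 : c.b ∈ L := IntermediateField.subset_adjoin _ _ (by simp)
    have h3 : 1 / c.p ∈ L := IntermediateField.subset_adjoin _ _ (by simp)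
    have h4 : c.q / c.p ∈ L := IntermediateField.subset_adjoin _ _ (by simp)
    have hp : c.p ∈ L := by simpa using inv_mem h3
    have hq : c.q ∈ L := by
      have := mul_mem h4 hp
      rwa [div_mul_cancel₀ _ c.p_ne] at this
    rintro x (rfl | rfl | rfl | rfl) <;> assumption
  tr := c.tr

/-- Replace `q` by `1 / q`. -/
def qinv : Coord K where
  a := c.a
  b := c.b
  p := c.p
  q := 1 / c.q
  rel := c.rel
  gen := by
    rw [eq_top_iff, ← c.gen, IntermediateField.adjoin_le_iff]
    set L := IntermediateField.adjoin ℂ {c.a, c.b, c.p, 1 / c.q} with hL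
    have h1 : c.a ∈ L := IntermediateField.subset_adjoin _ _ (by simp)
    have h2 : c.b ∈ L := IntermediateField.subset_adjoin _ _ (by simp)
    have h3 : c.p ∈ L := IntermediateField.subset_adjoin _ _ (by simp)
    have h4 : 1 / c.q ∈ L := IntermediateField.subset_adjoin _ _ (by simp)
    have hq : c.q ∈ L := by simpa using inv_mem h4
    rintro x (rfl | rfl | rfl | rfl) <;> assumption
  tr := c.tr

/-- The affine coordinate ring `ℂ[a, b, p, q]` (of `E° x 𝔸^2`). -/
def A : Subalgebra ℂ K := Algebra.adjoin ℂ {c.a, c.b, c.p, c.q}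

/-- The affine coordinate ring `ℂ[a, b, p]` (of `E° x 𝔸^1`). -/
def D : Subalgebra ℂ K := Algebra.adjoin ℂ {c.a, c.b, c.p}

/-- The field `ℂ(a, b, p)`, the function field of `E x ℙ^1`. -/
def K₀ : IntermediateField ℂ K := IntermediateField.adjoin ℂ {c.a, c.b, c.p}

/-- The homogeneous coordinates `1, a, b` of `E`. -/
def m (e : Fin 3) : K := ![1, c.a, c.b] e

/-- The homogeneous coordinates `1, p` of `ℙ^1`. -/
def n (j : Fin 2) : K := ![1, c.p] j

theorem m_ne (e : Fin 3) : c.m e ≠ 0 := by
  fin_cases e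
  · exact one_ne_zero
  · exact c.a_ne
  · exact c.b_ne

theorem n_ne (j : Fin 2) : c.n j ≠ 0 := by
  fin_cases j
  · exact one_ne_zero
  · exact c.p_ne

/-- The change of chart on `E`. -/
def eCoord (e : Fin 3) : Coord K := ![c, c.inv, c.swap.inv] e

/-- The standard coordinates on the chart `(e, j)` of the cone over `E x ℙ^1`. -/
def ch (e : Fin 3) (j : Fin 2) : Coord K := ![c.eCoord e, (c.eCoord e).pinv] j

theorem eCoord_p (e : Fin 3) : (c.eCoord e).p = c.p := by
  fin_cases e <;> rfl

theorem eCoord_q (e : Fin 3) : (c.eCoord e).q = c.q / c.m e := by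
  fin_cases e
  · simp [eCoord, m]
  · rfl
  · rfl

theorem ch_q (e : Fin 3) (j : Fin 2) : (c.ch e j).q = c.q / (c.m e * c.n j) := by
  fin_cases j
  · simp [ch, n, eCoord_q]
  · simp [ch, n, pinv, eCoord_q, eCoord_p, div_div]

theorem ch_p_zero (e : Fin 3) : (c.ch e 0).p = c.p := c.eCoord_p e

theorem ch_p_one (e : Fin 3) : (c.ch e 1).p = 1 / c.p := by
  simp [ch, pinv, eCoord_p]

/-- The projective cone over `E x ℙ^1 ⊆ ℙ^5` (Segre embedding), in `ℙ^6`. -/
def X : ProjVar K (Option (Fin 3 × Fin 2)) where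
  x := fun o => o.elim c.q (fun ej => c.m ej.1 * c.n ej.2)
  exists_ne := ⟨none, c.q_ne⟩
  gen := by
    rw [RatiosGenerate, eq_top_iff, ← c.gen, IntermediateField.adjoin_le_iff]
    rintro x (rfl | rfl | rfl | rfl)
    · exact IntermediateField.subset_adjoin _ _ ⟨some (1, 0), some (0, 0), by simp [m, n]⟩
    · exact IntermediateField.subset_adjoin _ _ ⟨some (2, 0), some (0, 0), by simp [m, n]⟩
    · exact IntermediateField.subset_adjoin _ _ ⟨some (0, 1), some (0, 0), by simp [m, n]⟩
    · exact IntermediateField.subset_adjoin _ _ ⟨none, some (0, 0), by simp [m, n]⟩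

theorem X_x_some (ej : Fin 3 × Fin 2) : c.X.x (some ej) = c.m ej.1 * c.n ej.2 := rfl

theorem X_x_none : c.X.x none = c.q := rfl

theorem X_x_ne (o : Option (Fin 3 × Fin 2)) : c.X.x o ≠ 0 := by
  cases o with
  | none => exact c.q_ne
  | some ej => exact mul_ne_zero (c.m_ne _) (c.n_ne _)

/-- The ratios of the homogeneous coordinates of `E` in the chart `e`. -/
theorem m_div_mem (e e' : Fin 3) : c.m e' / c.m e ∈ ({1, (c.eCoord e).a, (c.eCoord e).b} : Set K) := by
  have ha := c.a_ne
  have hb := c.b_ne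
  fin_cases e <;> fin_cases e' <;> simp [m, eCoord, inv, swap, ha, hb]

theorem eCoord_a_eq (e : Fin 3) : ∃ e', (c.eCoord e).a = c.m e' / c.m e := by
  fin_cases e
  · exact ⟨1, by simp [m, eCoord]⟩
  · exact ⟨0, by simp [m, eCoord, inv]⟩
  · exact ⟨0, by simp [m, eCoord, inv, swap]⟩

theorem eCoord_b_eq (e : Fin 3) : ∃ e', (c.eCoord e).b = c.m e' / c.m e := by
  fin_cases e
  · exact ⟨2, by simp [m, eCoord]⟩
  · exact ⟨2, by simp [m, eCoord, inv]⟩
  · exact ⟨1, by simp [m, eCoord, inv, swap]⟩

theorem ch_a (e : Fin 3) (j : Fin 2) : (c.ch e j).a = (c.eCoord e).a := by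
  fin_cases j <;> rfl

theorem ch_b (e : Fin 3) (j : Fin 2) : (c.ch e j).b = (c.eCoord e).b := by
  fin_cases j <;> rfl

theorem n_div_mem (e : Fin 3) (j j' : Fin 2) : c.n j' / c.n j ∈ ({1, (c.ch e j).p} : Set K) := by
  have hp := c.p_ne
  fin_cases j <;> fin_cases j' <;> simp [n, ch_p_zero, ch_p_one, hp]

theorem ch_p_eq (e : Fin 3) (j : Fin 2) : ∃ j', (c.ch e j).p = c.n j' / c.n j := by
  fin_cases j
  · exact ⟨1, by simp [n, ch_p_zero]⟩
  · exact ⟨0, by simp [n, ch_p_one]⟩

theorem chart_some (e : Fin 3) (j : Fin 2) : c.X.chart (some (e, j)) = (c.ch e j).A := by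
  apply le_antisymm
  · apply Algebra.adjoin_le
    rintro _ ⟨o, rfl⟩
    have ha : (c.ch e j).a ∈ (c.ch e j).A := Algebra.subset_adjoin (by simp)
    have hb : (c.ch e j).b ∈ (c.ch e j).A := Algebra.subset_adjoin (by simp)
    have hp : (c.ch e j).p ∈ (c.ch e j).A := Algebra.subset_adjoin (by simp)
    have hq : (c.ch e j).q ∈ (c.ch e j).A := Algebra.subset_adjoin (by simp)
    cases o with
    | none =>
      change c.q / (c.m e * c.n j) ∈ _
      rw [← c.ch_q e j]
      exact hq
    | some ej =>
      change (c.m ej.1 * c.n ej.2) / (c.m e * c.n j) ∈ _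
      rw [mul_div_mul_comm]
      apply mul_mem
      · have h := c.m_div_mem e ej.1
        rw [← c.ch_a e j, ← c.ch_b e j] at h
        rcases h with h | h | h
        · rw [h]; exact one_mem _
        · rw [h]; exact ha
        · rw [h]; exact hb
      · have h := c.n_div_mem e j ej.2
        rcases h with h | h
        · rw [h]; exact one_mem _
        · rw [h]; exact hp
  · apply Algebra.adjoin_le
    have hm : ∀ e', c.m e' / c.m e ∈ c.X.chart (some (e, j)) := by
      intro e'
      apply Algebra.subset_adjoin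
      refine ⟨some (e', j), ?_⟩
      change (c.m e' * c.n j) / (c.m e * c.n j) = _
      rw [mul_div_mul_right _ _ (c.n_ne j)]
    have hn : ∀ j', c.n j' / c.n j ∈ c.X.chart (some (e, j)) := by
      intro j'
      apply Algebra.subset_adjoin
      refine ⟨some (e, j'), ?_⟩
      change (c.m e * c.n j') / (c.m e * c.n j) = _
      rw [mul_div_mul_left _ _ (c.m_ne e)]
    rintro x (rfl | rfl | rfl | rfl)
    · obtain ⟨e', he'⟩ := c.eCoord_a_eq e
      rw [ch_a, he']
      exact hm e'
    · obtain ⟨e', he'⟩ := c.eCoord_b_eq e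
      rw [ch_b, he']
      exact hm e'
    · obtain ⟨j', hj'⟩ := c.ch_p_eq e j
      rw [hj']
      exact hn j'
    · rw [c.ch_q e j]
      exact Algebra.subset_adjoin ⟨none, rfl⟩

end Coord

/-- Standard coordinates exist. -/
theorem exists_coord : ∃ (K : Type) (_ : Field K) (_ : Algebra ℂ K), Nonempty (Coord K) := by
  let F := RatField 3
  let L := AlgebraicClosure F
  let x : Fin 3 → L := fun i => algebraMap F L (ratX 3 i)
  have hx : AlgebraicIndependent ℂ x := by
    have h1 : AlgebraicIndependent ℂ (MvPolynomial.X : Fin 3 → MvPolynomial (Fin 3) ℂ) :=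
      MvPolynomial.algebraicIndependent_X _ _
    have h2 := h1.map' (f := IsScalarTower.toAlgHom ℂ (MvPolynomial (Fin 3) ℂ) F)
      (IsFractionRing.injective (MvPolynomial (Fin 3) ℂ) F)
    have h3 := h2.map' (f := IsScalarTower.toAlgHom ℂ F L) (algebraMap F L).injective
    exact h3
  obtain ⟨z, hz⟩ := IsAlgClosed.exists_pow_nat_eq (-(1 + x 0 ^ 3) : L) (n := 3) (by norm_num)
  let T : Set L := {x 0, z, x 1, x 2}
  let E := IntermediateField.adjoin ℂ T
  have hxE : ∀ i, x i ∈ E := by
    intro i
    apply IntermediateField.subset_adjoin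
    fin_cases i <;> simp [T]
  have hzE : z ∈ E := IntermediateField.subset_adjoin _ _ (by simp [T])
  have rel : (1 : E) + (⟨x 0, hxE 0⟩ : E) ^ 3 + (⟨z, hzE⟩ : E) ^ 3 = 0 := by
    apply Subtype.ext
    change 1 + x 0 ^ 3 + z ^ 3 = 0
    rw [hz]
    ring
  have gen : IntermediateField.adjoin ℂ
      ({⟨x 0, hxE 0⟩, ⟨z, hzE⟩, ⟨x 1, hxE 1⟩, ⟨x 2, hxE 2⟩} : Set E) = ⊤ := by
    rw [eq_top_iff]
    rintro ⟨y, hy⟩ -
    induction hy using IntermediateField.adjoin_induction with
    | mem y hy =>
      apply IntermediateField.subset_adjoin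
      rcases hy with rfl | rfl | rfl | rfl
      · left; rfl
      · right; left; rfl
      · right; right; left; rfl
      · right; right; right; rfl
    | algebraMap w =>
      exact IntermediateField.algebraMap_mem _ w
    | add u w hu hw h1 h2 => exact add_mem h1 h2
    | inv u hu h1 => exact inv_mem h1
    | mul u w hu hw h1 h2 => exact mul_mem h1 h2
  have ind : AlgebraicIndependent ℂ ![(⟨x 0, hxE 0⟩ : E), ⟨x 1, hxE 1⟩, ⟨x 2, hxE 2⟩] := by
    apply AlgebraicIndependent.of_comp (f := E.val)
    convert hx using 1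
    funext i
    fin_cases i <;> rfl
  exact ⟨E, inferInstance, inferInstance, ⟨⟨_, _, _, _, rel, gen, isTrBasis_aux rel gen ind⟩⟩⟩

end Pool.Agent.Helper94.LCY
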