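import Pool.Agent.Helper94.LCY.Coord

/-!
# Normality of `ℂ[a, b, p, q]` and `ℂ[a, b, p]`
-/

noncomputable section

open Polynomial

namespace Pool.Agent.Helper94.LCY

section General

variable {M L E : Type} [CommRing M] [IsDomain M] [UniqueFactorizationMonoid M] [Field L]
  [Field E] [Algebra M L] [IsFractionRing M L] [Algebra L E] [Algebra M E] [IsScalarTower M L E]

omit [IsDomain M] [UniqueFactorizationMonoid M] [IsFractionRing M L] in
theorem conj_aux {c : M} (hirr : Irreducible (X ^ 3 - C (algebraMap M L c))) {b ζ : E}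
    (hb : b ^ 3 = algebraMap M E c) (hζ : ζ ^ 3 = 1) {f0 f1 f2 : L}
    (hx : IsIntegral M (algebraMap L E f0 + algebraMap L E f1 * b + algebraMap L E f2 * b ^ 2)) :
    IsIntegral M (algebraMap L E f0 + algebraMap L E f1 * (ζ * b) +
      algebraMap L E f2 * (ζ * b) ^ 2) := by
  obtain ⟨P, hP, hPx⟩ := hx
  refine ⟨P, hP, ?_⟩
  have hmap : algebraMap L E (algebraMap M L c) = algebraMap M E c :=
    (IsScalarTower.algebraMap_apply M L E c).symm
  have hmin : X ^ 3 - C (algebraMap M L c) = minpoly L b := by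
    refine minpoly.eq_of_irreducible_of_monic hirr ?_ (monic_X_pow_sub_C _ (by norm_num))
    rw [map_sub, map_pow, aeval_X, aeval_C, hmap, hb, sub_self]
  have key : ∀ Q : L[X], aeval b Q = 0 → aeval (ζ * b) Q = 0 := by
    intro Q hQ
    have h1 : minpoly L b ∣ Q := minpoly.dvd L b hQ
    rw [← hmin] at h1
    obtain ⟨R, rfl⟩ := h1
    rw [map_mul, map_sub, map_pow, aeval_X, aeval_C, hmap, mul_pow, hζ, hb, one_mul, sub_self,
      zero_mul]
  have hcomp : ∀ y : E, aeval y ((P.map (algebraMap M L)).comp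
      (C f0 + C f1 * X + C f2 * X ^ 2)) = eval₂ (algebraMap M E)
        (algebraMap L E f0 + algebraMap L E f1 * y + algebraMap L E f2 * y ^ 2) P := by
    intro y
    rw [aeval_comp, map_add, map_add, map_mul, map_mul, map_pow, aeval_X, aeval_C, aeval_C,
      aeval_C, aeval_map_algebraMap, aeval_def]
  rw [← hcomp]
  apply key
  rw [hcomp]
  exact hPx

omit [Field E] [Algebra L E] [Algebra M E] [IsScalarTower M L E] in
theorem irr_aux {c : M} (hc : Squarefree c) (hcu : ¬ IsUnit c) :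
    Irreducible (X ^ 3 - C (algebraMap M L c)) := by
  rw [X_pow_sub_C_irreducible_iff_of_prime Nat.prime_three]
  intro y hy
  have h1 : IsIntegral M y := by
    refine IsIntegral.of_pow (n := 3) (by norm_num) ?_
    rw [hy]
    exact isIntegral_algebraMap
  obtain ⟨m, rfl⟩ := IsIntegrallyClosed.isIntegral_iff.1 h1
  rw [← map_pow] at hy
  have h2 : m ^ 3 = c := (IsFractionRing.injective M L) hy
  have h3 : IsUnit m := hc m ⟨m, by rw [← h2]; ring⟩
  apply hcu
  rw [← h2]
  exact h3.pow 3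

theorem cube_aux {c : M} (hc : Squarefree c) (hcu : ¬ IsUnit c) {ω : M}
    (hω : ω ^ 2 + ω + 1 = 0) (h3 : IsUnit (3 : M)) {b : E} (hb : b ^ 3 = algebraMap M E c)
    {f0 f1 f2 : L}
    (hx : IsIntegral M (algebraMap L E f0 + algebraMap L E f1 * b + algebraMap L E f2 * b ^ 2)) :
    (∃ g : M, algebraMap M L g = f0) ∧ (∃ g : M, algebraMap M L g = f1) ∧
      (∃ g : M, algebraMap M L g = f2) := by
  have hmap : ∀ z : M, algebraMap L E (algebraMap M L z) = algebraMap M E z := fun z =>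
    (IsScalarTower.algebraMap_apply M L E z).symm
  have hc0 : c ≠ 0 := hc.ne_zero
  have hML : Function.Injective (algebraMap M L) := IsFractionRing.injective M L
  have hLE : Function.Injective (algebraMap L E) := (algebraMap L E).injective
  have hcL : algebraMap M L c ≠ 0 := by
    rw [Ne, map_eq_zero_iff _ hML]
    exact hc0
  have hint : ∀ y : L, IsIntegral M (algebraMap L E y) → ∃ g : M, algebraMap M L g = y := by
    intro y hy
    have h1 : IsIntegral M y := (isIntegral_algebraMap_iff hLE).1 hy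
    exact IsIntegrallyClosed.isIntegral_iff.1 h1
  have hirr : Irreducible (X ^ 3 - C (algebraMap M L c)) := irr_aux hc hcu
  set w : E := algebraMap M E ω with hw
  have hw1 : w ^ 2 + w + 1 = 0 := by
    rw [hw, ← map_pow, ← map_add, ← map_one (algebraMap M E), ← map_add, hω, map_zero]
  have hw3 : w ^ 3 = 1 := by linear_combination (w - 1) * hw1
  have hw6 : (w ^ 2) ^ 3 = 1 := by
    rw [← pow_mul, mul_comm, pow_mul, hw3, one_pow]
  have hwint : IsIntegral M w := isIntegral_algebraMap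
  have hbint : IsIntegral M b := by
    refine IsIntegral.of_pow (n := 3) (by norm_num) ?_
    rw [hb]
    exact isIntegral_algebraMap
  have hx1 := conj_aux hirr hb hw3 hx
  have hx2 := conj_aux hirr hb hw6 hx
  set F0 := algebraMap L E f0 with hF0
  set F1 := algebraMap L E f1 with hF1
  set F2 := algebraMap L E f2 with hF2
  obtain ⟨u, hu⟩ := h3
  have hthird : ∀ y : L, IsIntegral M (algebraMap L E (3 * y)) → ∃ g : M, algebraMap M L g = y := by
    intro y hy
    obtain ⟨g, hg⟩ := hint _ hy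
    refine ⟨↑u⁻¹ * g, ?_⟩
    rw [map_mul, hg, ← mul_assoc]
    have h1 : (algebraMap M L ↑u⁻¹) * 3 = 1 := by
      have h2 : (algebraMap M L) 3 = 3 := map_ofNat _ 3
      rw [← h2, ← hu, ← map_mul, Units.inv_mul, map_one]
    rw [h1, one_mul]
  -- traces
  obtain ⟨g0, hg0⟩ := hthird f0 (by
    have h1 := (hx.add hx1).add hx2
    have e : algebraMap L E (3 * f0) = (F0 + F1 * b + F2 * b ^ 2) +
        (F0 + F1 * (w * b) + F2 * (w * b) ^ 2) +
        (F0 + F1 * (w ^ 2 * b) + F2 * (w ^ 2 * b) ^ 2) := by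
      rw [map_mul, map_ofNat]
      linear_combination (-(F1 * b) - F2 * b ^ 2 * (w ^ 2 - w + 1)) * hw1
    rw [e]
    exact h1)
  have hg1 : ∃ g1 : M, algebraMap M L g1 = f1 * algebraMap M L c := by
    apply hthird
    have h1 := ((hx.mul (hbint.pow 2)).add (hx1.mul ((hwint.mul hbint).pow 2))).add
      (hx2.mul (((hwint.pow 2).mul hbint).pow 2))
    have e1 : w ^ 4 = w := by linear_combination w * hw3
    have e2 : w ^ 6 = 1 := by linear_combination (w ^ 3 + 1) * hw3
    have e3 : w ^ 8 = w ^ 2 := by linear_combination (w ^ 5 + w ^ 2) * hw3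
    have e : algebraMap L E (3 * (f1 * algebraMap M L c)) =
        (F0 + F1 * b + F2 * b ^ 2) * b ^ 2 +
        (F0 + F1 * (w * b) + F2 * (w * b) ^ 2) * (w * b) ^ 2 +
        (F0 + F1 * (w ^ 2 * b) + F2 * (w ^ 2 * b) ^ 2) * (w ^ 2 * b) ^ 2 := by
      rw [map_mul, map_mul, map_ofNat, hmap, ← hb, ← hF1]
      linear_combination (-(F0 * b ^ 2)) * hw1 - F0 * b ^ 2 * e1 - F1 * b ^ 3 * hw3 -
        F1 * b ^ 3 * e2 - F2 * b ^ 4 * hw1 - F2 * b ^ 4 * e1 - F2 * b ^ 4 * e3
    rw [e]
    exact h1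
  have hg2 : ∃ g2 : M, algebraMap M L g2 = f2 * algebraMap M L c := by
    apply hthird
    have h1 := ((hx.mul hbint).add (hx1.mul (hwint.mul hbint))).add
      (hx2.mul ((hwint.pow 2).mul hbint))
    have e1 : w ^ 4 = w := by linear_combination w * hw3
    have e2 : w ^ 6 = 1 := by linear_combination (w ^ 3 + 1) * hw3
    have e : algebraMap L E (3 * (f2 * algebraMap M L c)) =
        (F0 + F1 * b + F2 * b ^ 2) * b +
        (F0 + F1 * (w * b) + F2 * (w * b) ^ 2) * (w * b) +
        (F0 + F1 * (w ^ 2 * b) + F2 * (w ^ 2 * b) ^ 2) * (w ^ 2 * b) := by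
      rw [map_mul, map_mul, map_ofNat, hmap, ← hb, ← hF2]
      linear_combination (-(F0 * b)) * hw1 - F1 * b ^ 2 * hw1 - F1 * b ^ 2 * e1 -
        F2 * b ^ 3 * hw3 - F2 * b ^ 3 * e2
    rw [e]
    exact h1
  obtain ⟨g1, hg1⟩ := hg1
  obtain ⟨g2, hg2⟩ := hg2
  -- norm
  have hnorm : ∃ n : M, algebraMap M L n = f1 ^ 3 * algebraMap M L c +
      f2 ^ 3 * (algebraMap M L c) ^ 2 := by
    apply hint
    have hF0int : IsIntegral M F0 := by
      rw [hF0, ← hg0, hmap]
      exact isIntegral_algebraMap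
    have h1 := ((hx.sub hF0int).mul (hx1.sub hF0int)).mul (hx2.sub hF0int)
    have e : algebraMap L E (f1 ^ 3 * algebraMap M L c + f2 ^ 3 * (algebraMap M L c) ^ 2) =
        ((F0 + F1 * b + F2 * b ^ 2) - F0) * ((F0 + F1 * (w * b) + F2 * (w * b) ^ 2) - F0) *
        ((F0 + F1 * (w ^ 2 * b) + F2 * (w ^ 2 * b) ^ 2) - F0) := by
      rw [map_add, map_mul, map_mul, map_pow, map_pow, map_pow, hmap, ← hb, ← hF1, ← hF2]
      linear_combination (-(F1 * b) ^ 3) * hw3 - (F2 * b ^ 2) ^ 3 * (w ^ 3 + 1) * hw3 -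
        w ^ 3 * (F1 * b) ^ 2 * (F2 * b ^ 2) * hw1 - w ^ 4 * (F1 * b) * (F2 * b ^ 2) ^ 2 * hw1
    rw [e]
    exact h1
  obtain ⟨n, hn⟩ := hnorm
  have hdiv : c ^ 2 * n = g1 ^ 3 + c * g2 ^ 3 := by
    apply hML
    rw [map_mul, map_pow, map_add, map_mul, map_pow, map_pow, hn, hg1, hg2]
    ring
  have h1 : c ∣ g1 := by
    rw [← hc.dvd_pow_iff_dvd (n := 3) (by norm_num)]
    have : g1 ^ 3 = c * (c * n - g2 ^ 3) := by linear_combination -hdiv
    exact ⟨_, this⟩
  obtain ⟨h, rfl⟩ := h1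
  have h2 : c ∣ g2 := by
    rw [← hc.dvd_pow_iff_dvd (n := 3) (by norm_num)]
    have h3 : c * (c * n) = c * (c ^ 2 * h ^ 3 + g2 ^ 3) := by linear_combination hdiv
    have h4 := mul_left_cancel₀ hc0 h3
    exact ⟨n - c * h ^ 3, by linear_combination -h4⟩
  obtain ⟨k, rfl⟩ := h2
  refine ⟨⟨g0, hg0⟩, ⟨h, ?_⟩, ⟨k, ?_⟩⟩
  · rw [map_mul, mul_comm] at hg1
    exact mul_right_cancel₀ hcL hg1
  · rw [map_mul, mul_comm] at hg2
    exact mul_right_cancel₀ hcL hg2

end General

/-! ## The polynomial `1 + X ^ 3` -/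

section Poly

variable {n : ℕ} (i : Fin n)

theorem squarefree_cube : Squarefree (-(1 + MvPolynomial.X i ^ 3) : MvPolynomial (Fin n) ℂ) := by
  rintro x ⟨y, hy⟩
  have h1 : MvPolynomial.pderiv i (-(1 + MvPolynomial.X i ^ 3) : MvPolynomial (Fin n) ℂ) =
      -(3 * MvPolynomial.X i ^ 2) := by
    rw [map_neg, map_add, MvPolynomial.pderiv_one, zero_add, MvPolynomial.pderiv_pow,
      MvPolynomial.pderiv_X_self, mul_one]
    norm_num
  have h2 : MvPolynomial.pderiv i (x * x * y) =
      x * (2 * MvPolynomial.pderiv i x * y + x * MvPolynomial.pderiv i y) := by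
    rw [MvPolynomial.pderiv_mul, MvPolynomial.pderiv_mul]
    ring
  rw [hy, h2] at h1
  set r := 2 * MvPolynomial.pderiv i x * y + x * MvPolynomial.pderiv i y with hr
  have h3 : (3 : MvPolynomial (Fin n) ℂ) * MvPolynomial.C (1 / 3 : ℂ) = 1 := by
    have : (3 : MvPolynomial (Fin n) ℂ) = MvPolynomial.C (3 : ℂ) := (map_ofNat _ 3).symm
    rw [this, ← MvPolynomial.C_mul]
    norm_num
  refine isUnit_of_dvd_one ⟨- x * y + MvPolynomial.X i * MvPolynomial.C (1 / 3 : ℂ) * r, ?_⟩
  linear_combination (-1 : MvPolynomial (Fin n) ℂ) * hy -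
    MvPolynomial.X i * MvPolynomial.C (1 / 3 : ℂ) * h1 + MvPolynomial.X i ^ 3 * h3

theorem not_isUnit_cube : ¬ IsUnit (-(1 + MvPolynomial.X i ^ 3) : MvPolynomial (Fin n) ℂ) := by
  intro h
  have h1 := h.map (MvPolynomial.eval fun _ => (-1 : ℂ))
  rw [map_neg, map_add, map_one, map_pow, MvPolynomial.eval_X] at h1
  norm_num at h1

end Poly

section Apply

variable {K : Type} [Field K] [Algebra ℂ K]

theorem exists_omega : ∃ ω : ℂ, ω ^ 2 + ω + 1 = 0 := by
  obtain ⟨z, hz⟩ := IsAlgClosed.exists_root (X ^ 2 + X + 1 : ℂ[X]) (by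
    have : (X ^ 2 + X + 1 : ℂ[X]).degree = 2 := by compute_degree!
    rw [this]
    norm_num)
  refine ⟨z, ?_⟩
  simpa using hz

theorem cube_mem {n : ℕ} {v : Fin n → K} (hv : AlgebraicIndependent ℂ v) (i : Fin n) {b : K}
    (hb : 1 + v i ^ 3 + b ^ 3 = 0) {f0 f1 f2 : K}
    (h0 : f0 ∈ IntermediateField.adjoin ℂ (Set.range v))
    (h1 : f1 ∈ IntermediateField.adjoin ℂ (Set.range v))
    (h2 : f2 ∈ IntermediateField.adjoin ℂ (Set.range v))
    (hx : IsIntegral (Algebra.adjoin ℂ (Set.range v)) (f0 + f1 * b + f2 * b ^ 2)) :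
    f0 ∈ Algebra.adjoin ℂ (Set.range v) ∧ f1 ∈ Algebra.adjoin ℂ (Set.range v) ∧
      f2 ∈ Algebra.adjoin ℂ (Set.range v) := by
  set S := Algebra.adjoin ℂ (Set.range v) with hS
  set L := IntermediateField.adjoin ℂ (Set.range v) with hL
  have hSL : S ≤ L.toSubalgebra := IntermediateField.algebra_adjoin_le_adjoin ℂ _
  let _ : Algebra S L := (Subalgebra.inclusion hSL).toRingHom.toAlgebra
  have hinj : Function.Injective (algebraMap S L) := by
    intro x y hxy
    exact Subtype.ext (congrArg (fun z : L => (z : K)) hxy)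
  have : FaithfulSMul S L := (faithfulSMul_iff_algebraMap_injective S L).2 hinj
  have : IsFractionRing S L := by
    refine IsFractionRing.of_field S L fun z => ?_
    obtain ⟨g, hg, k, hk, e⟩ := IntermediateField.mem_adjoin_iff_div.1 z.2
    exact ⟨⟨g, hg⟩, ⟨k, hk⟩, Subtype.ext e⟩
  have : IsScalarTower S L K := IsScalarTower.of_algebraMap_eq fun _ => rfl
  let e : MvPolynomial (Fin n) ℂ ≃ₐ[ℂ] S := hv.aevalEquiv
  have he : ∀ p, ((e p : S) : K) = MvPolynomial.aeval v p := fun p => rfl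
  have hufd : UniqueFactorizationMonoid S :=
    (e : MvPolynomial (Fin n) ℂ ≃* S).uniqueFactorizationMonoid inferInstance
  set c : S := e (-(1 + MvPolynomial.X i ^ 3)) with hc
  have hcK : (c : K) = -(1 + v i ^ 3) := by
    rw [hc, he]
    simp
  have hsq : Squarefree c := by
    rintro x ⟨y, hy⟩
    have h3 : e.symm x * e.symm x ∣ (-(1 + MvPolynomial.X i ^ 3) : MvPolynomial (Fin n) ℂ) := by
      refine ⟨e.symm y, ?_⟩
      rw [← map_mul, ← map_mul, ← hy, hc, AlgEquiv.symm_apply_apply]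
    have h4 := squarefree_cube i _ h3
    have h5 := h4.map e
    rwa [AlgEquiv.apply_symm_apply] at h5
  have hnu : ¬ IsUnit c := by
    intro h
    have h3 := h.map e.symm
    rw [hc, AlgEquiv.symm_apply_apply] at h3
    exact not_isUnit_cube i h3
  obtain ⟨ω, hω⟩ := exists_omega
  have hωS : (algebraMap ℂ S ω) ^ 2 + algebraMap ℂ S ω + 1 = 0 := by
    rw [← map_pow, ← map_add, ← map_one (algebraMap ℂ S), ← map_add, hω, map_zero]
  have h3 : IsUnit (3 : S) := by
    have h4 : IsUnit (3 : ℂ) := by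
      rw [isUnit_iff_ne_zero]
      norm_num
    have h5 := h4.map (algebraMap ℂ S)
    rwa [map_ofNat] at h5
  have hbK : b ^ 3 = algebraMap S K c := by
    change b ^ 3 = (c : K)
    rw [hcK]
    linear_combination hb
  obtain ⟨⟨g0, e0⟩, ⟨g1, e1⟩, ⟨g2, e2⟩⟩ := cube_aux (L := L) (E := K) hsq hnu hωS h3 hbK
    (f0 := ⟨f0, h0⟩) (f1 := ⟨f1, h1⟩) (f2 := ⟨f2, h2⟩) hx
  refine ⟨?_, ?_, ?_⟩
  · have := congrArg (fun z : L => (z : K)) e0
    change (g0 : K) = f0 at this
    rw [← this]
    exact g0.2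
  · have := congrArg (fun z : L => (z : K)) e1
    change (g1 : K) = f1 at this
    rw [← this]
    exact g1.2
  · have := congrArg (fun z : L => (z : K)) e2
    change (g2 : K) = f2 at this
    rw [← this]
    exact g2.2

/-- The powers `1, b, b ^ 2` are linearly independent. -/
theorem cube_indep {n : ℕ} {v : Fin n → K} (hv : AlgebraicIndependent ℂ v) (i : Fin n) {b : K}
    (hb : 1 + v i ^ 3 + b ^ 3 = 0) :
    LinearIndependent (IntermediateField.adjoin ℂ (Set.range v)) (fun j : Fin 3 => b ^ (j : ℕ)) := by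
  set S := Algebra.adjoin ℂ (Set.range v) with hS
  set L := IntermediateField.adjoin ℂ (Set.range v) with hL
  have hSL : S ≤ L.toSubalgebra := IntermediateField.algebra_adjoin_le_adjoin ℂ _
  let _ : Algebra S L := (Subalgebra.inclusion hSL).toRingHom.toAlgebra
  have hinj : Function.Injective (algebraMap S L) := by
    intro x y hxy
    exact Subtype.ext (congrArg (fun z : L => (z : K)) hxy)
  have : FaithfulSMul S L := (faithfulSMul_iff_algebraMap_injective S L).2 hinj
  have : IsFractionRing S L := by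
    refine IsFractionRing.of_field S L fun z => ?_
    obtain ⟨g, hg, k, hk, e⟩ := IntermediateField.mem_adjoin_iff_div.1 z.2
    exact ⟨⟨g, hg⟩, ⟨k, hk⟩, Subtype.ext e⟩
  let e : MvPolynomial (Fin n) ℂ ≃ₐ[ℂ] S := hv.aevalEquiv
  have he : ∀ p, ((e p : S) : K) = MvPolynomial.aeval v p := fun p => rfl
  have hufd : UniqueFactorizationMonoid S :=
    (e : MvPolynomial (Fin n) ℂ ≃* S).uniqueFactorizationMonoid inferInstance
  set c : S := e (-(1 + MvPolynomial.X i ^ 3)) with hc
  have hcK : (c : K) = -(1 + v i ^ 3) := by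
    rw [hc, he]
    simp
  have hsq : Squarefree c := by
    rintro x ⟨y, hy⟩
    have h3 : e.symm x * e.symm x ∣ (-(1 + MvPolynomial.X i ^ 3) : MvPolynomial (Fin n) ℂ) := by
      refine ⟨e.symm y, ?_⟩
      rw [← map_mul, ← map_mul, ← hy, hc, AlgEquiv.symm_apply_apply]
    have h4 := squarefree_cube i _ h3
    have h5 := h4.map e
    rwa [AlgEquiv.apply_symm_apply] at h5
  have hnu : ¬ IsUnit c := by
    intro h
    have h3 := h.map e.symm
    rw [hc, AlgEquiv.symm_apply_apply] at h3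
    exact not_isUnit_cube i h3
  have hirr := irr_aux (L := L) hsq hnu
  have hmin : X ^ 3 - C (algebraMap S L c) = minpoly L b := by
    refine minpoly.eq_of_irreducible_of_monic hirr ?_ (monic_X_pow_sub_C _ (by norm_num))
    rw [map_sub, map_pow, aeval_X, aeval_C]
    change b ^ 3 - (c : K) = 0
    rw [hcK]
    linear_combination hb
  have hdeg : (minpoly L b).natDegree = 3 := by
    rw [← hmin, natDegree_X_pow_sub_C]
  have h := linearIndependent_pow (K := L) b
  rw [hdeg] at h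
  exact h

/-- Elements of the cubic extension. -/
theorem exists_cubic {T : Set K} {a b : K} (ha : a ∈ T) (hb : 1 + a ^ 3 + b ^ 3 = 0) {x : K}
    (hx : x ∈ IntermediateField.adjoin ℂ (insert b T)) :
    ∃ f0 ∈ IntermediateField.adjoin ℂ T, ∃ f1 ∈ IntermediateField.adjoin ℂ T,
      ∃ f2 ∈ IntermediateField.adjoin ℂ T, x = f0 + f1 * b + f2 * b ^ 2 := by
  set L := IntermediateField.adjoin ℂ T with hL
  have haL : a ∈ L := IntermediateField.subset_adjoin _ _ ha
  have h1 : x ∈ (IntermediateField.adjoin L {b}).restrictScalars ℂ := by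
    rw [hL, IntermediateField.adjoin_adjoin_left]
    have h2 : (T ∪ {b} : Set K) = insert b T := by
      ext y
      simp only [Set.mem_union, Set.mem_insert_iff, Set.mem_singleton_iff]
      tauto
    rw [h2]
    exact hx
  have halg : IsAlgebraic L b := by
    have h2 : IsAlgebraic L (b ^ 3) := by
      have : b ^ 3 = algebraMap L K (-(1 + ⟨a, haL⟩ ^ 3)) := by
        change b ^ 3 = -(1 + a ^ 3)
        linear_combination hb
      rw [this]
      exact isAlgebraic_algebraMap _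
    exact h2.of_pow (by norm_num)
  have h2 : x ∈ (IntermediateField.adjoin L {b}).toSubalgebra := h1
  rw [IntermediateField.adjoin_simple_toSubalgebra_of_isAlgebraic halg] at h2
  have hb3 : b ^ 3 = -(1 + a ^ 3) := by linear_combination hb
  have haL3 : -(1 + a ^ 3) ∈ L := neg_mem (add_mem (one_mem _) (pow_mem haL 3))
  clear h1 hx
  induction h2 using Algebra.adjoin_induction with
  | mem x hx =>
    rw [Set.mem_singleton_iff] at hx
    exact ⟨0, zero_mem _, 1, one_mem _, 0, zero_mem _, by rw [hx]; ring⟩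
  | algebraMap z => exact ⟨z, z.2, 0, zero_mem _, 0, zero_mem _, by
      change (z : K) = _
      ring⟩
  | add x y _ _ hx hy =>
    obtain ⟨f0, h0, f1, h1, f2, h2, rfl⟩ := hx
    obtain ⟨g0, k0, g1, k1, g2, k2, rfl⟩ := hy
    exact ⟨f0 + g0, add_mem h0 k0, f1 + g1, add_mem h1 k1, f2 + g2, add_mem h2 k2, by ring⟩
  | mul x y _ _ hx hy =>
    obtain ⟨f0, h0, f1, h1, f2, h2, rfl⟩ := hx
    obtain ⟨g0, k0, g1, k1, g2, k2, rfl⟩ := hy
    refine ⟨f0 * g0 + (f1 * g2 + f2 * g1) * -(1 + a ^ 3),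
      add_mem (mul_mem h0 k0) (mul_mem (add_mem (mul_mem h1 k2) (mul_mem h2 k1)) haL3),
      f0 * g1 + f1 * g0 + f2 * g2 * -(1 + a ^ 3),
      add_mem (add_mem (mul_mem h0 k1) (mul_mem h1 k0)) (mul_mem (mul_mem h2 k2) haL3),
      f0 * g2 + f1 * g1 + f2 * g0,
      add_mem (add_mem (mul_mem h0 k2) (mul_mem h1 k1)) (mul_mem h2 k0), ?_⟩
    linear_combination (f1 * g2 + f2 * g1 + f2 * g2 * b) * hb3

theorem normal_aux {n : ℕ} {v : Fin n → K} (hv : AlgebraicIndependent ℂ v) (i : Fin n) {b : K}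
    (hb : 1 + v i ^ 3 + b ^ 3 = 0) {A : Subalgebra ℂ K}
    (hA : A = Algebra.adjoin ℂ (insert b (Set.range v))) {x : K}
    (hx : x ∈ IntermediateField.adjoin ℂ (insert b (Set.range v))) (hxA : IsIntegral A x) :
    x ∈ A := by
  set S := Algebra.adjoin ℂ (Set.range v) with hS
  have hSA : S ≤ A := by
    rw [hA]
    exact Algebra.adjoin_mono (Set.subset_insert _ _)
  have hvS : ∀ j, v j ∈ S := fun j => Algebra.subset_adjoin ⟨j, rfl⟩
  let _ : Algebra S A := (Subalgebra.inclusion hSA).toRingHom.toAlgebra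
  have : IsScalarTower S A K := IsScalarTower.of_algebraMap_eq fun _ => rfl
  have hbint : IsIntegral S b := by
    refine IsIntegral.of_pow (n := 3) (by norm_num) ?_
    have : b ^ 3 = algebraMap S K (-(1 + ⟨v i, hvS i⟩ ^ 3)) := by
      change b ^ 3 = -(1 + v i ^ 3)
      linear_combination hb
    rw [this]
    exact isIntegral_algebraMap
  have hint : Algebra.IsIntegral S A := by
    refine ⟨fun y => ?_⟩
    have h1 : IsIntegral S (y : K) := by
      obtain ⟨y, hy⟩ := y
      change IsIntegral S y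
      rw [hA] at hy
      induction hy using Algebra.adjoin_induction with
      | mem y hy =>
        rcases hy with rfl | ⟨j, rfl⟩
        · exact hbint
        · exact isIntegral_algebraMap (R := S) (x := ⟨v j, hvS j⟩)
      | algebraMap z => exact isIntegral_algebraMap (R := S) (x := algebraMap ℂ S z)
      | add x y _ _ h1 h2 => exact h1.add h2
      | mul x y _ _ h1 h2 => exact h1.mul h2
    exact (isIntegral_algebraMap_iff (A := A) (B := K) Subtype.val_injective).1 h1
  have hxS : IsIntegral S x := isIntegral_trans x hxA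
  obtain ⟨f0, h0, f1, h1, f2, h2, rfl⟩ := exists_cubic (T := Set.range v) ⟨i, rfl⟩ hb hx
  obtain ⟨k0, k1, k2⟩ := cube_mem hv i hb h0 h1 h2 hxS
  have hbA : b ∈ A := by
    rw [hA]
    exact Algebra.subset_adjoin (Set.mem_insert _ _)
  exact add_mem (add_mem (hSA k0) (mul_mem (hSA k1) hbA)) (mul_mem (hSA k2) (pow_mem hbA 2))

end Apply

namespace Coord

variable {K : Type} [Field K] [Algebra ℂ K] (c : Coord K)

/-- `K` is the fraction field of `ℂ[a, b, p, q]`. -/
theorem exists_div_A (f : K) : ∃ g ∈ c.A, ∃ h ∈ c.A, h ≠ 0 ∧ f = g / h := by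
  have hf : f ∈ IntermediateField.adjoin ℂ {c.a, c.b, c.p, c.q} := by
    rw [c.gen]
    trivial
  obtain ⟨r, hr, s, hs, e⟩ := IntermediateField.mem_adjoin_iff_div.1 hf
  by_cases hs0 : s = 0
  · exact ⟨0, zero_mem _, 1, one_mem _, one_ne_zero, by rw [e, hs0, div_zero, zero_div]⟩
  · exact ⟨r, hr, s, hs, hs0, e⟩

/-- `ℂ(a, b, p)` is the fraction field of `ℂ[a, b, p]`. -/
theorem exists_div_D {f : K} (hf : f ∈ c.K₀) : ∃ g ∈ c.D, ∃ h ∈ c.D, h ≠ 0 ∧ f = g / h := by
  obtain ⟨r, hr, s, hs, e⟩ := IntermediateField.mem_adjoin_iff_div.1 hf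
  by_cases hs0 : s = 0
  · exact ⟨0, zero_mem _, 1, one_mem _, one_ne_zero, by rw [e, hs0, div_zero, zero_div]⟩
  · exact ⟨r, hr, s, hs, hs0, e⟩

theorem range_three (x y z : K) : Set.range ![x, y, z] = {x, y, z} := by
  ext w
  simp only [Set.mem_range, Set.mem_insert_iff, Set.mem_singleton_iff]
  constructor
  · rintro ⟨i, rfl⟩
    fin_cases i <;> simp
  · rintro (rfl | rfl | rfl)
    · exact ⟨0, rfl⟩
    · exact ⟨1, rfl⟩
    · exact ⟨2, rfl⟩

theorem range_two (x y : K) : Set.range ![x, y] = {x, y} := by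
  ext w
  simp only [Set.mem_range, Set.mem_insert_iff, Set.mem_singleton_iff]
  constructor
  · rintro ⟨i, rfl⟩
    fin_cases i <;> simp
  · rintro (rfl | rfl)
    · exact ⟨0, rfl⟩
    · exact ⟨1, rfl⟩

theorem set_eq_three : ({c.a, c.b, c.p, c.q} : Set K) = insert c.b (Set.range ![c.a, c.p, c.q]) := by
  rw [range_three]
  ext x
  simp only [Set.mem_insert_iff, Set.mem_singleton_iff]
  tauto

theorem set_eq_two : ({c.a, c.b, c.p} : Set K) = insert c.b (Set.range ![c.a, c.p]) := by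
  rw [range_two]
  ext x
  simp only [Set.mem_insert_iff, Set.mem_singleton_iff]
  tauto

theorem indep_two : AlgebraicIndependent ℂ ![c.a, c.p] := by
  have h := c.indep.comp ![0, 1] (by
    intro x y hxy
    fin_cases x <;> fin_cases y <;> simp at hxy ⊢)
  convert h using 1
  funext i
  fin_cases i <;> rfl

/-- The affine ring `ℂ[a, b, p, q]` is integrally closed in `K`. -/
theorem mem_A_of_isIntegral {x : K} (hx : IsIntegral c.A x) : x ∈ c.A := by
  refine normal_aux c.indep 0 c.rel ?_ ?_ hx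
  · rw [A, set_eq_three]
  · rw [← set_eq_three, c.gen]
    trivial

/-- The affine ring `ℂ[a, b, p]` is integrally closed in its fraction field `ℂ(a, b, p)`. -/
theorem isIntegrallyClosed_D : IsIntegrallyClosed c.D := by
  have hDK : c.D ≤ c.K₀.toSubalgebra := IntermediateField.algebra_adjoin_le_adjoin ℂ _
  let _ : Algebra c.D c.K₀ := (Subalgebra.inclusion hDK).toRingHom.toAlgebra
  have hinj : Function.Injective (algebraMap c.D c.K₀) := by
    intro x y hxy
    exact Subtype.ext (congrArg (fun z : c.K₀ => (z : K)) hxy)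
  have : FaithfulSMul c.D c.K₀ := (faithfulSMul_iff_algebraMap_injective c.D c.K₀).2 hinj
  have : IsFractionRing c.D c.K₀ := by
    refine IsFractionRing.of_field c.D c.K₀ fun z => ?_
    obtain ⟨g, hg, k, hk, e⟩ := IntermediateField.mem_adjoin_iff_div.1 z.2
    exact ⟨⟨g, hg⟩, ⟨k, hk⟩, Subtype.ext e⟩
  have : IsScalarTower c.D c.K₀ K := IsScalarTower.of_algebraMap_eq fun _ => rfl
  rw [isIntegrallyClosed_iff c.K₀]
  intro x hx
  have h1 : IsIntegral c.D (x : K) := hx.algebraMap
  have h2 : (x : K) ∈ c.D := by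
    refine normal_aux c.indep_two 0 c.rel ?_ ?_ h1
    · rw [D, set_eq_two]
    · rw [← set_eq_two]
      exact x.2
  exact ⟨⟨x, h2⟩, rfl⟩

theorem isIntegrallyClosed_A : IsIntegrallyClosed c.A := by
  have : IsFractionRing c.A K := by
    refine IsFractionRing.of_field c.A K fun z => ?_
    obtain ⟨g, hg, k, hk, -, e⟩ := c.exists_div_A z
    exact ⟨⟨g, hg⟩, ⟨k, hk⟩, e⟩
  rw [isIntegrallyClosed_iff K]
  intro x hx
  exact ⟨⟨x, c.mem_A_of_isIntegral hx⟩, rfl⟩

end Coord

end Pool.Agent.Helper94.LCY
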