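import Pool.Agent.Helper94.LCY.Ord

/-!
# Projective varieties, divisors, canonical forms, log Calabi-Yau pairs, cluster type

Everything is expressed in the classical language of function fields: `K` is the function field
of a complex projective variety `X`, the local rings of `X` are subrings of `K`.
-/

noncomputable section

open KaehlerDifferential

namespace Pool.Agent.Helper94.LCY

/-! ## Projective varieties and their points -/

/-- The ratios `x i / x j` generate the field `K` over `ℂ`. -/
def RatiosGenerate {K : Type} [Field K] [Algebra ℂ K] {ι : Type} (x : ι → K) : Prop :=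
  IntermediateField.adjoin ℂ {r : K | ∃ i j, r = x i / x j} = ⊤

/-- A projective variety `X ⊆ ℙ^ι` over `ℂ` with function field `K`, given by its homogeneous
generic point `(x i)_{i : ι}` (a nonzero vector of elements of `K`, whose ratios generate the
field `K` over `ℂ`). So `X` is the closure in `ℙ^ι` of the point `[x] ∈ ℙ^ι(K)`. -/
structure ProjVar (K : Type) [Field K] [Algebra ℂ K] (ι : Type) where
  /-- the homogeneous coordinates of the generic point -/
  x : ι → K
  exists_ne : ∃ i, x i ≠ 0
  gen : RatiosGenerate x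

namespace ProjVar

variable {K : Type} [Field K] [Algebra ℂ K] {ι : Type} (X : ProjVar K ι)

/-- The coordinate ring `ℂ[x_i / x_j : i]` of the affine chart `x_j ≠ 0` of `X`. -/
def chart (j : ι) : Subalgebra ℂ K := Algebra.adjoin ℂ (Set.range fun i => X.x i / X.x j)

/-- `R` is the local ring of a (scheme) point of `X`: the localization of the coordinate ring of
an affine chart at a prime ideal. -/
def IsPoint (R : LocalSubring K) : Prop :=
  ∃ j, X.x j ≠ 0 ∧ ∃ (𝔭 : Ideal (X.chart j).toSubring) (_ : 𝔭.IsPrime),
    R = LocalSubring.ofPrime (X.chart j).toSubring 𝔭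

/-- `X` is normal: the coordinate rings of its affine charts are integrally closed. -/
def IsNormal : Prop := ∀ j, X.x j ≠ 0 → IsIntegrallyClosed (X.chart j)

/-- The prime divisors of a normal variety `X`, i.e. its points of codimension one, i.e. the
points whose local ring is a discrete valuation ring. -/
def PrimeDiv : Type :=
  {v : ValuationSubring K // X.IsPoint v.toLocalSubring ∧ IsDiscreteValuationRing v}

/-- The discrete valuation ring of `K` which is the local ring of the prime divisor `P`. -/
abbrev PrimeDiv.dvr {X : ProjVar K ι} (P : X.PrimeDiv) : ValuationSubring K := P.1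

instance (P : X.PrimeDiv) : IsDiscreteValuationRing P.dvr := P.2.2

/-- `P` passes through the point with local ring `R`. -/
def PrimeDiv.Through {X : ProjVar K ι} (P : X.PrimeDiv) (R : LocalSubring K) : Prop :=
  R.toSubring ≤ P.dvr.toSubring

/-! ## Divisors, the Picard group and the Picard rank -/

/-- The Weil divisors of `X`. -/
abbrev WeilDiv : Type := X.PrimeDiv →₀ ℤ

/-- The principal divisors `div f` on `X`. -/
def principal : AddSubgroup X.WeilDiv where
  carrier := {D | ∃ f : K, f ≠ 0 ∧ ∀ P : X.PrimeDiv, D P = ord P.dvr f}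
  zero_mem' := ⟨1, one_ne_zero, fun P => by simp [ord_one]⟩
  add_mem' := by
    rintro D E ⟨f, hf, hD⟩ ⟨g, hg, hE⟩
    exact ⟨f * g, mul_ne_zero hf hg, fun P => by rw [Finsupp.add_apply, hD, hE, ord_mul hf hg]⟩
  neg_mem' := by
    rintro D ⟨f, hf, hD⟩
    exact ⟨f⁻¹, inv_ne_zero hf, fun P => by rw [Finsupp.neg_apply, hD, ord_inv hf]⟩

/-- The Cartier divisors on `X`: the Weil divisors which are principal near every point of `X`. -/
def cartier : AddSubgroup X.WeilDiv where
  carrier := {D | ∀ R : LocalSubring K, X.IsPoint R →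
    ∃ f : K, f ≠ 0 ∧ ∀ P : X.PrimeDiv, P.Through R → D P = ord P.dvr f}
  zero_mem' := fun _ _ => ⟨1, one_ne_zero, fun P _ => by simp [ord_one]⟩
  add_mem' := by
    rintro D E hD hE R hR
    obtain ⟨f, hf, hD⟩ := hD R hR
    obtain ⟨g, hg, hE⟩ := hE R hR
    exact ⟨f * g, mul_ne_zero hf hg,
      fun P hP => by rw [Finsupp.add_apply, hD P hP, hE P hP, ord_mul hf hg]⟩
  neg_mem' := by
    rintro D hD R hR
    obtain ⟨f, hf, hD⟩ := hD R hR
    exact ⟨f⁻¹, inv_ne_zero hf, fun P hP => by rw [Finsupp.neg_apply, hD P hP, ord_inv hf]⟩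

/-- The Picard group of the normal variety `X`: Cartier divisors modulo principal divisors. -/
def Pic : Type := X.cartier ⧸ X.principal.addSubgroupOf X.cartier

instance : AddCommGroup X.Pic := by delta Pic; infer_instance

end ProjVar

/-- The largest divisible subgroup of an abelian group. -/
def divisiblePart (G : Type) [AddCommGroup G] : AddSubgroup G :=
  sSup {H : AddSubgroup G | ∀ n : ℕ, 0 < n → ∀ x ∈ H, ∃ y ∈ H, n • y = x}

namespace ProjVar

variable {K : Type} [Field K] [Algebra ℂ K] {ι : Type} (X : ProjVar K ι)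

/-- The Néron-Severi group `NS(X) = Pic(X) / Pic⁰(X)`. Here `Pic⁰(X)` is the largest divisible
subgroup of `Pic(X)`: it is divisible, being the group of complex points of a connected
commutative algebraic group, and `Pic(X) / Pic⁰(X)` is finitely generated. -/
def NS : Type := X.Pic ⧸ divisiblePart X.Pic

instance : AddCommGroup X.NS := by delta NS; infer_instance

/-- The Picard rank `ρ(X)`, the rank of the Néron-Severi group. -/
def picardRank : ℕ := Module.finrank ℤ X.NS

end ProjVar

/-! ## Differential forms and their orders along divisorial valuations -/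

section Forms

/-- The rational differentials of a variety with function field `K`: the `K`-vector space of
Kähler differentials of `K / ℂ`. -/
def Diff (K : Type) [Field K] [Algebra ℂ K] : Type := Ω[K⁄ℂ]

instance (K : Type) [Field K] [Algebra ℂ K] : AddCommGroup (Diff K) := by
  delta Diff; infer_instance

instance (K : Type) [Field K] [Algebra ℂ K] : Module K (Diff K) := by
  delta Diff; infer_instance

/-- The algebra of rational differential forms: the exterior algebra of `Diff K`. -/
def FormAlg (K : Type) [Field K] [Algebra ℂ K] : Type := ExteriorAlgebra K (Diff K)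

instance instRingFormAlg (K : Type) [Field K] [Algebra ℂ K] : Ring (FormAlg K) := by
  delta FormAlg; infer_instance

instance instAlgebraFormAlg (K : Type) [Field K] [Algebra ℂ K] : Algebra K (FormAlg K) := by
  delta FormAlg instRingFormAlg; infer_instance

/-- The space of rational `n`-forms: the `n`-th exterior power of the `K`-vector space `Diff K`. -/
def formSpace (K : Type) [Field K] [Algebra ℂ K] (n : ℕ) : Submodule K (FormAlg K) :=
  ⋀[K]^n (Diff K)

/-- The type of rational `n`-forms. -/
def Form (K : Type) [Field K] [Algebra ℂ K] (n : ℕ) : Type := formSpace K n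

instance (K : Type) [Field K] [Algebra ℂ K] (n : ℕ) : AddCommGroup (Form K n) := by
  delta Form; infer_instance

instance (K : Type) [Field K] [Algebra ℂ K] (n : ℕ) : Module K (Form K n) := by
  delta Form; infer_instance

variable {K : Type} [Field K] [Algebra ℂ K]

/-- The differential `dg` of a rational function `g`. -/
def diff (g : K) : Diff K := D ℂ K g

/-- The differential form `dg_1 ∧ ... ∧ dg_n`, as an element of the algebra of forms. -/
def wedgeAlg {n : ℕ} (g : Fin n → K) : FormAlg K :=
  ExteriorAlgebra.ιMulti K n (fun i => diff (g i))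

theorem wedgeAlg_mem {n : ℕ} (g : Fin n → K) : wedgeAlg g ∈ formSpace K n :=
  ExteriorAlgebra.ιMulti_range K n ⟨_, rfl⟩

/-- The `n`-form `dg_1 ∧ ... ∧ dg_n`. -/
def wedge {n : ℕ} (g : Fin n → K) : Form K n := ⟨wedgeAlg g, wedgeAlg_mem g⟩

/-- The group of rational `n`-forms which are regular at `v`: the `v`-module generated by the
`dg_1 ∧ ... ∧ dg_n` with `g_i ∈ v`, i.e. the image of `Ω^n_{v/ℂ}`. -/
def regularForms (n : ℕ) (v : ValuationSubring K) : AddSubgroup (Form K n) :=
  AddSubgroup.closure {θ | ∃ (a : K) (g : Fin n → K), a ∈ v ∧ (∀ i, g i ∈ v) ∧ θ = a • wedge g}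

/-- The regular `n`-forms at `v` form a free `v`-module of rank one with generator `η`. -/
def Generates (n : ℕ) (v : ValuationSubring K) (η : Form K n) : Prop :=
  η ≠ 0 ∧ ∀ ξ, ξ ∈ regularForms n v ↔ ∃ a ∈ v, ξ = a • η

/-- `HasOrder n v θ k`: the `n`-form `θ` has order `k` along the discrete valuation ring `v`.
That is: `θ = t ^ k • η` for a uniformizer `t` and a generator `η` of the regular forms at `v`. -/
def HasOrder (n : ℕ) (v : ValuationSubring K) (θ : Form K n) (k : ℤ) : Prop :=
  ∃ (t : v) (η : Form K n), Irreducible t ∧ Generates n v η ∧ θ = (t : K) ^ k • η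

/-- The pluricanonical form `f • θ ^ ⊗ m` has order `l` along the discrete valuation ring `v`. -/
def HasPluriOrder (n : ℕ) (v : ValuationSubring K) (m : ℕ) (f : K) (θ : Form K n) (l : ℤ) :
    Prop := ∃ k : ℤ, HasOrder n v θ k ∧ l = m * k + ord v f

/-- `v` is a divisorial valuation ring of `K / ℂ`, where `K` has transcendence degree `n`
(i.e. the local ring of a prime divisor on some normal model of `K`): it is a discrete valuation
ring containing `n - 1` elements whose residues are algebraically independent over `ℂ`. -/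
def IsDivisorial (n : ℕ) (v : ValuationSubring K) : Prop :=
  IsDiscreteValuationRing v ∧
    ∃ g : Fin (n - 1) → K, ∀ p : MvPolynomial (Fin (n - 1)) ℂ, p ≠ 0 →
      v.valuation (MvPolynomial.aeval g p) = 1

end Forms

/-! ## Pairs, discrepancies, log Calabi-Yau pairs -/

section Pairs

variable {K : Type} [Field K] [Algebra ℂ K] {ι : Type}

/-- The pluricanonical form `f • θ ^ ⊗ m` has order `- m * B(P)` along the prime divisor `P` of
the `n`-dimensional normal variety `X`. -/
def HasOrderNegB (n : ℕ) (X : ProjVar K ι) (B : X.PrimeDiv → ℚ) (m : ℕ) (f : K) (θ : Form K n)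
    (P : X.PrimeDiv) : Prop :=
  ∃ l : ℤ, HasPluriOrder n P.dvr m f θ l ∧ (l : ℚ) = - (m * B P)

/-- `(m, f, θ)` is a local generator of `m (K_X + B)` at the point `R` of `X`: the pluricanonical
form `f • θ ^ ⊗ m` has order `- m * B(P)` along every prime divisor `P` of `X` through `R`. -/
def IsLocalGenerator (n : ℕ) (X : ProjVar K ι) (B : X.PrimeDiv → ℚ) (R : LocalSubring K)
    (m : ℕ) (f : K) (θ : Form K n) : Prop :=
  0 < m ∧ f ≠ 0 ∧ θ ≠ 0 ∧ ∀ P : X.PrimeDiv, P.Through R → HasOrderNegB n X B m f θ P

/-- `a` is the discrepancy `a(v; X, B)` of the divisorial valuation `v`, i.e. the coefficient of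
the divisor of `v` in `K_Y - π^*(K_X + B)` for a model `π : Y → X` on which `v` is a divisor:
if `R` is the centre of `v` on `X` and `(m, f, θ)` is a local generator of `m (K_X + B)` at `R`,
it is the order of `f • θ ^ ⊗ m` along `v`, divided by `m`. -/
def HasDiscrepancy (n : ℕ) (X : ProjVar K ι) (B : X.PrimeDiv → ℚ) (v : ValuationSubring K)
    (a : ℚ) : Prop :=
  ∃ R : LocalSubring K, X.IsPoint R ∧ R ≤ v.toLocalSubring ∧
    ∃ (m : ℕ) (f : K) (θ : Form K n), IsLocalGenerator n X B R m f θ ∧
      ∃ l : ℤ, HasPluriOrder n v m f θ l ∧ m * a = l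

/-- The pair `(X, B)` is log canonical: `K_X + B` is `ℚ`-Cartier, and all discrepancies of
divisorial valuations are at least `-1`. -/
def IsLogCanonical (n : ℕ) (X : ProjVar K ι) (B : X.PrimeDiv → ℚ) : Prop :=
  ∀ R : LocalSubring K, X.IsPoint R → ∃ (m : ℕ) (f : K) (θ : Form K n),
    IsLocalGenerator n X B R m f θ ∧
      ∀ v : ValuationSubring K, IsDivisorial n v → R ≤ v.toLocalSubring →
        ∃ l : ℤ, HasPluriOrder n v m f θ l ∧ - (m : ℤ) ≤ l

/-- Some positive multiple `m (K_X + B)` is principal: it is `- div` of a pluricanonical form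
`f • θ ^ ⊗ m`. -/
def IsQTrivial (n : ℕ) (X : ProjVar K ι) (B : X.PrimeDiv → ℚ) : Prop :=
  ∃ (m : ℕ) (f : K) (θ : Form K n), 0 < m ∧ f ≠ 0 ∧ θ ≠ 0 ∧
    ∀ P : X.PrimeDiv, HasOrderNegB n X B m f θ P

/-- `(X, B)` is a log Calabi-Yau pair of dimension `n`: `X` is a normal projective variety of
dimension `n`, `B` is an effective `ℚ`-divisor, `(X, B)` is log canonical and some positive
multiple of `K_X + B` is principal. -/
def IsLogCY (n : ℕ) (X : ProjVar K ι) (B : X.PrimeDiv → ℚ) : Prop :=
  Algebra.trdeg ℂ K = n ∧ X.IsNormal ∧ (Function.support B).Finite ∧ (∀ P, 0 ≤ B P) ∧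
    IsLogCanonical n X B ∧ IsQTrivial n X B

/-- `(X, B)` has index one: `K_X + B ∼ 0`, i.e. there is a rational `n`-form `θ ≠ 0` with
`div θ = - B`. -/
def IndexOne (n : ℕ) (X : ProjVar K ι) (B : X.PrimeDiv → ℚ) : Prop :=
  ∃ θ : Form K n, θ ≠ 0 ∧ ∀ P : X.PrimeDiv, ∃ k : ℤ, HasOrder n P.dvr θ k ∧ (k : ℚ) = - B P

end Pairs

/-! ## Projective space and cluster type -/

/-- The function field `ℂ(x_1, ..., x_n)` of `ℙ^n`. -/
abbrev RatField (n : ℕ) : Type := FractionRing (MvPolynomial (Fin n) ℂ)

/-- The coordinate function `x_i` on `ℙ^n`. -/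
def ratX (n : ℕ) (i : Fin n) : RatField n :=
  algebraMap (MvPolynomial (Fin n) ℂ) (RatField n) (MvPolynomial.X i)

theorem adjoin_ratX (n : ℕ) :
    IntermediateField.adjoin ℂ (Set.range (ratX n)) = (⊤ : IntermediateField ℂ (RatField n)) := by
  rw [eq_top_iff]
  rintro f -
  have key : ∀ p : MvPolynomial (Fin n) ℂ, algebraMap (MvPolynomial (Fin n) ℂ) (RatField n) p ∈
      IntermediateField.adjoin ℂ (Set.range (ratX n)) := by
    intro p
    induction p using MvPolynomial.induction_on with
    | C a =>
      have : algebraMap (MvPolynomial (Fin n) ℂ) (RatField n) (MvPolynomial.C a) =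
          algebraMap ℂ (RatField n) a := by
        rw [IsScalarTower.algebraMap_apply ℂ (MvPolynomial (Fin n) ℂ) (RatField n)]
        rfl
      rw [this]
      exact IntermediateField.algebraMap_mem _ a
    | add p q hp hq => rw [map_add]; exact add_mem hp hq
    | mul_X p i hp =>
      rw [map_mul]
      exact mul_mem hp (IntermediateField.subset_adjoin _ _ ⟨i, rfl⟩)
  obtain ⟨a, b, hb, rfl⟩ := IsFractionRing.div_surjective (A := MvPolynomial (Fin n) ℂ) f
  exact div_mem (key a) (key b)

/-- Projective space `ℙ^n` with generic point `[1 : x_1 : ... : x_n]`. -/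
def projSpace (n : ℕ) : ProjVar (RatField n) (Option (Fin n)) where
  x := fun i => i.elim 1 (ratX n)
  exists_ne := ⟨none, one_ne_zero⟩
  gen := by
    rw [RatiosGenerate, eq_top_iff, ← adjoin_ratX n, IntermediateField.adjoin_le_iff]
    rintro _ ⟨i, rfl⟩
    refine IntermediateField.subset_adjoin _ _ ⟨some i, none, ?_⟩
    simp

/-- The boundary `H_0 + ... + H_n` of `ℙ^n`: a prime divisor of `ℙ^n` is one of the coordinate
hyperplanes if and only if it does not meet the torus `𝔾_m^n`, i.e. if and only if some
coordinate function `x_i` has a zero or a pole along it. -/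
def coordBoundary (n : ℕ) (P : (projSpace n).PrimeDiv) : ℚ :=
  open Classical in if ∃ i, ord P.dvr (ratX n i) ≠ 0 then 1 else 0

section Cluster

variable {K : Type} [Field K] [Algebra ℂ K] {ι : Type}

/-- The valuation ring of `ℂ(x_1, ..., x_n)` which corresponds to the valuation ring `v` of `K`
under the isomorphism `σ`. -/
def transport {n : ℕ} (σ : RatField n ≃ₐ[ℂ] K) (v : ValuationSubring K) :
    ValuationSubring (RatField n) := v.comap (σ : RatField n →+* K)

/-- The isomorphism `σ : ℂ(x_1, ..., x_n) ≃ K(X)` of function fields is crepant, as a birational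
map between the pairs `(ℙ^n, H_0 + ... + H_n)` and `(X, B)`: it identifies the discrepancies of
all divisorial valuations. -/
def IsCrepant {n : ℕ} (X : ProjVar K ι) (B : X.PrimeDiv → ℚ) (σ : RatField n ≃ₐ[ℂ] K) : Prop :=
  ∀ v : ValuationSubring K, IsDivisorial n v → ∀ a : ℚ,
    HasDiscrepancy n X B v a ↔ HasDiscrepancy n (projSpace n) (coordBoundary n) (transport σ v) a

/-- The log Calabi-Yau pair `(X, B)` of dimension `n` is of cluster type: there is a crepant
birational map `φ : (ℙ^n, H_0 + ... + H_n) ⇢ (X, B)`, given by an isomorphism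
`σ : ℂ(x_1, ..., x_n) ≃ K(X)` of function fields (the inverse of `φ^*`), such that `φ` contracts
no prime divisor `P` of `ℙ^n` meeting the torus. -/
def IsClusterType (n : ℕ) (X : ProjVar K ι) (B : X.PrimeDiv → ℚ) : Prop :=
  ∃ σ : RatField n ≃ₐ[ℂ] K, IsCrepant X B σ ∧
    ∀ P : (projSpace n).PrimeDiv, coordBoundary n P = 0 →
      ∃ Q : X.PrimeDiv, transport σ Q.dvr = P.dvr

end Cluster

end Pool.Agent.Helper94.LCY
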