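import Pool.Agent.Helper94.LCY.LongDefs

/-!
# Differentials of function fields and top forms
-/

noncomputable section

open KaehlerDifferential TensorProduct

namespace Pool.Agent.Helper94.LCY

/-- The differentials of a transcendence basis are a basis of the differentials. -/
theorem exists_basis_D {K : Type} [Field K] [Algebra ℂ K] {n : ℕ} {v : Fin n → K}
    (hv : IsTranscendenceBasis ℂ v) :
    ∃ b : Module.Basis (Fin n) K (Ω[K⁄ℂ]), ∀ i, b i = D ℂ K (v i) := by
  let S := MvPolynomial (Fin n) ℂ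
  have hinj : Function.Injective (MvPolynomial.aeval (R := ℂ) v) := hv.1
  let _ : Algebra S K := (MvPolynomial.aeval (R := ℂ) v).toRingHom.toAlgebra
  have hSK : ∀ s : S, algebraMap S K s = MvPolynomial.aeval v s := fun _ => rfl
  have : IsScalarTower ℂ S K := IsScalarTower.of_algebraMap_eq fun z => by
    rw [hSK]
    exact (MvPolynomial.aeval_C v z).symm
  have : FaithfulSMul S K := (faithfulSMul_iff_algebraMap_injective S K).2 hinj
  let L := FractionRing S
  let _ : Algebra L K := FractionRing.liftAlgebra S K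
  have : IsScalarTower S L K := FractionRing.isScalarTower_liftAlgebra S K
  have halg : Algebra.IsAlgebraic L K := by
    have h1 := hv.isAlgebraic
    refine ⟨fun x => ?_⟩
    have h2 : IsAlgebraic (Algebra.adjoin ℂ (Set.range v)) x := h1.isAlgebraic x
    have h3 : IsAlgebraic S x := by
      obtain ⟨P, hP, hPx⟩ := h2
      let e : S ≃ₐ[ℂ] Algebra.adjoin ℂ (Set.range v) := hv.1.aevalEquiv
      refine ⟨P.map (e.symm : Algebra.adjoin ℂ (Set.range v) →+* S), ?_, ?_⟩
      · rw [Ne, Polynomial.map_eq_zero_iff e.symm.injective]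
        exact hP
      · rw [Polynomial.aeval_def, Polynomial.eval₂_map, ← hPx, Polynomial.aeval_def]
        congr 1
        ext y
        change MvPolynomial.aeval v (e.symm y) = (y : K)
        have : ((e (e.symm y) : Algebra.adjoin ℂ (Set.range v)) : K) =
          MvPolynomial.aeval v (e.symm y) := rfl
        rw [← this, e.apply_symm_apply]
    exact IsAlgebraic.extendScalars (IsFractionRing.injective S L) h3
  have hsep : Algebra.IsSeparable L K := Algebra.IsAlgebraic.isSeparable_of_perfectField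
  have h1 : Algebra.FormallyEtale S L := Algebra.FormallyEtale.of_isLocalization (nonZeroDivisors S)
  have h2 : Algebra.FormallyEtale L K := Algebra.FormallyEtale.of_isSeparable L K
  have h3 : Algebra.FormallyEtale S K := Algebra.FormallyEtale.comp S L K
  let e := KaehlerDifferential.tensorKaehlerEquivOfFormallyEtale ℂ S K
  let b := ((KaehlerDifferential.mvPolynomialBasis ℂ (Fin n)).baseChange K).map e
  refine ⟨b, fun i => ?_⟩
  simp only [b, Module.Basis.map_apply, Module.Basis.baseChange_apply,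
    KaehlerDifferential.mvPolynomialBasis_apply]
  change KaehlerDifferential.tensorKaehlerEquivOfFormallyEtale ℂ S K _ = _
  rw [KaehlerDifferential.tensorKaehlerEquivOfFormallyEtale_apply,
    KaehlerDifferential.mapBaseChange_tmul, one_smul, KaehlerDifferential.map_D, hSK,
    MvPolynomial.aeval_X]

/-- Alternating maps and determinants. -/
theorem alt_det {R M N : Type} [CommRing R] [AddCommGroup M] [Module R M] [AddCommGroup N]
    [Module R N] {n : ℕ} (f : M [⋀^Fin n]→ₗ[R] N) (e : Fin n → M)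
    (C : Matrix (Fin n) (Fin n) R) :
    f (fun i => ∑ j, C i j • e j) = C.det • f e := by
  let T : (Fin n → R) →ₗ[R] M := Fintype.linearCombination R e
  let g : (Fin n → R) [⋀^Fin n]→ₗ[R] N := f.compLinearMap T
  let g' : (Fin n → R) [⋀^Fin n]→ₗ[R] N :=
    (LinearMap.toSpanSingleton R N (f e)).compAlternatingMap Matrix.detRowAlternating
  have hg : ∀ w, g w = f (fun i => ∑ j, w i j • e j) := fun w => rfl
  have hg' : ∀ w, g' w = (Matrix.of w).det • f e := fun w => rfl
  have h : g = g' := by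
    refine (Pi.basisFun R (Fin n)).ext_alternating fun v hv => ?_
    let σ : Equiv.Perm (Fin n) := Equiv.ofBijective v (Finite.injective_iff_bijective.1 hv)
    have h1 : (fun i => (Pi.basisFun R (Fin n)) (v i)) =
        (fun i => (Pi.basisFun R (Fin n)) i) ∘ σ := rfl
    rw [h1, g.map_perm, g'.map_perm, hg, hg']
    congr 1
    have h2 : (Matrix.of fun i => (Pi.basisFun R (Fin n)) i) = 1 := by
      ext i j
      simp [Matrix.one_apply, Pi.single_apply, eq_comm]
    rw [h2, Matrix.det_one, one_smul]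
    congr 1
    funext i
    simp [Pi.single_apply]
  have h2 := congrArg (fun k : (Fin n → R) [⋀^Fin n]→ₗ[R] N => k C) h
  exact h2

section Forms

variable {K : Type} [Field K] [Algebra ℂ K]

omit [Algebra ℂ K] in
theorem ιMulti_basis_ne_zero {M : Type} [AddCommGroup M] [Module K M] {n : ℕ}
    (b : Module.Basis (Fin n) K M) : exteriorPower.ιMulti K n b ≠ 0 := by
  intro h0
  have h1 := exteriorPower.alternatingMapLinearEquiv_apply_ιMulti b.det b
  rw [h0, map_zero, b.det_self] at h1
  exact zero_ne_one h1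

omit [Algebra ℂ K] in
/-- The exterior product in terms of the determinant of coordinates. -/
theorem ιMulti_eq_det_smul {M : Type} [AddCommGroup M] [Module K M] {n : ℕ}
    (b : Module.Basis (Fin n) K M) (w : Fin n → M) :
    exteriorPower.ιMulti K n w =
      (Matrix.of fun i j => b.repr (w i) j).det • exteriorPower.ιMulti K n b := by
  rw [← alt_det]
  congr 1
  funext i
  exact (b.sum_repr (w i)).symm

omit [Algebra ℂ K] in
theorem exists_eq_smul {M : Type} [AddCommGroup M] [Module K M] {n : ℕ}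
    (b : Module.Basis (Fin n) K M) (θ : ⋀[K]^n M) :
    ∃ a : K, θ = a • exteriorPower.ιMulti K n b := by
  have h1 : θ ∈ Submodule.span K (Set.range (exteriorPower.ιMulti K n (M := M))) := by
    rw [exteriorPower.ιMulti_span]
    trivial
  induction h1 using Submodule.span_induction with
  | mem θ hθ =>
    obtain ⟨w, rfl⟩ := hθ
    exact ⟨_, ιMulti_eq_det_smul b w⟩
  | zero => exact ⟨0, by rw [zero_smul]⟩
  | add x y _ _ hx hy =>
    obtain ⟨a, rfl⟩ := hx
    obtain ⟨a', rfl⟩ := hy
    exact ⟨a + a', by rw [add_smul]⟩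
  | smul r x _ hx =>
    obtain ⟨a, rfl⟩ := hx
    exact ⟨r * a, by rw [mul_smul]⟩

theorem neg_smul' {n : ℕ} (a : K) (η : ⋀[K]^n Ω[K⁄ℂ]) : (-a) • η = -(a • η) := by
  apply Subtype.ext
  simp

theorem smul_neg' {n : ℕ} (a : K) (η : ⋀[K]^n Ω[K⁄ℂ]) : a • (-η) = -(a • η) := by
  apply Subtype.ext
  simp

theorem smul_mem_regForms {n : ℕ} {v : ValuationSubring K} {a : K} (ha : a ∈ v)
    {ξ : ⋀[K]^n Ω[K⁄ℂ]} (hξ : ξ ∈ regForms n v) : a • ξ ∈ regForms n v := by
  unfold regForms at hξ ⊢
  induction hξ using AddSubgroup.closure_induction with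
  | mem ξ hξ =>
    obtain ⟨a', g, ha', hg, rfl⟩ := hξ
    exact AddSubgroup.subset_closure ⟨a * a', g, v.mul_mem _ _ ha ha', hg, by rw [mul_smul]⟩
  | zero => rw [smul_zero]; exact zero_mem _
  | add x y _ _ hx hy => rw [smul_add]; exact add_mem hx hy
  | neg x _ hx => rw [smul_neg]; exact neg_mem hx

omit [Algebra ℂ K] in
theorem det_mem {n : ℕ} {v : ValuationSubring K} {C : Matrix (Fin n) (Fin n) K}
    (hC : ∀ i j, C i j ∈ v) : C.det ∈ v := by
  rw [Matrix.det_apply]
  refine sum_mem fun σ _ => ?_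
  refine zsmul_mem ?_ _
  exact prod_mem fun i _ => hC _ _

/-- The regular forms when the differentials of `v` have coordinates in `v`. -/
theorem regForms_iff {n : ℕ} {v : ValuationSubring K} (b : Module.Basis (Fin n) K (Ω[K⁄ℂ]))
    (h1 : ∀ x ∈ v, ∀ i, b.repr (D ℂ K x) i ∈ v) (h2 : exteriorPower.ιMulti K n b ∈ regForms n v)
    (ξ : ⋀[K]^n Ω[K⁄ℂ]) :
    ξ ∈ regForms n v ↔ ∃ a ∈ v, ξ = a • exteriorPower.ιMulti K n b := by
  constructor
  · intro hξ
    unfold regForms at hξ
    induction hξ using AddSubgroup.closure_induction with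
    | mem ξ hξ =>
      obtain ⟨a, g, ha, hg, rfl⟩ := hξ
      rw [ιMulti_eq_det_smul b, ← mul_smul]
      exact ⟨_, v.mul_mem _ _ ha (det_mem fun i j => h1 (g i) (hg i) j), rfl⟩
    | zero => exact ⟨0, v.zero_mem, by rw [zero_smul]⟩
    | add x y _ _ hx hy =>
      obtain ⟨a, ha, rfl⟩ := hx
      obtain ⟨a', ha', rfl⟩ := hy
      exact ⟨a + a', v.add_mem _ _ ha ha', by rw [add_smul]⟩
    | neg x _ hx =>
      obtain ⟨a, ha, rfl⟩ := hx
      exact ⟨-a, v.neg_mem _ ha, (neg_smul _ _).symm⟩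
  · rintro ⟨a, ha, rfl⟩
    exact smul_mem_regForms ha h2

theorem HasOrdForm.neg {n : ℕ} {v : ValuationSubring K} {θ : ⋀[K]^n Ω[K⁄ℂ]} {k : ℤ}
    (h : HasOrdForm n v θ k) : HasOrdForm n v (-θ) k := by
  obtain ⟨t, η, ht, hη, h1, rfl⟩ := h
  refine ⟨t, -η, ht, neg_ne_zero.2 hη, fun ξ => ?_, by rw [smul_neg]⟩
  rw [h1]
  constructor
  · rintro ⟨a, ha, rfl⟩
    refine ⟨-a, v.neg_mem _ ha, ?_⟩
    rw [smul_neg', neg_smul', neg_neg]
  · rintro ⟨a, ha, rfl⟩
    exact ⟨-a, v.neg_mem _ ha, (smul_neg' _ _).trans (neg_smul' _ _).symm⟩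

/-- The order of a multiple of a generator. -/
theorem hasOrdForm_smul {n : ℕ} {v : ValuationSubring K} [IsDiscreteValuationRing v]
    {η : ⋀[K]^n Ω[K⁄ℂ]} (hη : η ≠ 0) (h1 : ∀ ξ, ξ ∈ regForms n v ↔ ∃ a ∈ v, ξ = a • η)
    {f : K} (hf : f ≠ 0) : HasOrdForm n v (f • η) (ord v f) := by
  obtain ⟨t, ht⟩ := exists_irr v
  have ht0 := irr_ne_zero ht
  have h2 := val_eq_zpow_ord ht hf
  set k := ord v f with hk
  have hu : v.valuation (f / (t : K) ^ k) = 1 := by
    rw [map_div₀, map_zpow₀, h2, div_self]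
    exact zpow_ne_zero _ ((Valuation.ne_zero_iff _).2 ht0)
  set u := f / (t : K) ^ k with hu'
  have hu0 : u ≠ 0 := div_ne_zero hf (zpow_ne_zero _ ht0)
  have huv : u ∈ v := (v.valuation_le_one_iff _).1 hu.le
  have huv' : u⁻¹ ∈ v := by
    rw [← v.valuation_le_one_iff, map_inv₀, hu, inv_one]
  refine ⟨t, u • η, ht, smul_ne_zero hu0 hη, fun ξ => ?_, ?_⟩
  · rw [h1]
    constructor
    · rintro ⟨a, ha, rfl⟩
      refine ⟨a * u⁻¹, v.mul_mem _ _ ha huv', ?_⟩
      rw [smul_smul, mul_assoc, inv_mul_cancel₀ hu0, mul_one]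
    · rintro ⟨a, ha, rfl⟩
      exact ⟨a * u, v.mul_mem _ _ ha huv, by rw [smul_smul]⟩
  · rw [smul_smul]
    congr 1
    rw [hu', mul_div_cancel₀]
    exact zpow_ne_zero _ ht0

end Forms

end Pool.Agent.Helper94.LCY
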