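import Pool.Agent.Helper94.LCY.Defs

/-!
# Valuation rings which are localizations of a subring
-/

noncomputable section

namespace Pool.Agent.Helper94.LCY

variable {K : Type} [Field K]

/-- The valuation ring `v` is a localization of the subring `A` (at the prime `A ∩ 𝔪_v`). -/
def IsLocOf (A : Subring K) (v : ValuationSubring K) : Prop :=
  A ≤ v.toSubring ∧ ∀ f ∈ v, ∃ g ∈ A, ∃ h ∈ A, v.valuation h = 1 ∧ f = g / h

/-- Elements of the localization of a subring at a prime. -/
theorem mem_ofPrime (A : Subring K) (P : Ideal A) [P.IsPrime] (f : K) :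
    f ∈ (LocalSubring.ofPrime A P).toSubring ↔
      ∃ g h : A, h ∉ P ∧ f = (g : K) / (h : K) := by
  constructor
  · intro hf
    obtain ⟨g, h, e⟩ := IsLocalization.exists_mk'_eq P.primeCompl
      (⟨f, hf⟩ : (LocalSubring.ofPrime A P).toSubring)
    refine ⟨g, h, h.2, ?_⟩
    have h1 := IsLocalization.mk'_spec (LocalSubring.ofPrime A P).toSubring g h
    rw [e] at h1
    have h2 : f * (h : K) = (g : K) := congrArg Subtype.val h1
    have h3 : (h : K) ≠ 0 := by
      intro h0
      apply h.2
      have : (h : A) = 0 := Subtype.ext h0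
      change (h : A) ∈ P
      rw [this]
      exact P.zero_mem
    rw [eq_div_iff h3, h2]
  · rintro ⟨g, h, hh, rfl⟩
    have h3 : (h : K) ≠ 0 := by
      intro h0
      apply hh
      have : h = 0 := Subtype.ext h0
      rw [this]
      exact P.zero_mem
    have h1 := IsLocalization.mk'_spec (LocalSubring.ofPrime A P).toSubring g
      (⟨h, hh⟩ : P.primeCompl)
    have h2 := congrArg Subtype.val h1
    have h4 : (IsLocalization.mk' (LocalSubring.ofPrime A P).toSubring g
      (⟨h, hh⟩ : P.primeCompl) : K) = (g : K) / (h : K) := by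
      rw [eq_div_iff h3]
      exact h2
    rw [← h4]
    exact Subtype.property _

theorem le_ofPrime' (A : Subring K) (P : Ideal A) [P.IsPrime] :
    A ≤ (LocalSubring.ofPrime A P).toSubring := LocalSubring.le_ofPrime A P

/-- Domination: the prime of a local ring of `A` dominated by a valuation ring `v`. -/
theorem ofPrime_le_iff (A : Subring K) (P : Ideal A) [P.IsPrime] (v : ValuationSubring K) :
    LocalSubring.ofPrime A P ≤ v.toLocalSubring ↔
      A ≤ v.toSubring ∧ ∀ x : A, x ∈ P ↔ v.valuation (x : K) < 1 := by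
  constructor
  · rintro ⟨hle, hloc⟩
    have hA : A ≤ v.toSubring := (le_ofPrime' A P).trans hle
    refine ⟨hA, fun x => ?_⟩
    constructor
    · intro hx
      by_contra hlt
      have h1 : v.valuation (x : K) ≤ 1 := (v.valuation_le_one_iff _).2 (hA x.2)
      have h2 : v.valuation (x : K) = 1 := le_antisymm h1 (not_lt.1 hlt)
      have h3 : IsUnit (⟨x, hA x.2⟩ : v) := (v.valuation_eq_one_iff _).2 h2
      have h4 : IsUnit ((Subring.inclusion hle) ⟨(x : K), le_ofPrime' A P x.2⟩) := h3
      have h5 := hloc.map_nonunit _ h4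
      have h6 : IsUnit (algebraMap A (LocalSubring.ofPrime A P).toSubring x) := h5
      rw [IsLocalization.AtPrime.isUnit_to_map_iff _ P x] at h6
      exact h6 hx
    · intro hx
      by_contra hxP
      have h6 := (IsLocalization.AtPrime.isUnit_to_map_iff
        (LocalSubring.ofPrime A P).toSubring P x).2 hxP
      have h4 : IsUnit ((Subring.inclusion hle)
        (algebraMap A (LocalSubring.ofPrime A P).toSubring x)) := h6.map _
      have h3 : IsUnit (⟨x, hA x.2⟩ : v) := h4
      have h2 := (v.valuation_eq_one_iff _).1 h3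
      exact hx.ne h2
  · rintro ⟨hA, hP⟩
    have hle : (LocalSubring.ofPrime A P).toSubring ≤ v.toLocalSubring.toSubring := by
      intro f hf
      obtain ⟨g, h, hh, rfl⟩ := (mem_ofPrime A P f).1 hf
      have h1 : v.valuation (h : K) = 1 := by
        rw [hP] at hh
        exact le_antisymm ((v.valuation_le_one_iff _).2 (hA h.2)) (not_lt.1 hh)
      change (g : K) / h ∈ v
      rw [← v.valuation_le_one_iff, map_div₀, h1, div_one]
      exact (v.valuation_le_one_iff _).2 (hA g.2)
    refine ⟨hle, ⟨?_⟩⟩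
    rintro ⟨f, hf⟩ hu
    obtain ⟨g, h, hh, rfl⟩ := (mem_ofPrime A P f).1 hf
    have h1 : v.valuation (h : K) = 1 := by
      rw [hP] at hh
      exact le_antisymm ((v.valuation_le_one_iff _).2 (hA h.2)) (not_lt.1 hh)
    have h2 : v.valuation ((g : K) / h) = 1 := (v.valuation_eq_one_iff ⟨_, hle hf⟩).1 hu
    rw [map_div₀, h1, div_one] at h2
    have hg : g ∉ P := by
      rw [hP, h2]
      exact lt_irrefl _
    have hg0 : (g : K) ≠ 0 := by
      intro h0
      rw [h0, map_zero] at h2
      exact zero_ne_one h2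
    have hh0 : (h : K) ≠ 0 := by
      intro h0
      rw [h0, map_zero] at h1
      exact zero_ne_one h1
    have hinv : ((h : K) / g) ∈ (LocalSubring.ofPrime A P).toSubring :=
      (mem_ofPrime A P _).2 ⟨h, g, hg, rfl⟩
    refine IsUnit.of_mul_eq_one ⟨_, hinv⟩ ?_
    apply Subtype.ext
    change (g : K) / h * (h / g) = 1
    field_simp

theorem IsLocOf.toLocalSubring_eq {A : Subring K} {v : ValuationSubring K} (h : IsLocOf A v) :
    ∃ (P : Ideal A) (_ : P.IsPrime), v.toLocalSubring = LocalSubring.ofPrime A P := by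
  let P : Ideal A := (IsLocalRing.maximalIdeal v).comap (Subring.inclusion h.1)
  have hP : P.IsPrime := Ideal.comap_isPrime _ _
  have hmem : ∀ x : A, x ∈ P ↔ v.valuation (x : K) < 1 := fun x =>
    v.valuation_lt_one_iff ⟨x, h.1 x.2⟩
  refine ⟨P, hP, ?_⟩
  apply le_antisymm
  · refine ⟨?_, ?_⟩
    · intro f hf
      obtain ⟨g, hg, k, hk, hk1, rfl⟩ := h.2 f hf
      exact (mem_ofPrime A P _).2 ⟨⟨g, hg⟩, ⟨k, hk⟩, by rw [hmem]; exact hk1.not_lt, rfl⟩
    · constructor
      rintro ⟨f, hf⟩ hu
      have hle := ((ofPrime_le_iff A P v).2 ⟨h.1, hmem⟩)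
      have := hu.map (Subring.inclusion hle.1)
      exact this
  · exact (ofPrime_le_iff A P v).2 ⟨h.1, hmem⟩

theorem isLocOf_of_eq {A : Subring K} {v : ValuationSubring K} (P : Ideal A) [P.IsPrime]
    (h : v.toLocalSubring = LocalSubring.ofPrime A P) : IsLocOf A v := by
  have hle : LocalSubring.ofPrime A P ≤ v.toLocalSubring := h.symm.le
  obtain ⟨h1, h2⟩ := (ofPrime_le_iff A P v).1 hle
  refine ⟨h1, fun f hf => ?_⟩
  have hf' : f ∈ (LocalSubring.ofPrime A P).toSubring := by
    rw [← h]
    exact hf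
  obtain ⟨g, k, hk, rfl⟩ := (mem_ofPrime A P f).1 hf'
  refine ⟨g, g.2, k, k.2, ?_, rfl⟩
  rw [h2] at hk
  exact le_antisymm ((v.valuation_le_one_iff _).2 (h1 k.2)) (not_lt.1 hk)

theorem isPoint_iff [Algebra ℂ K] {ι : Type} (X : ProjVar K ι) (v : ValuationSubring K) :
    X.IsPoint v.toLocalSubring ↔ ∃ j, X.x j ≠ 0 ∧ IsLocOf (X.chart j).toSubring v := by
  constructor
  · rintro ⟨j, hj, P, hP, h⟩
    exact ⟨j, hj, isLocOf_of_eq P h⟩
  · rintro ⟨j, hj, h⟩
    obtain ⟨P, hP, h'⟩ := h.toLocalSubring_eq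
    exact ⟨j, hj, P, hP, h'⟩

theorem dvr_ne_top (v : ValuationSubring K) [IsDiscreteValuationRing v] : v ≠ ⊤ := by
  rintro rfl
  exact IsDiscreteValuationRing.not_isField (⊤ : ValuationSubring K) (Field.toIsField _)

theorem dvr_eq_of_le {v v' : ValuationSubring K} [IsDiscreteValuationRing v]
    [IsDiscreteValuationRing v'] (h : v ≤ v') : v = v' :=
  ValuationSubring.eq_of_le_of_ne_top _ h (dvr_ne_top v')

/-- Two discrete valuation rings containing `A`, one of them a localization of `A` at its
centre, the centre of the other being contained in that centre, are equal. -/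
theorem IsLocOf.eq_of_centre {A : Subring K} {v v' : ValuationSubring K}
    [IsDiscreteValuationRing v] [IsDiscreteValuationRing v'] (h : IsLocOf A v)
    (hA : A ≤ v'.toSubring) (hc : ∀ x ∈ A, v'.valuation x < 1 → v.valuation x < 1) : v = v' := by
  apply dvr_eq_of_le
  intro f hf
  obtain ⟨g, hg, k, hk, hk1, rfl⟩ := h.2 f hf
  have h1 : v'.valuation k = 1 := by
    refine le_antisymm ((v'.valuation_le_one_iff _).2 (hA hk)) (not_lt.1 fun hlt => ?_)
    exact (hc k hk hlt).ne hk1
  rw [← v'.valuation_le_one_iff, map_div₀, h1, div_one]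
  exact (v'.valuation_le_one_iff _).2 (hA hg)

/-- A nonzero prime of `A` contained in the centre of a discrete valuation ring which is a
localization of `A` is equal to that centre. -/
theorem IsLocOf.mem_prime {A : Subring K} {v : ValuationSubring K}
    [IsDiscreteValuationRing v] (h : IsLocOf A v) (P : Ideal A) [P.IsPrime] (h0 : P ≠ ⊥)
    (hP : ∀ x ∈ P, v.valuation (x : K) < 1) (x : A) (hx : v.valuation (x : K) < 1) : x ∈ P := by
  by_cases hx0 : (x : K) = 0
  · have : x = 0 := Subtype.ext hx0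
    rw [this]
    exact P.zero_mem
  obtain ⟨y, hy, hy0⟩ := Submodule.exists_mem_ne_zero_of_ne_bot h0
  have hy0' : (y : K) ≠ 0 := fun h => hy0 (Subtype.ext h)
  have hk : 0 < ord v (x : K) := (ord_pos_iff hx0).2 hx
  set N := (ord v (y : K)).toNat with hN
  have hmem : (x : K) ^ N / y ∈ v := by
    rw [← ord_nonneg_iff (div_ne_zero (pow_ne_zero _ hx0) hy0'),
      ord_div (pow_ne_zero _ hx0) hy0', ord_pow hx0]
    have : ord v (y : K) ≤ N := Int.self_le_toNat _
    nlinarith
  obtain ⟨g, hg, k, hk', hk1, e⟩ := h.2 _ hmem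
  have hk0 : k ≠ 0 := by
    rintro rfl
    rw [map_zero] at hk1
    exact zero_ne_one hk1
  rw [div_eq_div_iff hy0' hk0] at e
  have e' : x ^ N * ⟨k, hk'⟩ = ⟨g, hg⟩ * y := Subtype.ext e
  have h1 : x ^ N * ⟨k, hk'⟩ ∈ P := by
    rw [e']
    exact P.mul_mem_left _ hy
  rcases (inferInstance : P.IsPrime).mem_or_mem h1 with h2 | h2
  · exact (inferInstance : P.IsPrime).mem_of_pow_mem _ h2
  · exact absurd (hP _ h2) (by simp [hk1])

/-- A nonzero function has order `≠ 0` along only finitely many discrete valuation rings which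
are localizations of a noetherian ring `A` with fraction field `K`. -/
theorem finite_ord_ne_zero (A : Subring K) [IsNoetherianRing A]
    (hfrac : ∀ f : K, ∃ g ∈ A, ∃ h ∈ A, h ≠ 0 ∧ f = g / h) {f : K} (hf : f ≠ 0) :
    {v : ValuationSubring K | IsDiscreteValuationRing v ∧ IsLocOf A v ∧ ord v f ≠ 0}.Finite := by
  -- the case of an element of `A`
  have key : ∀ a : A, a ≠ 0 → {v : ValuationSubring K | IsDiscreteValuationRing v ∧
      IsLocOf A v ∧ ord v (a : K) ≠ 0}.Finite := by
    intro a ha
    have ha' : (a : K) ≠ 0 := fun h => ha (Subtype.ext h)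
    have hfin : (Ideal.span {a}).minimalPrimes.Finite :=
      Ideal.finite_minimalPrimes_of_isNoetherianRing A _
    -- the map from valuation rings to ideals
    let φ : ValuationSubring K → Set A := fun v => {x : A | v.valuation (x : K) < 1}
    refine Set.Finite.of_finite_image (f := φ) ?_ ?_
    · refine (hfin.image (fun I : Ideal A => (I : Set A))).subset ?_
      rintro _ ⟨v, ⟨hv1, hv2, hv3⟩, rfl⟩
      let P : Ideal A := (IsLocalRing.maximalIdeal v).comap (Subring.inclusion hv2.1)
      have hP : P.IsPrime := Ideal.comap_isPrime _ _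
      have hmem : ∀ x : A, x ∈ P ↔ v.valuation (x : K) < 1 := fun x =>
        v.valuation_lt_one_iff ⟨x, hv2.1 x.2⟩
      refine ⟨P, ?_, ?_⟩
      · have hpos : v.valuation (a : K) < 1 := by
          rw [← ord_pos_iff ha']
          have : 0 ≤ ord v (a : K) := (ord_nonneg_iff ha').2 (hv2.1 a.2)
          omega
        refine ⟨⟨hP, ?_⟩, ?_⟩
        · rw [Ideal.span_singleton_le_iff_mem, hmem]
          exact hpos
        · rintro Q ⟨hQ, hQa⟩ hQP x hx
          rw [Ideal.span_singleton_le_iff_mem] at hQa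
          refine hv2.mem_prime Q ?_ (fun z hz => (hmem z).1 (hQP hz)) x ((hmem x).1 hx)
          rintro rfl
          exact ha (by simpa using hQa)
      · ext x
        exact hmem x
    · rintro v ⟨hv1, hv2, -⟩ w ⟨hw1, hw2, -⟩ hvw
      refine hv2.eq_of_centre hw2.1 fun x hx hxw => ?_
      have : (⟨x, hx⟩ : A) ∈ φ w := hxw
      rw [← hvw] at this
      exact this
  obtain ⟨g, hg, h, hh, hh0, rfl⟩ := hfrac f
  have hg0 : g ≠ 0 := by
    rintro rfl
    simp at hf
  refine ((key ⟨g, hg⟩ (fun h => hg0 (congrArg Subtype.val h))).union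
    (key ⟨h, hh⟩ (fun h' => hh0 (congrArg Subtype.val h')))).subset ?_
  rintro v ⟨hv1, hv2, hv3⟩
  by_cases h1 : ord v g = 0
  · right
    refine ⟨hv1, hv2, fun h2 => hv3 ?_⟩
    rw [ord_div hg0 hh0, h1]
    change ord v h = 0 at h2
    rw [h2, sub_zero]
  · left
    exact ⟨hv1, hv2, h1⟩

end Pool.Agent.Helper94.LCY
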