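import Pool.Agent.Helper94.LCY.Coord
import Pool.Agent.Helper94.LCY.Loc
import Pool.Agent.Helper94.LCY.Kaehler

/-!
# The canonical form `da/b^2 ∧ dp/p ∧ dq/q`
-/

noncomputable section

open KaehlerDifferential

namespace Pool.Agent.Helper94.LCY

variable {K : Type} [Field K] [Algebra ℂ K]

omit [Algebra ℂ K] in
theorem ιMulti_det3 {M : Type} [AddCommGroup M] [Module K M] (e w : Fin 3 → M)
    (C : Matrix (Fin 3) (Fin 3) K) (h : ∀ i, w i = ∑ j, C i j • e j) :
    exteriorPower.ιMulti K 3 w = C.det • exteriorPower.ιMulti K 3 e := by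
  rw [← alt_det]
  congr 1
  funext i
  exact h i

namespace Coord

variable (c : Coord K)

theorem isTranscendenceBasis : IsTranscendenceBasis ℂ ![c.a, c.p, c.q] := by
  refine c.indep.isTranscendenceBasis_of_trdeg_le ?_ ?_
  · rw [c.tr]
    exact Cardinal.natCast_lt_aleph0 (n := 3)
  · rw [c.tr]
    simp

theorem exists_basis : ∃ b : Module.Basis (Fin 3) K (Ω[K⁄ℂ]),
    (b : Fin 3 → Ω[K⁄ℂ]) = ![KaehlerDifferential.D ℂ K c.a, KaehlerDifferential.D ℂ K c.p,
      KaehlerDifferential.D ℂ K c.q] := by
  obtain ⟨b, hb⟩ := exists_basis_D c.isTranscendenceBasis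
  refine ⟨b, ?_⟩
  funext i
  rw [hb]
  fin_cases i <;> rfl

/-- The relation `a^2 da + b^2 db = 0`. -/
theorem D_b : KaehlerDifferential.D ℂ K c.b = (-(c.a ^ 2 / c.b ^ 2)) •
    KaehlerDifferential.D ℂ K c.a := by
  have h1 : KaehlerDifferential.D ℂ K (1 + c.a ^ 3 + c.b ^ 3) = 0 := by
    rw [c.rel, map_zero]
  have hb := c.b_ne
  have hchar : CharZero K := charZero_of_injective_algebraMap (algebraMap ℂ K).injective
  rw [map_add, map_add, Derivation.map_one_eq_zero, zero_add, Derivation.leibniz_pow,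
    Derivation.leibniz_pow] at h1
  have h2 : (3 * c.a ^ 2) • KaehlerDifferential.D ℂ K c.a +
      (3 * c.b ^ 2) • KaehlerDifferential.D ℂ K c.b = 0 := by
    rw [← h1]
    module
  have h3 : (3 * c.b ^ 2) • KaehlerDifferential.D ℂ K c.b =
      (-(3 * c.a ^ 2)) • KaehlerDifferential.D ℂ K c.a := by
    rw [neg_smul, eq_neg_iff_add_eq_zero, add_comm, h2]
  have h4 : (3 * c.b ^ 2) ≠ 0 := mul_ne_zero three_ne_zero (pow_ne_zero _ hb)
  have h5 : KaehlerDifferential.D ℂ K c.b =
      (3 * c.b ^ 2)⁻¹ • ((3 * c.b ^ 2) • KaehlerDifferential.D ℂ K c.b) := by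
    rw [smul_smul, inv_mul_cancel₀ h4, one_smul]
  rw [h5, h3, smul_smul]
  congr 1
  field_simp

theorem D_inv {x : K} (hx : x ≠ 0) : KaehlerDifferential.D ℂ K (1 / x) =
    (-(1 / x ^ 2)) • KaehlerDifferential.D ℂ K x := by
  rw [one_div, Derivation.leibniz_inv]
  congr 1
  field_simp

theorem D_div (x : K) {y : K} (hy : y ≠ 0) : KaehlerDifferential.D ℂ K (x / y) =
    (1 / y) • KaehlerDifferential.D ℂ K x + (-(x / y ^ 2)) • KaehlerDifferential.D ℂ K y := by
  rw [Derivation.leibniz_div, smul_sub, smul_smul, smul_smul, sub_eq_add_neg, ← neg_smul]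
  congr 2
  · field_simp
  · field_simp

/-- The generator `da/b^2 ∧ dp ∧ dq` of the canonical sheaf of `E° x 𝔸^2`. -/
def eta : ⋀[K]^3 Ω[K⁄ℂ] :=
  (1 / c.b ^ 2) • exteriorPower.ιMulti K 3 ![KaehlerDifferential.D ℂ K c.a, KaehlerDifferential.D ℂ K c.p,
    KaehlerDifferential.D ℂ K c.q]

/-- The form `ω = da/b^2 ∧ dp/p ∧ dq/q`. -/
def form : ⋀[K]^3 Ω[K⁄ℂ] := (1 / (c.p * c.q)) • c.eta

/-- The form `da ∧ dp ∧ dq`. -/
def base : ⋀[K]^3 Ω[K⁄ℂ] := exteriorPower.ιMulti K 3 ![KaehlerDifferential.D ℂ K c.a,
  KaehlerDifferential.D ℂ K c.p, KaehlerDifferential.D ℂ K c.q]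

theorem eta_eq : c.eta = (1 / c.b ^ 2) • c.base := rfl

theorem base_ne_zero : c.base ≠ 0 := by
  obtain ⟨b, hb⟩ := c.exists_basis
  rw [base, ← hb]
  exact ιMulti_basis_ne_zero b

theorem eta_ne_zero : c.eta ≠ 0 := by
  rw [eta_eq]
  exact smul_ne_zero (one_div_ne_zero (pow_ne_zero _ c.b_ne)) c.base_ne_zero

theorem form_ne_zero : c.form ≠ 0 := by
  rw [form]
  exact smul_ne_zero (one_div_ne_zero (mul_ne_zero c.p_ne c.q_ne)) c.eta_ne_zero

theorem form_eq : c.form = (1 / (c.p * c.q) * (1 / c.b ^ 2)) • c.base := by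
  rw [form, eta_eq, smul_smul]

theorem base_inv : c.inv.base = (-(1 / c.a ^ 3)) • c.base := by
  have ha := c.a_ne
  have h : c.inv.base = (Matrix.det !![-(1 / c.a ^ 2), 0, 0; 0, 1, 0; -(c.q / c.a ^ 2), 0, 1 / c.a]) •
      c.base := by
    refine ιMulti_det3 _ _ _ fun i => ?_
    rw [Fin.sum_univ_three]
    fin_cases i
    · change KaehlerDifferential.D ℂ K (1 / c.a) = _
      rw [D_inv ha]
      simp
    · change KaehlerDifferential.D ℂ K c.p = _
      simp
    · change KaehlerDifferential.D ℂ K (c.q / c.a) = _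
      rw [D_div _ ha]
      simp
      rw [add_comm]
  rw [h, Matrix.det_fin_three]
  congr 1
  simp
  field_simp

theorem base_pinv : c.pinv.base = (-(1 / c.p ^ 3)) • c.base := by
  have hp := c.p_ne
  have h : c.pinv.base = (Matrix.det !![1, 0, 0; 0, -(1 / c.p ^ 2), 0; 0, -(c.q / c.p ^ 2), 1 / c.p]) •
      c.base := by
    refine ιMulti_det3 _ _ _ fun i => ?_
    rw [Fin.sum_univ_three]
    fin_cases i
    · change KaehlerDifferential.D ℂ K c.a = _
      simp
    · change KaehlerDifferential.D ℂ K (1 / c.p) = _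
      rw [D_inv hp]
      simp
    · change KaehlerDifferential.D ℂ K (c.q / c.p) = _
      rw [D_div _ hp]
      simp
      rw [add_comm]
  rw [h, Matrix.det_fin_three]
  congr 1
  simp
  field_simp

theorem base_swap : c.swap.base = (-(c.a ^ 2 / c.b ^ 2)) • c.base := by
  have h : c.swap.base = (Matrix.det !![-(c.a ^ 2 / c.b ^ 2), 0, 0; 0, 1, 0; 0, 0, 1]) •
      c.base := by
    refine ιMulti_det3 _ _ _ fun i => ?_
    rw [Fin.sum_univ_three]
    fin_cases i
    · change KaehlerDifferential.D ℂ K c.b = _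
      rw [c.D_b]
      simp
    · change KaehlerDifferential.D ℂ K c.p = _
      simp
    · change KaehlerDifferential.D ℂ K c.q = _
      simp
  rw [h, Matrix.det_fin_three]
  congr 1
  simp

theorem form_inv : c.inv.form = - c.form := by
  have ha := c.a_ne
  have hb := c.b_ne
  have hp := c.p_ne
  have hq := c.q_ne
  rw [form_eq, form_eq, base_inv, smul_smul, ← neg_smul']
  congr 1
  change 1 / (c.p * (c.q / c.a)) * (1 / (c.b / c.a) ^ 2) * _ = _
  field_simp

theorem form_swap : c.swap.form = - c.form := by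
  have ha := c.a_ne
  have hb := c.b_ne
  have hp := c.p_ne
  have hq := c.q_ne
  rw [form_eq, form_eq, base_swap, smul_smul, ← neg_smul']
  congr 1
  change 1 / (c.p * c.q) * (1 / c.a ^ 2) * _ = _
  field_simp

theorem form_pinv : c.pinv.form = - c.form := by
  have ha := c.a_ne
  have hb := c.b_ne
  have hp := c.p_ne
  have hq := c.q_ne
  rw [form_eq, form_eq, base_pinv, smul_smul, ← neg_smul']
  congr 1
  change 1 / (1 / c.p * (c.q / c.p)) * (1 / c.b ^ 2) * _ = _
  field_simp

theorem form_ch (e : Fin 3) (j : Fin 2) : (c.ch e j).form = c.form ∨ (c.ch e j).form = - c.form := by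
  have h1 : (c.eCoord e).form = c.form ∨ (c.eCoord e).form = - c.form := by
    fin_cases e
    · left; rfl
    · right; exact c.form_inv
    · left
      change c.swap.inv.form = c.form
      rw [form_inv, form_swap, neg_neg]
  fin_cases j
  · exact h1
  · change (c.eCoord e).pinv.form = c.form ∨ (c.eCoord e).pinv.form = - c.form
    rw [form_pinv]
    rcases h1 with h | h
    · right; rw [h]
    · left; rw [h, neg_neg]

/-- The regular forms along a localization of `ℂ[a, b, p, q]` are the multiples of `eta`. -/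
theorem mem_regForms_iff {v : ValuationSubring K} (hv : IsLocOf c.A.toSubring v)
    (ξ : ⋀[K]^3 Ω[K⁄ℂ]) : ξ ∈ regForms 3 v ↔ ∃ a ∈ v, ξ = a • c.eta := by
  have hb0 := c.b_ne
  have ha0 := c.a_ne
  have hav : c.a ∈ v := hv.1 (Algebra.subset_adjoin (by simp))
  have hbv : c.b ∈ v := hv.1 (Algebra.subset_adjoin (by simp))
  have hpv : c.p ∈ v := hv.1 (Algebra.subset_adjoin (by simp))
  have hqv : c.q ∈ v := hv.1 (Algebra.subset_adjoin (by simp))
  obtain ⟨b, hb⟩ := c.exists_basis
  have hw : ∀ i, IsUnit ((![1 / c.b ^ 2, 1, 1] : Fin 3 → K) i) := by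
    intro i
    rw [isUnit_iff_ne_zero]
    fin_cases i
    · exact one_div_ne_zero (pow_ne_zero _ hb0)
    · exact one_ne_zero
    · exact one_ne_zero
  set b' := b.isUnitSMul hw with hb'
  have hb0' : b' 0 = (1 / c.b ^ 2) • KaehlerDifferential.D ℂ K c.a := by
    rw [hb', Module.Basis.isUnitSMul_apply, hb]
    rfl
  have hb1' : b' 1 = KaehlerDifferential.D ℂ K c.p := by
    rw [hb', Module.Basis.isUnitSMul_apply, hb]
    exact one_smul _ _
  have hb2' : b' 2 = KaehlerDifferential.D ℂ K c.q := by
    rw [hb', Module.Basis.isUnitSMul_apply, hb]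
    exact one_smul _ _
  have heta : exteriorPower.ιMulti K 3 b' = c.eta := by
    have h : exteriorPower.ιMulti K 3 b' = (Matrix.det !![1 / c.b ^ 2, 0, 0; 0, 1, 0; 0, 0, 1]) •
        c.base := by
      refine ιMulti_det3 _ _ _ fun i => ?_
      rw [Fin.sum_univ_three]
      fin_cases i
      · change b' 0 = _
        rw [hb0']
        simp
      · change b' 1 = _
        rw [hb1']
        simp
      · change b' 2 = _
        rw [hb2']
        simp
    rw [h, eta_eq, Matrix.det_fin_three]
    congr 1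
    simp
  rw [← heta]
  apply regForms_iff b'
  · -- coordinates
    have hDa : KaehlerDifferential.D ℂ K c.a = (c.b ^ 2) • b' 0 := by
      rw [hb0', smul_smul, mul_one_div_cancel (pow_ne_zero _ hb0), one_smul]
    have hDb : KaehlerDifferential.D ℂ K c.b = (-(c.a ^ 2)) • b' 0 := by
      rw [hb0', c.D_b, smul_smul]
      congr 1
      field_simp
    have hA : ∀ x ∈ c.A, ∀ i, b'.repr (KaehlerDifferential.D ℂ K x) i ∈ v := by
      intro x hx
      induction hx using Algebra.adjoin_induction with
      | mem x hx =>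
        intro i
        rcases hx with rfl | rfl | rfl | rfl
        · rw [hDa, map_smul, Module.Basis.repr_self, Finsupp.smul_apply, Finsupp.single_apply]
          split_ifs
          · simpa using v.pow_mem hbv 2
          · simp
        · rw [hDb, map_smul, Module.Basis.repr_self, Finsupp.smul_apply, Finsupp.single_apply]
          split_ifs
          · simpa using v.pow_mem hav 2
          · simp
        · rw [← hb1', Module.Basis.repr_self, Finsupp.single_apply]
          split_ifs
          · exact v.one_mem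
          · exact v.zero_mem
        · rw [← hb2', Module.Basis.repr_self, Finsupp.single_apply]
          split_ifs
          · exact v.one_mem
          · exact v.zero_mem
      | algebraMap z =>
        intro i
        rw [Derivation.map_algebraMap, map_zero]
        exact v.zero_mem
      | add x y _ _ hx hy =>
        intro i
        rw [map_add, map_add, Finsupp.add_apply]
        exact v.add_mem _ _ (hx i) (hy i)
      | mul x y hx' hy' hx hy =>
        intro i
        rw [Derivation.leibniz, map_add, map_smul, map_smul, Finsupp.add_apply,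
          Finsupp.smul_apply, Finsupp.smul_apply]
        exact v.add_mem _ _ (v.mul_mem _ _ (hv.1 hx') (hy i)) (v.mul_mem _ _ (hv.1 hy') (hx i))
    intro x hx i
    obtain ⟨g, hg, h, hh, hh1, rfl⟩ := hv.2 x hx
    have hinv : h⁻¹ ∈ v := by
      rw [← v.valuation_le_one_iff, map_inv₀, hh1, inv_one]
    rw [Derivation.leibniz_div, map_smul, map_sub, map_smul, map_smul, Finsupp.smul_apply,
      Finsupp.sub_apply, Finsupp.smul_apply, Finsupp.smul_apply]
    exact v.mul_mem _ _ (v.pow_mem hinv 2) (v.sub_mem (v.mul_mem _ _ (hv.1 hh) (hA g hg i))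
      (v.mul_mem _ _ (hv.1 hg) (hA h hh i)))
  · rw [heta]
    have h1 : c.eta = c.a • exteriorPower.ιMulti K 3
          (fun i => KaehlerDifferential.D ℂ K ((![c.b, c.p, c.q] : Fin 3 → K) i)) +
        (-c.b) • exteriorPower.ιMulti K 3
          (fun i => KaehlerDifferential.D ℂ K ((![c.a, c.p, c.q] : Fin 3 → K) i)) := by
      have e1 : exteriorPower.ιMulti K 3
          (fun i => KaehlerDifferential.D ℂ K ((![c.b, c.p, c.q] : Fin 3 → K) i)) =
            c.swap.base := by
        rw [base]
        congr 1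
        funext i
        fin_cases i <;> rfl
      have e2 : exteriorPower.ιMulti K 3
          (fun i => KaehlerDifferential.D ℂ K ((![c.a, c.p, c.q] : Fin 3 → K) i)) = c.base := by
        rw [base]
        congr 1
        funext i
        fin_cases i <;> rfl
      rw [e1, e2, base_swap, smul_smul, ← add_smul, eta_eq]
      congr 1
      field_simp
      linear_combination c.rel
    rw [h1]
    unfold regForms
    refine add_mem (AddSubgroup.subset_closure ⟨c.a, ![c.b, c.p, c.q], hav, fun i => ?_, rfl⟩)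
      (AddSubgroup.subset_closure ⟨-c.b, ![c.a, c.p, c.q], v.neg_mem _ hbv, fun i => ?_, rfl⟩)
    · fin_cases i
      · exact hbv
      · exact hpv
      · exact hqv
    · fin_cases i
      · exact hav
      · exact hpv
      · exact hqv

/-- The order of `ω` along a prime divisor of the chart. -/
theorem hasOrdForm_form {v : ValuationSubring K} [IsDiscreteValuationRing v]
    (hv : IsLocOf c.A.toSubring v) : HasOrdForm 3 v c.form (- ord v c.p - ord v c.q) := by
  have h1 : - ord v c.p - ord v c.q = ord v (1 / (c.p * c.q)) := by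
    rw [one_div, ord_inv (mul_ne_zero c.p_ne c.q_ne), ord_mul c.p_ne c.q_ne]
    ring
  rw [h1, form]
  exact hasOrdForm_smul c.eta_ne_zero (c.mem_regForms_iff hv)
    (one_div_ne_zero (mul_ne_zero c.p_ne c.q_ne))

end Coord

end Pool.Agent.Helper94.LCY
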