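import Pool.Agent.Helper94.LCY.FormsBasic

/-!
# The form `ω` has at most simple poles along every discrete valuation
-/

noncomputable section

open KaehlerDifferential

namespace Pool.Agent.Helper94.LCY

variable {K : Type} [Field K] [Algebra ℂ K]

/-- The regular `1`-forms. -/
def reg1 (v : ValuationSubring K) : AddSubgroup (Ω[K⁄ℂ]) :=
  AddSubgroup.closure {θ | ∃ a ∈ v, ∃ g ∈ v, θ = a • KaehlerDifferential.D ℂ K g}

theorem smul_mem_reg1 {v : ValuationSubring K} {a : K} (ha : a ∈ v) {ξ : Ω[K⁄ℂ]}
    (hξ : ξ ∈ reg1 v) : a • ξ ∈ reg1 v := by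
  unfold reg1 at hξ ⊢
  induction hξ using AddSubgroup.closure_induction with
  | mem ξ hξ =>
    obtain ⟨a', ha', g, hg, rfl⟩ := hξ
    exact AddSubgroup.subset_closure ⟨a * a', v.mul_mem _ _ ha ha', g, hg, by rw [mul_smul]⟩
  | zero => rw [smul_zero]; exact zero_mem _
  | add x y _ _ hx hy => rw [smul_add]; exact add_mem hx hy
  | neg x _ hx => rw [smul_neg]; exact neg_mem hx

theorem D_mem_reg1 {v : ValuationSubring K} {g : K} (hg : g ∈ v) :
    KaehlerDifferential.D ℂ K g ∈ reg1 v :=
  AddSubgroup.subset_closure ⟨1, v.one_mem, g, hg, by rw [one_smul]⟩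

/-- Products of regular `1`-forms are regular. -/
theorem ιMulti_mem_regForms {n : ℕ} {v : ValuationSubring K} {ξ : Fin n → Ω[K⁄ℂ]}
    (hξ : ∀ i, ξ i ∈ reg1 v) : exteriorPower.ιMulti K n ξ ∈ regForms n v := by
  classical
  have key : ∀ s : Finset (Fin n), ∀ ξ : Fin n → Ω[K⁄ℂ], (∀ i ∈ s, ξ i ∈ reg1 v) →
      (∀ i ∉ s, ∃ a ∈ v, ∃ g ∈ v, ξ i = a • KaehlerDifferential.D ℂ K g) →
      exteriorPower.ιMulti K n ξ ∈ regForms n v := by
    intro s
    induction s using Finset.induction_on with
    | empty =>
      intro ξ _ h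
      choose a ha g hg hag using fun i => h i (Finset.notMem_empty i)
      have h1 : exteriorPower.ιMulti K n ξ = (∏ i, a i) •
          exteriorPower.ιMulti K n (fun i => KaehlerDifferential.D ℂ K (g i)) := by
        rw [← AlternatingMap.map_smul_univ]
        congr 1
        funext i
        exact hag i
      rw [h1]
      exact AddSubgroup.subset_closure ⟨_, g, prod_mem fun i _ => ha i, hg, rfl⟩
    | insert j s hj ih =>
      intro ξ h1 h2
      have h3 : ∀ y ∈ reg1 v, exteriorPower.ιMulti K n (Function.update ξ j y) ∈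
          regForms n v := by
        intro y hy
        unfold reg1 at hy
        induction hy using AddSubgroup.closure_induction with
        | mem y hy =>
          apply ih
          · intro i hi
            have hij : i ≠ j := by
              rintro rfl
              exact hj hi
            rw [Function.update_of_ne hij]
            exact h1 i (Finset.mem_insert_of_mem hi)
          · intro i hi
            by_cases hij : i = j
            · subst hij
              rw [Function.update_self]
              exact hy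
            · rw [Function.update_of_ne hij]
              exact h2 i (by simp [hij, hi])
        | zero =>
          rw [AlternatingMap.map_update_zero]
          exact zero_mem _
        | add x y _ _ hx hy =>
          rw [AlternatingMap.map_update_add]
          exact add_mem hx hy
        | neg x _ hx =>
          rw [AlternatingMap.map_update_neg]
          exact neg_mem hx
      have h4 := h3 (ξ j) (h1 j (Finset.mem_insert_self _ _))
      rwa [Function.update_eq_self] at h4
  exact key Finset.univ ξ (fun i _ => hξ i) (fun i hi => absurd (Finset.mem_univ i) hi)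

namespace Coord

variable (c : Coord K)

/-- The main computation, in a chart of `E` on which `a, b` are regular. -/
theorem smul_form_mem_aux {v : ValuationSubring K} [IsDiscreteValuationRing v]
    (hav : c.a ∈ v) (hbv : c.b ∈ v) {t : v} (ht : Irreducible t) :
    (t : K) • c.form ∈ regForms 3 v := by
  have ht0 := irr_ne_zero ht
  have ha := c.a_ne
  have hb := c.b_ne
  have hp := c.p_ne
  have hq := c.q_ne
  -- decomposition of an element
  have hdec : ∀ x : K, x ≠ 0 → ∃ (k : ℤ) (ξ : Ω[K⁄ℂ]), ξ ∈ reg1 v ∧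
      KaehlerDifferential.D ℂ K x = x • ξ + (x * k / t) • KaehlerDifferential.D ℂ K (t : K) := by
    intro x hx
    have h2 := val_eq_zpow_ord ht hx
    set k := ord v x with hk
    have hu : v.valuation (x / (t : K) ^ k) = 1 := by
      rw [map_div₀, map_zpow₀, h2, div_self]
      exact zpow_ne_zero _ ((Valuation.ne_zero_iff _).2 ht0)
    set u := x / (t : K) ^ k with hu'
    have hu0 : u ≠ 0 := div_ne_zero hx (zpow_ne_zero _ ht0)
    have huv : u ∈ v := (v.valuation_le_one_iff _).1 hu.le
    have huv' : u⁻¹ ∈ v := by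
      rw [← v.valuation_le_one_iff, map_inv₀, hu, inv_one]
    refine ⟨k, u⁻¹ • KaehlerDifferential.D ℂ K u, smul_mem_reg1 huv' (D_mem_reg1 huv), ?_⟩
    have hxe : x = u * (t : K) ^ k := by
      rw [hu', div_mul_cancel₀]
      exact zpow_ne_zero _ ht0
    have h3 : KaehlerDifferential.D ℂ K x = u • (k • (t : K) ^ (k - 1) •
        KaehlerDifferential.D ℂ K (t : K)) + (t : K) ^ k • KaehlerDifferential.D ℂ K u := by
      conv_lhs => rw [hxe]
      rw [Derivation.leibniz, Derivation.leibniz_zpow]
    rw [h3, smul_smul, add_comm, ← Int.cast_smul_eq_zsmul K, smul_smul, smul_smul]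
    congr 2
    · rw [hxe]
      field_simp
    · rw [hxe, zpow_sub₀ ht0, zpow_one]
      field_simp
  obtain ⟨k, P, hP, hDp⟩ := hdec c.p hp
  obtain ⟨l, Q, hQ, hDq⟩ := hdec c.q hq
  set T := KaehlerDifferential.D ℂ K (t : K) with hT
  set ω := (1 / c.b ^ 2) • KaehlerDifferential.D ℂ K c.a with hω
  have hωreg : ω ∈ reg1 v := by
    have h1 : ω = c.a • KaehlerDifferential.D ℂ K c.b +
        (-c.b) • KaehlerDifferential.D ℂ K c.a := by
      rw [hω, c.D_b, smul_smul, ← add_smul]
      congr 1
      field_simp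
      linear_combination c.rel
    rw [h1]
    exact add_mem (smul_mem_reg1 hav (D_mem_reg1 hbv))
      (smul_mem_reg1 (v.neg_mem _ hbv) (D_mem_reg1 hav))
  -- the bilinear form
  let F : Ω[K⁄ℂ] → Ω[K⁄ℂ] → ⋀[K]^3 Ω[K⁄ℂ] := fun y z => exteriorPower.ιMulti K 3 ![ω, y, z]
  have hup1 : ∀ w y z : Ω[K⁄ℂ], Function.update ![ω, y, z] 1 w = ![ω, w, z] := by
    intro w y z
    funext i
    fin_cases i <;> rfl
  have hup2 : ∀ w y z : Ω[K⁄ℂ], Function.update ![ω, y, z] 2 w = ![ω, y, w] := by
    intro w y z
    funext i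
    fin_cases i <;> rfl
  have Fadd1 : ∀ y y' z, F (y + y') z = F y z + F y' z := by
    intro y y' z
    have h := (exteriorPower.ιMulti K 3).map_update_add ![ω, y, z] 1 y y'
    rw [hup1, hup1, hup1] at h
    exact h
  have Fsmul1 : ∀ (r : K) y z, F (r • y) z = r • F y z := by
    intro r y z
    have h := (exteriorPower.ιMulti K 3).map_update_smul ![ω, y, z] 1 r y
    rw [hup1, hup1] at h
    exact h
  have Fadd2 : ∀ y z z', F y (z + z') = F y z + F y z' := by
    intro y z z'
    have h := (exteriorPower.ιMulti K 3).map_update_add ![ω, y, z] 2 z z'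
    rw [hup2, hup2, hup2] at h
    exact h
  have Fsmul2 : ∀ (r : K) y z, F y (r • z) = r • F y z := by
    intro r y z
    have h := (exteriorPower.ιMulti K 3).map_update_smul ![ω, y, z] 2 r z
    rw [hup2, hup2] at h
    exact h
  have Fself : ∀ y, F y y = 0 := by
    intro y
    exact (exteriorPower.ιMulti K 3).map_eq_zero_of_eq ![ω, y, y] (i := 1) (j := 2) rfl (by decide)
  have hform : c.form = (1 / (c.p * c.q)) • F (KaehlerDifferential.D ℂ K c.p)
      (KaehlerDifferential.D ℂ K c.q) := by
    rw [form, eta]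
    congr 1
    rw [← AlternatingMap.map_vecCons_smul]
  have hFreg : ∀ y z, y ∈ reg1 v → z ∈ reg1 v → F y z ∈ regForms 3 v := by
    intro y z hy hz
    apply ιMulti_mem_regForms
    intro i
    fin_cases i
    · exact hωreg
    · exact hy
    · exact hz
  have hTreg : T ∈ reg1 v := D_mem_reg1 t.2
  have hfinal : (t : K) • c.form = F P (((t : K)) • Q + (l : K) • T) + F ((k : K) • T) Q := by
    rw [hform, hDp, hDq]
    simp only [Fadd1, Fadd2, Fsmul1, Fsmul2, Fself, smul_add, smul_smul, smul_zero, add_zero]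
    have e1 : (t : K) * (1 / (c.p * c.q) * (c.p * c.q)) = t := by field_simp
    have e2 : (t : K) * (1 / (c.p * c.q) * (c.p * (c.q * (l : K) / t))) = l := by field_simp
    have e3 : (t : K) * (1 / (c.p * c.q) * (c.p * (k : K) / t * c.q)) = k := by field_simp
    rw [e1, e2, e3]
  rw [hfinal]
  have hint : ∀ m : ℤ, (m : K) ∈ v := fun m => intCast_mem v m
  exact add_mem (hFreg _ _ hP (add_mem (smul_mem_reg1 t.2 hQ) (smul_mem_reg1 (hint l) hTreg)))
    (hFreg _ _ (smul_mem_reg1 (hint k) hTreg) hQ)

/-- `t • ω` is regular along every discrete valuation ring containing `ℂ`. -/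
theorem smul_form_mem {v : ValuationSubring K} [IsDiscreteValuationRing v]
    (_ : ∀ z : ℂ, algebraMap ℂ K z ∈ v) {t : v} (ht : Irreducible t) :
    (t : K) • c.form ∈ regForms 3 v := by
  have hcube : ∀ x : K, x ^ 3 ∈ v → x ∈ v := by
    intro x hx
    rw [← v.valuation_le_one_iff] at hx ⊢
    rw [map_pow] at hx
    exact (pow_le_one_iff (by norm_num)).1 hx
  rcases v.mem_or_inv_mem c.a with ha | ha
  · refine c.smul_form_mem_aux ha (hcube _ ?_) ht
    have : c.b ^ 3 = -(1 + c.a ^ 3) := by linear_combination c.rel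
    rw [this]
    exact v.neg_mem _ (v.add_mem _ _ v.one_mem (v.pow_mem ha 3))
  · have ha' : c.inv.a ∈ v := by
      change 1 / c.a ∈ v
      rw [one_div]
      exact ha
    have h1 := c.inv.smul_form_mem_aux ha' (hcube _ (by
      have : c.inv.b ^ 3 = -(1 + c.inv.a ^ 3) := by linear_combination c.inv.rel
      rw [this]
      exact v.neg_mem _ (v.add_mem _ _ v.one_mem (v.pow_mem ha' 3)))) ht
    rw [form_inv, smul_neg'] at h1
    exact neg_mem_iff.1 h1

theorem neg_one_le_of_hasOrdForm {v : ValuationSubring K} [IsDiscreteValuationRing v]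
    (hC : ∀ z : ℂ, algebraMap ℂ K z ∈ v) {k : ℤ} (h : HasOrdForm 3 v c.form k) : -1 ≤ k := by
  obtain ⟨t, η, ht, hη, h1, h2⟩ := h
  have ht0 := irr_ne_zero ht
  obtain ⟨a, ha, h3⟩ := (h1 _).1 (c.smul_form_mem hC ht)
  rw [h2, smul_smul] at h3
  have h4 : (t : K) * (t : K) ^ k = a := smul_left_injective K hη h3
  have h5 : (t : K) ^ (k + 1) ∈ v := by
    rw [zpow_add_one₀ ht0, mul_comm, h4]
    exact ha
  have h6 := (ord_nonneg_iff (v := v) (zpow_ne_zero (k + 1) ht0)).2 h5
  rw [ord_zpow ht0, ord_eq_of_val ht (k := 1) (by rw [zpow_one])] at h6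
  omega

end Coord

end Pool.Agent.Helper94.LCY
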