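import Pool.Agent.Helper94.LCY.Loc
import Pool.Agent.Helper94.LCY.Kaehler

/-!
# Top forms have a well defined order along divisorial valuation rings
-/

noncomputable section

open KaehlerDifferential Polynomial

namespace Pool.Agent.Helper94.LCY

variable {K : Type} [Field K] [Algebra ℂ K]

/-- A uniformizer is transcendental over a ring of units. -/
theorem transcendental_of_unit {v : ValuationSubring K} {S : Subalgebra ℂ K}
    (hS : ∀ s ∈ S, s ≠ 0 → v.valuation s = 1) {t : v} (ht : Irreducible t) :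
    Transcendental S (t : K) := by
  have ht0 := irr_ne_zero ht
  have ht1 := irr_lt_one ht
  have key : ∀ n : ℕ, ∀ P : S[X], P.natDegree ≤ n → P ≠ 0 → aeval (t : K) P ≠ 0 := by
    intro n
    induction n with
    | zero =>
      intro P hP hP0
      obtain ⟨s, rfl⟩ := natDegree_eq_zero.1 (Nat.le_zero.1 hP)
      rw [aeval_C]
      intro h
      apply hP0
      have : s = 0 := Subtype.ext h
      rw [this, C_0]
    | succ n ih =>
      intro P hP hP0 h0
      have h1 : aeval (t : K) P = t * aeval (t : K) P.divX + (P.coeff 0 : K) := by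
        conv_lhs => rw [← divX_mul_X_add P]
        rw [map_add, map_mul, aeval_X, aeval_C, mul_comm]
        rfl
      have hmem : ∀ Q : S[X], aeval (t : K) Q ∈ v := by
        intro Q
        rw [aeval_eq_sum_range]
        refine sum_mem fun i _ => ?_
        rw [Algebra.smul_def]
        refine mul_mem ?_ (pow_mem t.2 i)
        change (Q.coeff i : K) ∈ v
        by_cases h : (Q.coeff i : K) = 0
        · rw [h]; exact v.zero_mem
        · exact (v.valuation_le_one_iff _).1 (hS _ (Q.coeff i).2 h).le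
      by_cases hc : P.coeff 0 = 0
      · rw [hc] at h1
        have hdiv : P.divX ≠ 0 := by
          intro h
          apply hP0
          rw [← divX_mul_X_add P, h, hc]
          simp
        refine ih P.divX ?_ hdiv ?_
        · rw [natDegree_divX_eq_natDegree_tsub_one]
          omega
        · rw [h0] at h1
          change 0 = _ + (0 : K) at h1
          rw [add_zero] at h1
          rcases mul_eq_zero.1 h1.symm with h | h
          · exact absurd h ht0
          · exact h
      · have hc' : (P.coeff 0 : K) ≠ 0 := fun h => hc (Subtype.ext h)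
        have h2 := hS _ (P.coeff 0).2 hc'
        rw [h0] at h1
        have h3 : (P.coeff 0 : K) = -(t * aeval (t : K) P.divX) := by
          linear_combination -h1
        rw [h3, Valuation.map_neg, map_mul] at h2
        have h4 : v.valuation (t : K) * v.valuation (aeval (t : K) P.divX) < 1 :=
          (mul_le_of_le_one_right' ((v.valuation_le_one_iff _).2 (hmem _))).trans_lt ht1
        exact h4.ne h2
  rw [transcendental_iff]
  intro P hP
  by_contra h
  exact key _ P le_rfl h hP

/-- A discrete valuation ring containing a Dedekind domain is a localization of it. -/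
theorem isLocOf_of_dedekind {F : Type} [Field F] (B : Subring F) [IsDedekindDomain B]
    (hfrac : ∀ f : F, ∃ g ∈ B, ∃ h ∈ B, h ≠ 0 ∧ f = g / h) {v : ValuationSubring F}
    [IsDiscreteValuationRing v] (hB : B ≤ v.toSubring) : IsLocOf B v := by
  let q : Ideal B := (IsLocalRing.maximalIdeal v).comap (Subring.inclusion hB)
  have hq : q.IsPrime := Ideal.comap_isPrime _ _
  have hmem : ∀ x : B, x ∈ q ↔ v.valuation (x : F) < 1 := fun x =>
    v.valuation_lt_one_iff ⟨x, hB x.2⟩
  have hq0 : q ≠ ⊥ := by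
    intro h0
    apply dvr_ne_top v
    rw [eq_top_iff]
    intro f _
    obtain ⟨g, hg, h, hh, hh0, rfl⟩ := hfrac f
    have h1 : v.valuation h = 1 := by
      refine le_antisymm ((v.valuation_le_one_iff _).2 (hB hh)) (not_lt.1 fun hlt => ?_)
      have : (⟨h, hh⟩ : B) ∈ q := (hmem _).2 hlt
      rw [h0, Ideal.mem_bot] at this
      exact hh0 (congrArg Subtype.val this)
    rw [← v.valuation_le_one_iff, map_div₀, h1, div_one]
    exact (v.valuation_le_one_iff _).2 (hB hg)
  have hle : LocalSubring.ofPrime B q ≤ v.toLocalSubring := (ofPrime_le_iff B q v).2 ⟨hB, hmem⟩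
  set R := LocalSubring.ofPrime B q with hR
  have hdvr : IsDiscreteValuationRing R.toSubring :=
    IsLocalization.AtPrime.isDiscreteValuationRing_of_dedekind_domain B hq0 R.toSubring
  obtain ⟨ϖ, hϖ⟩ := IsDiscreteValuationRing.exists_irreducible R.toSubring
  have hunit : ∀ u : R.toSubring, IsUnit u → v.valuation (u : F) = 1 := by
    intro u hu
    exact (v.valuation_eq_one_iff ⟨u, hle.1 u.2⟩).1 (hu.map (Subring.inclusion hle.1))
  have hϖ1 : v.valuation (ϖ : F) < 1 := by
    refine lt_of_le_of_ne ((v.valuation_le_one_iff _).2 (hle.1 ϖ.2)) fun h => hϖ.not_isUnit ?_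
    have h1 : IsUnit ((Subring.inclusion hle.1) ϖ) :=
      (v.valuation_eq_one_iff ⟨ϖ, hle.1 ϖ.2⟩).2 h
    exact hle.2.map_nonunit _ h1
  have hϖ0 : (ϖ : F) ≠ 0 := fun h => hϖ.ne_zero (Subtype.ext h)
  refine ⟨hB, fun f hf => ?_⟩
  have hfR : f ∈ R.toSubring := by
    by_cases hf0 : f = 0
    · rw [hf0]; exact zero_mem _
    obtain ⟨g, hg, h, hh, hh0, rfl⟩ := hfrac f
    have hg0 : g ≠ 0 := by
      rintro rfl
      simp at hf0
    have hgR : g ∈ R.toSubring := le_ofPrime' B q hg
    have hhR : h ∈ R.toSubring := le_ofPrime' B q hh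
    obtain ⟨i, u, hu⟩ := IsDiscreteValuationRing.eq_unit_mul_pow_irreducible
      (x := (⟨g, hgR⟩ : R.toSubring)) (fun h => hg0 (congrArg Subtype.val h)) hϖ
    obtain ⟨j, w, hw⟩ := IsDiscreteValuationRing.eq_unit_mul_pow_irreducible
      (x := (⟨h, hhR⟩ : R.toSubring)) (fun h => hh0 (congrArg Subtype.val h)) hϖ
    have hu' : g = (u : R.toSubring) * (ϖ : F) ^ i := congrArg Subtype.val hu
    have hw' : h = (w : R.toSubring) * (ϖ : F) ^ j := congrArg Subtype.val hw
    have hw0 : ((w : R.toSubring) : F) ≠ 0 := by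
      intro h0
      rw [h0, zero_mul] at hw'
      exact hh0 hw'
    have hij : j ≤ i := by
      by_contra hlt
      rw [not_le] at hlt
      rw [← v.valuation_le_one_iff, hu', hw', map_div₀, map_mul, map_mul, hunit _ u.isUnit,
        hunit _ w.isUnit, one_mul, one_mul, map_pow, map_pow] at hf
      have hpos : 0 < v.valuation (ϖ : F) := by
        rw [zero_lt_iff]
        exact (Valuation.ne_zero_iff _).2 hϖ0
      rw [div_le_one₀ (pow_pos hpos _)] at hf
      exact absurd (pow_lt_pow_right_of_lt_one₀ hpos hϖ1 hlt) (not_lt.2 hf)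
    obtain ⟨m, rfl⟩ := Nat.exists_eq_add_of_le hij
    have h1 : g / h = ((u : R.toSubring) : F) * (((w⁻¹ : (R.toSubring)ˣ) : R.toSubring) : F) *
        (ϖ : F) ^ m := by
      have h2 : ((w : R.toSubring) : F) * (((w⁻¹ : (R.toSubring)ˣ) : R.toSubring) : F) = 1 :=
        congrArg Subtype.val w.mul_inv
      rw [div_eq_iff hh0, hu', hw', pow_add]
      linear_combination (-(((u : R.toSubring) : F) * (ϖ : F) ^ j * (ϖ : F) ^ m)) * h2
    rw [h1]
    exact mul_mem (mul_mem (SetLike.coe_mem _) (SetLike.coe_mem _)) (pow_mem ϖ.2 m)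
  obtain ⟨g, h, hh, rfl⟩ := (mem_ofPrime B q f).1 hfR
  refine ⟨g, g.2, h, h.2, ?_, rfl⟩
  rw [hmem] at hh
  exact le_antisymm ((v.valuation_le_one_iff _).2 (hB h.2)) (not_lt.1 hh)

/-- Elements whose differential has coordinates with denominator at most `t ^ c`. -/
def Good {n : ℕ} (v : ValuationSubring K) (b : Module.Basis (Fin n) K (Ω[K⁄ℂ])) (t : K) (c : ℕ)
    (x : K) : Prop := x ∈ v ∧ ∀ j, t ^ c * b.repr (D ℂ K x) j ∈ v

section Good

variable {n : ℕ} {v : ValuationSubring K} {b : Module.Basis (Fin n) K (Ω[K⁄ℂ])} {t : K} {c : ℕ}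

theorem Good.mono (ht : t ∈ v) {x : K} (h : Good v b t c x) {c' : ℕ} (hc : c ≤ c') :
    Good v b t c' x := by
  refine ⟨h.1, fun j => ?_⟩
  obtain ⟨e, rfl⟩ := Nat.exists_eq_add_of_le hc
  rw [pow_add, mul_comm (t ^ c), mul_assoc]
  exact v.mul_mem _ _ (v.pow_mem ht e) (h.2 j)

theorem Good.add {x y : K} (hx : Good v b t c x) (hy : Good v b t c y) :
    Good v b t c (x + y) := by
  refine ⟨v.add_mem _ _ hx.1 hy.1, fun j => ?_⟩
  rw [map_add, map_add, Finsupp.add_apply, mul_add]
  exact v.add_mem _ _ (hx.2 j) (hy.2 j)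

theorem Good.mul {x y : K} (hx : Good v b t c x) (hy : Good v b t c y) :
    Good v b t c (x * y) := by
  refine ⟨v.mul_mem _ _ hx.1 hy.1, fun j => ?_⟩
  rw [Derivation.leibniz, map_add, map_smul, map_smul, Finsupp.add_apply, Finsupp.smul_apply,
    Finsupp.smul_apply, mul_add, smul_eq_mul, smul_eq_mul]
  refine v.add_mem _ _ ?_ ?_
  · rw [mul_left_comm]
    exact v.mul_mem _ _ hx.1 (hy.2 j)
  · rw [mul_left_comm]
    exact v.mul_mem _ _ hy.1 (hx.2 j)

theorem Good.inv {x : K} (hx : Good v b t c x) (h1 : v.valuation x = 1) :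
    Good v b t c x⁻¹ := by
  have hinv : x⁻¹ ∈ v := by
    rw [← v.valuation_le_one_iff, map_inv₀, h1, inv_one]
  refine ⟨hinv, fun j => ?_⟩
  rw [Derivation.leibniz_inv, map_smul, Finsupp.smul_apply, smul_eq_mul, mul_left_comm]
  exact v.mul_mem _ _ (v.neg_mem _ (v.pow_mem hinv 2)) (hx.2 j)

theorem good_algebraMap (hC : ∀ z : ℂ, algebraMap ℂ K z ∈ v) (z : ℂ) :
    Good v b t c (algebraMap ℂ K z) := by
  refine ⟨hC z, fun j => ?_⟩
  rw [Derivation.map_algebraMap, map_zero]
  change _ * (0 : K) ∈ v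
  rw [mul_zero]
  exact v.zero_mem

theorem good_of_basis (i : Fin n) {x : K} (hx : x ∈ v) (hbx : b i = D ℂ K x) :
    Good v b t 0 x := by
  refine ⟨hx, fun j => ?_⟩
  rw [← hbx, Module.Basis.repr_self, Finsupp.single_apply, pow_zero, one_mul]
  split_ifs
  · exact v.one_mem
  · exact v.zero_mem

end Good

omit [Algebra ℂ K] in
/-- Every element becomes regular after multiplication by a power of the uniformizer. -/
theorem exists_pow_mul_mem_v {v : ValuationSubring K} [IsDiscreteValuationRing v] {t : v}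
    (ht : Irreducible t) (y : K) : ∃ c : ℕ, (t : K) ^ c * y ∈ v := by
  by_cases hy : y = 0
  · exact ⟨0, by rw [hy, mul_zero]; exact v.zero_mem⟩
  · have ht0 := irr_ne_zero ht
    refine ⟨(-(ord v y)).toNat, ?_⟩
    rw [← ord_nonneg_iff (mul_ne_zero (pow_ne_zero _ ht0) hy), ord_mul (pow_ne_zero _ ht0) hy,
      ord_pow ht0, ord_eq_of_val (f := (t : K)) ht (k := 1) (by rw [zpow_one])]
    have := Int.self_le_toNat (-(ord v y))
    omega

theorem exists_bound {m : ℕ} (hfg : (⊤ : IntermediateField ℂ K).FG)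
    (htr : Algebra.trdeg ℂ K = (m + 1 : ℕ)) {v : ValuationSubring K} [IsDiscreteValuationRing v]
    {g : Fin m → K} (hg : ∀ p : MvPolynomial (Fin m) ℂ, p ≠ 0 →
      v.valuation (MvPolynomial.aeval g p) = 1) {t : v} (ht : Irreducible t) :
    ∃ (b : Module.Basis (Fin (m + 1)) K (Ω[K⁄ℂ])) (w : Fin (m + 1) → K),
      w = Fin.cons (t : K) g ∧ (∀ i, w i ∈ v) ∧
      (∀ i, b i = D ℂ K (w i)) ∧ ∃ c : ℕ, ∀ x ∈ v, ∀ j, (t : K) ^ c * b.repr (D ℂ K x) j ∈ v := by
  have ht0 := irr_ne_zero ht
  set S := Algebra.adjoin ℂ (Set.range g) with hSdef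
  have hS : ∀ s ∈ S, s ≠ 0 → v.valuation s = 1 := by
    intro s hs hs0
    rw [hSdef, Algebra.adjoin_range_eq_range_aeval] at hs
    obtain ⟨p, rfl⟩ := hs
    exact hg p (by rintro rfl; exact hs0 (map_zero _))
  have hgi : AlgebraicIndependent ℂ g := by
    rw [algebraicIndependent_iff]
    intro p hp
    by_contra hp0
    have := hg p hp0
    rw [hp, map_zero] at this
    exact zero_ne_one this
  have ht' : Transcendental S (t : K) := transcendental_of_unit hS ht
  set w : Fin (m + 1) → K := Fin.cons (t : K) g with hw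
  have hwi : AlgebraicIndependent ℂ w := by
    have h1 : AlgebraicIndependent ℂ (fun o : Option (Fin m) => o.elim (t : K) g) :=
      AlgebraicIndependent.option_iff.2 ⟨hgi, ht'⟩
    have h2 := h1.comp (finSuccEquiv m) (finSuccEquiv m).injective
    convert h2 using 1
    funext i
    refine Fin.cases ?_ (fun i => ?_) i
    · simp [hw]
    · simp [hw]
  have hwb : IsTranscendenceBasis ℂ w := by
    refine hwi.isTranscendenceBasis_of_trdeg_le ?_ ?_
    · rw [htr]
      exact Cardinal.natCast_lt_aleph0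
    · rw [htr]
      simp
  obtain ⟨b, hb⟩ := exists_basis_D hwb
  have hgv : ∀ i, g i ∈ v := by
    intro i
    have := hg (MvPolynomial.X i) (MvPolynomial.X_ne_zero i)
    rw [MvPolynomial.aeval_X] at this
    exact (v.valuation_le_one_iff _).1 this.le
  have hwv : ∀ i, w i ∈ v := by
    intro i
    refine Fin.cases ?_ (fun i => ?_) i
    · exact t.2
    · exact hgv i
  have hC : ∀ z : ℂ, algebraMap ℂ K z ∈ v := by
    intro z
    by_cases hz : z = 0
    · rw [hz, map_zero]; exact v.zero_mem
    · have := hg (MvPolynomial.C z) (by simpa using hz)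
      rw [MvPolynomial.aeval_C] at this
      exact (v.valuation_le_one_iff _).1 this.le
  refine ⟨b, w, rfl, hwv, hb, ?_⟩
  set L := IntermediateField.adjoin ℂ (Set.range g) with hLdef
  have hL : ∀ y ∈ L, y ≠ 0 → v.valuation y = 1 := by
    intro y hy hy0
    obtain ⟨r, hr, s, hs, rfl⟩ := IntermediateField.mem_adjoin_iff_div.1 hy
    have hr0 : r ≠ 0 := by
      rintro rfl
      simp at hy0
    have hs0 : s ≠ 0 := by
      rintro rfl
      simp at hy0
    rw [map_div₀, hS r hr hr0, hS s hs hs0, div_one]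
  have hLgood : ∀ y ∈ L, Good v b (t : K) 0 y := by
    intro y hy
    rw [hLdef] at hy
    induction hy using IntermediateField.adjoin_induction with
    | mem y hy =>
      obtain ⟨i, rfl⟩ := hy
      exact good_of_basis i.succ (hgv i) (hb i.succ)
    | algebraMap z => exact good_algebraMap hC z
    | add x y _ _ hx hy => exact hx.add hy
    | inv x hx' hx =>
      by_cases h0 : x = 0
      · rw [h0, inv_zero, ← h0]
        exact hx
      · exact hx.inv (hL x hx' h0)
    | mul x y _ _ hx hy => exact hx.mul hy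
  have htgood : Good v b (t : K) 0 (t : K) := good_of_basis 0 t.2 (hb 0)
  have hAgood : ∀ P : L[X], Good v b (t : K) 0 (aeval (t : K) P) := by
    intro P
    induction P using Polynomial.induction_on with
    | C a =>
      rw [aeval_C]
      exact hLgood a a.2
    | add P Q hP hQ => rw [map_add]; exact hP.add hQ
    | monomial n a h =>
      have : aeval (t : K) (C a * X ^ (n + 1)) = aeval (t : K) (C a * X ^ n) * t := by
        rw [map_mul, map_mul, map_pow, map_pow, aeval_X, pow_succ, mul_assoc]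
      rw [this]
      exact h.mul htgood
  -- the base ring and its fraction field
  set F := IntermediateField.adjoin ℂ (Set.range w) with hFdef
  have hwF : ∀ i, w i ∈ F := fun i => IntermediateField.subset_adjoin _ _ ⟨i, rfl⟩
  have htF : (t : K) ∈ F := hwF 0
  have hLF : L ≤ F := by
    rw [hLdef, IntermediateField.adjoin_le_iff]
    rintro _ ⟨i, rfl⟩
    exact hwF i.succ
  have hAF : ∀ P : L[X], aeval (t : K) P ∈ F := by
    intro P
    rw [aeval_eq_sum_range]
    refine sum_mem fun i _ => ?_
    rw [Algebra.smul_def]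
    exact mul_mem (hLF (P.coeff i).2) (pow_mem htF i)
  let φ : L[X] →+* F :=
    { toFun := fun P => ⟨aeval (t : K) P, hAF P⟩
      map_one' := Subtype.ext (map_one _)
      map_zero' := Subtype.ext (map_zero _)
      map_add' := fun P Q => Subtype.ext (map_add _ P Q)
      map_mul' := fun P Q => Subtype.ext (map_mul _ P Q) }
  let _ : Algebra L[X] F := φ.toAlgebra
  let _ : Algebra L[X] K := (aeval (R := L) (t : K)).toRingHom.toAlgebra
  have hAK : ∀ P : L[X], algebraMap L[X] K P = aeval (t : K) P := fun _ => rfl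
  have : IsScalarTower L[X] F K := IsScalarTower.of_algebraMap_eq fun _ => rfl
  have htL : Transcendental L (t : K) := by
    have h1 := transcendental_of_unit (S := L.toSubalgebra) hL ht
    exact h1
  have hinj : Function.Injective (algebraMap L[X] F) := by
    rw [injective_iff_map_eq_zero]
    intro P hP
    exact transcendental_iff.1 htL P (congrArg (fun z : F => (z : K)) hP)
  have : FaithfulSMul L[X] F := (faithfulSMul_iff_algebraMap_injective L[X] F).2 hinj
  have hSadj : ∀ x ∈ Algebra.adjoin ℂ (Set.range w), ∃ P : L[X], aeval (t : K) P = x := by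
    intro x hx
    induction hx using Algebra.adjoin_induction with
    | mem x hx =>
      obtain ⟨i, rfl⟩ := hx
      refine Fin.cases ?_ (fun i => ?_) i
      · exact ⟨X, by rw [aeval_X]; rfl⟩
      · exact ⟨C ⟨g i, IntermediateField.subset_adjoin _ _ ⟨i, rfl⟩⟩, by rw [aeval_C]; rfl⟩
    | algebraMap z => exact ⟨C (algebraMap ℂ L z), by rw [aeval_C]; rfl⟩
    | add y z _ _ h1 h2 =>
      obtain ⟨P, hP⟩ := h1
      obtain ⟨Q, hQ⟩ := h2
      exact ⟨P + Q, by rw [map_add, hP, hQ]⟩
    | mul y z _ _ h1 h2 =>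
      obtain ⟨P, hP⟩ := h1
      obtain ⟨Q, hQ⟩ := h2
      exact ⟨P * Q, by rw [map_mul, hP, hQ]⟩
  have : IsFractionRing L[X] F := by
    refine IsFractionRing.of_field L[X] F fun z => ?_
    obtain ⟨r, hr, s, hs, e⟩ := IntermediateField.mem_adjoin_iff_div.1 z.2
    obtain ⟨P, hP⟩ := hSadj r hr
    obtain ⟨Q, hQ⟩ := hSadj s hs
    refine ⟨P, Q, Subtype.ext ?_⟩
    rw [e, ← hP, ← hQ]
    rfl
  have hess : Algebra.EssFiniteType ℂ K := IntermediateField.fg_top_iff.1 hfg
  have hess' : Algebra.EssFiniteType F K := Algebra.EssFiniteType.of_comp ℂ F K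
  have halg : Algebra.IsAlgebraic F K := hwb.isAlgebraic_field
  have hfin : Module.Finite F K := Algebra.finite_of_essFiniteType_of_isAlgebraic
  have hsep : Algebra.IsSeparable F K := Algebra.IsAlgebraic.isSeparable_of_perfectField
  set B := integralClosure L[X] K with hB
  have hBfin : Module.Finite L[X] B := IsIntegralClosure.finite L[X] F K B
  have hBded : IsDedekindDomain B := integralClosure.isDedekindDomain L[X] F K
  have hBfrac : IsFractionRing B K := IsIntegralClosure.isFractionRing_of_finite_extension L[X] F K B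
  -- `B` is contained in `v`
  have hBv : ∀ x ∈ B, x ∈ v := by
    intro x hx
    let ψ : L[X] →+* v :=
      { toFun := fun P => ⟨aeval (t : K) P, (hAgood P).1⟩
        map_one' := Subtype.ext (map_one _)
        map_zero' := Subtype.ext (map_zero _)
        map_add' := fun P Q => Subtype.ext (map_add _ P Q)
        map_mul' := fun P Q => Subtype.ext (map_mul _ P Q) }
    let _ : Algebra L[X] v := ψ.toAlgebra
    have : IsScalarTower L[X] v K := IsScalarTower.of_algebraMap_eq fun _ => rfl
    have h1 : IsIntegral L[X] x := hx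
    have h2 : IsIntegral v x := h1.tower_top
    obtain ⟨y, hy⟩ := IsIntegrallyClosed.isIntegral_iff.1 h2
    rw [← hy]
    exact y.2
  -- a bound for `B`
  have hbound1 : ∀ x ∈ v, ∃ c, Good v b (t : K) c x := by
    intro x hx
    choose c hc using fun j => exists_pow_mul_mem_v ht (b.repr (D ℂ K x) j)
    refine ⟨∑ j, c j, hx, fun j => ?_⟩
    have h1 : c j ≤ ∑ j, c j := Finset.single_le_sum (fun _ _ => Nat.zero_le _) (Finset.mem_univ j)
    obtain ⟨e, he⟩ := Nat.exists_eq_add_of_le h1
    rw [he, pow_add, mul_comm ((t : K) ^ c j), mul_assoc]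
    exact v.mul_mem _ _ (v.pow_mem t.2 e) (hc j)
  obtain ⟨s, hs⟩ := hBfin.fg_top
  have hbound2 : ∃ c, ∀ x ∈ s, Good v b (t : K) c (x : K) := by
    choose! c hc using hbound1
    refine ⟨∑ x ∈ s, c (x : K), fun x hx => ?_⟩
    refine (hc x (hBv x x.2)).mono t.2 ?_
    exact Finset.single_le_sum (f := fun x : B => c (x : K)) (fun _ _ => Nat.zero_le _) hx
  obtain ⟨c, hc⟩ := hbound2
  have hBgood : ∀ x : B, Good v b (t : K) c (x : K) := by
    intro x
    have hx : x ∈ Submodule.span L[X] (s : Set B) := by rw [hs]; trivial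
    induction hx using Submodule.span_induction with
    | mem x hx => exact hc x hx
    | zero => exact (by simpa using (good_algebraMap (c := c) hC (0 : ℂ)))
    | add x y _ _ hx hy => exact hx.add hy
    | smul P x _ hx =>
      have h1 : ((P • x : B) : K) = aeval (t : K) P * (x : K) := by
        rw [Algebra.smul_def]
        rfl
      rw [h1]
      exact ((hAgood P).mono t.2 (Nat.zero_le c)).mul hx
  refine ⟨c, fun x hx j => ?_⟩
  have hloc : IsLocOf B.toSubring v := by
    have : IsDedekindDomain B.toSubring := hBded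
    refine isLocOf_of_dedekind B.toSubring ?_ hBv
    intro f
    obtain ⟨y, z, hz, rfl⟩ := IsFractionRing.div_surjective B f
    refine ⟨y, y.2, z, z.2, ?_, rfl⟩
    intro h0
    have : z = 0 := Subtype.ext h0
    rw [this] at hz
    exact zero_notMem_nonZeroDivisors hz
  obtain ⟨y, hy, z, hz, hz1, rfl⟩ := hloc.2 x hx
  have hgood : Good v b (t : K) c (y / z) := by
    rw [div_eq_mul_inv]
    exact (hBgood ⟨y, hy⟩).mul ((hBgood ⟨z, hz⟩).inv hz1)
  exact hgood.2 j

/-- Along a divisorial valuation ring, every nonzero top form has an order. -/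
theorem exists_hasOrdForm {n : ℕ} (hn : 0 < n) (hfg : (⊤ : IntermediateField ℂ K).FG)
    (htr : Algebra.trdeg ℂ K = n) {v : ValuationSubring K} (hv : IsDivisorial n v)
    {θ : ⋀[K]^n Ω[K⁄ℂ]} (hθ : θ ≠ 0) : ∃ k : ℤ, HasOrdForm n v θ k := by
  obtain ⟨m, rfl⟩ : ∃ m, n = m + 1 := ⟨n - 1, by omega⟩
  obtain ⟨hdvr, g, hg⟩ := hv
  obtain ⟨t, ht⟩ := exists_irr v
  have ht0 := irr_ne_zero ht
  obtain ⟨b, w, -, hwv, hbw, c, hc⟩ := exists_bound hfg htr hg ht
  set Ω := exteriorPower.ιMulti K (m + 1) b with hΩ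
  have hΩ0 : Ω ≠ 0 := ιMulti_basis_ne_zero b
  have hΩreg : Ω ∈ regForms (m + 1) v := by
    refine AddSubgroup.subset_closure ⟨1, w, v.one_mem, hwv, ?_⟩
    rw [one_smul, hΩ]
    congr 1
    funext i
    exact hbw i
  -- boundedness of the regular forms
  have hbd : ∀ f : K, f • Ω ∈ regForms (m + 1) v → (t : K) ^ (c * (m + 1)) * f ∈ v := by
    have key : ∀ ξ ∈ regForms (m + 1) v, ∃ f : K, ξ = f • Ω ∧
        (t : K) ^ (c * (m + 1)) * f ∈ v := by
      intro ξ hξ
      unfold regForms at hξ
      induction hξ using AddSubgroup.closure_induction with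
      | mem ξ hξ =>
        obtain ⟨a, g', ha, hg', rfl⟩ := hξ
        rw [ιMulti_eq_det_smul b, ← mul_smul]
        refine ⟨_, rfl, ?_⟩
        have h1 : (t : K) ^ (c * (m + 1)) *
            (a * (Matrix.of fun i j => b.repr (D ℂ K (g' i)) j).det) =
            a * (((t : K) ^ c) ^ Fintype.card (Fin (m + 1)) *
              (Matrix.of fun i j => b.repr (D ℂ K (g' i)) j).det) := by
          rw [Fintype.card_fin, pow_mul]
          ring
        rw [h1, ← Matrix.det_smul]
        refine v.mul_mem _ _ ha (det_mem fun i j => ?_)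
        exact hc (g' i) (hg' i) j
      | zero => exact ⟨0, by rw [zero_smul], by rw [mul_zero]; exact v.zero_mem⟩
      | add x y _ _ hx hy =>
        obtain ⟨f, rfl, h1⟩ := hx
        obtain ⟨f', rfl, h2⟩ := hy
        exact ⟨f + f', by rw [add_smul], by rw [mul_add]; exact v.add_mem _ _ h1 h2⟩
      | neg x _ hx =>
        obtain ⟨f, rfl, h1⟩ := hx
        exact ⟨-f, (neg_smul _ _).symm, by rw [mul_neg]; exact v.neg_mem _ h1⟩
    intro f hf
    obtain ⟨f', hf', h1⟩ := key _ hf
    rw [smul_left_injective K hΩ0 hf']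
    exact h1
  -- the largest pole
  classical
  let p : ℕ → Prop := fun M => ((t : K) ^ M)⁻¹ • Ω ∈ regForms (m + 1) v
  have hp0 : p 0 := by
    change ((t : K) ^ 0)⁻¹ • Ω ∈ _
    rw [pow_zero, inv_one, one_smul]
    exact hΩreg
  have hpb : ∀ M, p M → M ≤ c * (m + 1) := by
    intro M hM
    have h1 := hbd _ hM
    by_contra hlt
    rw [not_le] at hlt
    rw [← ord_nonneg_iff (mul_ne_zero (pow_ne_zero _ ht0) (inv_ne_zero (pow_ne_zero _ ht0))),
      ord_mul (pow_ne_zero _ ht0) (inv_ne_zero (pow_ne_zero _ ht0)), ord_inv (pow_ne_zero _ ht0),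
      ord_pow ht0, ord_pow ht0, ord_eq_of_val (f := (t : K)) ht (k := 1) (by rw [zpow_one])] at h1
    omega
  set M := Nat.findGreatest p (c * (m + 1)) with hM
  have hpM : p M := Nat.findGreatest_spec (P := p) (Nat.zero_le _) hp0
  have hmax : ∀ M', p M' → M' ≤ M := fun M' hM' => Nat.le_findGreatest (hpb M' hM') hM'
  set η := ((t : K) ^ M)⁻¹ • Ω with hη
  have hη0 : η ≠ 0 := smul_ne_zero (inv_ne_zero (pow_ne_zero _ ht0)) hΩ0
  have hreg : ∀ ξ, ξ ∈ regForms (m + 1) v ↔ ∃ a ∈ v, ξ = a • η := by
    intro ξ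
    constructor
    · intro hξ
      obtain ⟨f, rfl⟩ := exists_eq_smul b ξ
      by_cases hf : f = 0
      · exact ⟨0, v.zero_mem, by rw [hf, zero_smul, zero_smul]⟩
      · refine ⟨f * (t : K) ^ M, ?_, ?_⟩
        · rw [← ord_nonneg_iff (mul_ne_zero hf (pow_ne_zero _ ht0)),
            ord_mul hf (pow_ne_zero _ ht0), ord_pow ht0,
            ord_eq_of_val (f := (t : K)) ht (k := 1) (by rw [zpow_one])]
          by_contra hneg
          have h2 := val_eq_zpow_ord ht hf
          obtain ⟨N, hN⟩ : ∃ N : ℕ, ord v f = -N := ⟨(-(ord v f)).toNat, by omega⟩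
          have h3 : p N := by
            have hu : v.valuation (((t : K) ^ N)⁻¹ / f) = 1 := by
              rw [map_div₀, h2, hN, map_inv₀, map_pow, zpow_neg, zpow_natCast, div_self]
              exact inv_ne_zero (pow_ne_zero _ ((Valuation.ne_zero_iff _).2 ht0))
            have h4 := smul_mem_regForms ((v.valuation_le_one_iff _).1 hu.le) hξ
            rw [smul_smul, div_mul_cancel₀ _ hf] at h4
            exact h4
          have h5 := hmax N h3
          omega
        · rw [hη, smul_smul, mul_assoc, mul_inv_cancel₀ (pow_ne_zero _ ht0), mul_one]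
    · rintro ⟨a, ha, rfl⟩
      exact smul_mem_regForms ha hpM
  obtain ⟨f, rfl⟩ := exists_eq_smul b θ
  have hf0 : f ≠ 0 := by
    rintro rfl
    rw [zero_smul] at hθ
    exact hθ rfl
  have h1 : f • exteriorPower.ιMulti K (m + 1) b = (f * (t : K) ^ M) • η := by
    rw [hη, smul_smul, mul_assoc, mul_inv_cancel₀ (pow_ne_zero _ ht0), mul_one]
  rw [h1]
  exact ⟨_, hasOrdForm_smul hη0 hreg (mul_ne_zero hf0 (pow_ne_zero _ ht0))⟩

end Pool.Agent.Helper94.LCY
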