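import Pool.Agent.Helper94.LCY.Coord
import Pool.Agent.Helper94.LCY.Loc

/-!
# The discrete valuation rings of `L(w)` given by irreducible polynomials over `L`
-/

noncomputable section

open Polynomial

namespace Pool.Agent.Helper94.LCY

variable {K : Type} [Field K] [Algebra ℂ K]

/-- `K = L(w)` with `w` transcendental over `L`. -/
structure IsGen (L : IntermediateField ℂ K) (w : K) : Prop where
  tr : Transcendental L w
  top : IntermediateField.adjoin L {w} = ⊤

theorem IsGen.aeval_ne_zero {L : IntermediateField ℂ K} {w : K} (h : IsGen L w) {F : L[X]}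
    (hF : F ≠ 0) : aeval w F ≠ 0 := by
  intro h0
  exact hF ((transcendental_iff.1 h.tr) F h0)

theorem IsGen.exists_coprime {L : IntermediateField ℂ K} {w : K} (h : IsGen L w) (f : K) :
    ∃ F G : L[X], IsCoprime F G ∧ G ≠ 0 ∧ f = aeval w F / aeval w G := by
  classical
  have hf : f ∈ IntermediateField.adjoin L {w} := by rw [h.top]; trivial
  obtain ⟨F, G, rfl⟩ := (IntermediateField.mem_adjoin_simple_iff L f).1 hf
  by_cases hG : G = 0
  · refine ⟨0, 1, isCoprime_zero_left.2 isUnit_one, one_ne_zero, ?_⟩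
    simp [hG]
  · refine ⟨F / gcd F G, G / gcd F G, isCoprime_div_gcd_div_gcd hG, right_div_gcd_ne_zero hG, ?_⟩
    have h0 : gcd F G ≠ 0 := gcd_ne_zero_of_right hG
    have h1 : F = gcd F G * (F / gcd F G) :=
      (EuclideanDomain.mul_div_cancel' h0 (gcd_dvd_left F G)).symm
    have h2 : G = gcd F G * (G / gcd F G) :=
      (EuclideanDomain.mul_div_cancel' h0 (gcd_dvd_right F G)).symm
    have h1' : aeval w F = aeval w (gcd F G) * aeval w (F / gcd F G) := by
      rw [← map_mul, ← h1]
    have h2' : aeval w G = aeval w (gcd F G) * aeval w (G / gcd F G) := by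
      rw [← map_mul, ← h2]
    rw [h1', h2', mul_div_mul_left _ _ (h.aeval_ne_zero h0)]

theorem exists_gaussV {L : IntermediateField ℂ K} {w : K} (h : IsGen L w) (π : L[X])
    (hπ : Irreducible π) : ∃ v : ValuationSubring K, IsDiscreteValuationRing v ∧
      (∀ F : L[X], aeval w F ∈ v) ∧ (∀ F : L[X], v.valuation (aeval w F) < 1 ↔ π ∣ F) ∧
      (∀ f ∈ v, ∃ F G : L[X], ¬ π ∣ G ∧ f = aeval w F / aeval w G) ∧
      ord v (aeval w π) = 1 := by
  have hp : Prime π := hπ.prime
  have hne : ∀ {G : L[X]}, ¬ π ∣ G → G ≠ 0 := by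
    rintro G hG rfl
    exact hG (dvd_zero _)
  have hne' : ∀ {G : L[X]}, ¬ π ∣ G → aeval w G ≠ 0 := fun hG => h.aeval_ne_zero (hne hG)
  let v : ValuationSubring K :=
    { carrier := {f | ∃ F G : L[X], ¬ π ∣ G ∧ f = aeval w F / aeval w G}
      mul_mem' := by
        rintro _ _ ⟨F, G, hG, rfl⟩ ⟨F', G', hG', rfl⟩
        refine ⟨F * F', G * G', fun hd => ?_, ?_⟩
        · rcases hp.dvd_or_dvd hd with hd | hd
          · exact hG hd
          · exact hG' hd
        · rw [map_mul, map_mul, div_mul_div_comm]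
      one_mem' := ⟨1, 1, fun hd => hπ.not_isUnit (isUnit_of_dvd_one hd), by simp⟩
      add_mem' := by
        rintro _ _ ⟨F, G, hG, rfl⟩ ⟨F', G', hG', rfl⟩
        refine ⟨F * G' + G * F', G * G', fun hd => ?_, ?_⟩
        · rcases hp.dvd_or_dvd hd with hd | hd
          · exact hG hd
          · exact hG' hd
        · rw [map_mul, map_add, map_mul, map_mul, div_add_div _ _ (hne' hG) (hne' hG')]
      zero_mem' := ⟨0, 1, fun hd => hπ.not_isUnit (isUnit_of_dvd_one hd), by simp⟩
      neg_mem' := by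
        rintro _ ⟨F, G, hG, rfl⟩
        exact ⟨-F, G, hG, by rw [map_neg, neg_div]⟩
      mem_or_inv_mem' := by
        intro f
        obtain ⟨F, G, hc, hG, rfl⟩ := h.exists_coprime f
        by_cases hd : π ∣ G
        · right
          refine ⟨G, F, fun hd' => hπ.not_isUnit (hc.isUnit_of_dvd' hd' hd), by rw [inv_div]⟩
        · left
          exact ⟨F, G, hd, rfl⟩ }
  have hmem : ∀ f, f ∈ v ↔ ∃ F G : L[X], ¬ π ∣ G ∧ f = aeval w F / aeval w G := fun f => Iff.rfl
  have hpoly : ∀ F : L[X], aeval w F ∈ v := fun F =>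
    (hmem _).2 ⟨F, 1, fun hd => hπ.not_isUnit (isUnit_of_dvd_one hd), by simp⟩
  let φ : L[X] →+* v :=
    { toFun := fun F => ⟨aeval w F, hpoly F⟩
      map_one' := Subtype.ext (map_one _)
      map_zero' := Subtype.ext (map_zero _)
      map_add' := fun F G => Subtype.ext (map_add _ F G)
      map_mul' := fun F G => Subtype.ext (map_mul _ F G) }
  let _ : Algebra L[X] v := φ.toAlgebra
  have hval1 : ∀ F : L[X], ¬ π ∣ F → v.valuation (aeval w F) = 1 := by
    intro F hF
    refine le_antisymm ((v.valuation_le_one_iff _).2 (hpoly F)) ?_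
    have h1 : (aeval w F)⁻¹ ∈ v := (hmem _).2 ⟨1, F, hF, by rw [map_one, one_div]⟩
    have h2 := (v.valuation_le_one_iff _).2 h1
    rw [map_inv₀] at h2
    refine (inv_le_one₀ ?_).1 h2
    rw [zero_lt_iff]
    exact (Valuation.ne_zero_iff _).2 (hne' hF)
  have hPprime : (Ideal.span {π}).IsPrime := (Ideal.span_singleton_prime hπ.ne_zero).2 hp
  have : IsLocalization.AtPrime v (Ideal.span {π}) := by
    refine ⟨?_, ?_, ?_⟩
    · rintro ⟨F, hF⟩
      have hF' : ¬ π ∣ F := fun hd => hF (Ideal.mem_span_singleton.2 hd)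
      exact (v.valuation_eq_one_iff ⟨_, hpoly F⟩).2 (hval1 F hF')
    · rintro ⟨f, hf⟩
      obtain ⟨F, G, hG, rfl⟩ := (hmem f).1 hf
      refine ⟨⟨F, ⟨G, fun hd => hG (Ideal.mem_span_singleton.1 hd)⟩⟩, ?_⟩
      apply Subtype.ext
      exact div_mul_cancel₀ _ (hne' hG)
    · intro F G hFG
      refine ⟨1, ?_⟩
      have h1 : aeval w F = aeval w G := congrArg Subtype.val hFG
      have h2 : F - G = 0 := by
        by_contra h3
        refine h.aeval_ne_zero h3 ?_
        rw [map_sub, h1, sub_self]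
      rw [sub_eq_zero.1 h2]
  have hbot : Ideal.span {π} ≠ (⊥ : Ideal L[X]) := by
    rw [Ne, Ideal.span_singleton_eq_bot]
    exact hπ.ne_zero
  have hdvr : IsDiscreteValuationRing v :=
    IsLocalization.AtPrime.isDiscreteValuationRing_of_dedekind_domain L[X] hbot v
  have hlt : ∀ F : L[X], v.valuation (aeval w F) < 1 ↔ π ∣ F := by
    intro F
    constructor
    · intro h1
      by_contra h2
      exact h1.ne (hval1 F h2)
    · intro hd
      refine lt_of_le_of_ne ((v.valuation_le_one_iff _).2 (hpoly F)) fun h1 => ?_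
      have h2 : IsUnit (algebraMap L[X] v F) := (v.valuation_eq_one_iff ⟨_, hpoly F⟩).2 h1
      rw [IsLocalization.AtPrime.isUnit_to_map_iff v (Ideal.span {π}) F] at h2
      exact h2 (Ideal.mem_span_singleton.2 hd)
  have hirr : Irreducible (⟨aeval w π, hpoly π⟩ : v) := by
    rw [IsDiscreteValuationRing.irreducible_iff_uniformizer]
    apply le_antisymm
    · rintro ⟨f, hf⟩ hmax
      have hf1 : v.valuation f < 1 := (v.valuation_lt_one_iff ⟨f, hf⟩).1 hmax
      obtain ⟨F, G, hG, rfl⟩ := (hmem f).1 hf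
      rw [map_div₀, hval1 G hG, div_one, hlt] at hf1
      obtain ⟨F', rfl⟩ := hf1
      rw [Ideal.mem_span_singleton]
      refine ⟨⟨aeval w F' / aeval w G, (hmem _).2 ⟨F', G, hG, rfl⟩⟩, ?_⟩
      apply Subtype.ext
      change aeval w (π * F') / aeval w G = aeval w π * (aeval w F' / aeval w G)
      rw [map_mul, mul_div_assoc]
    · rw [Ideal.span_singleton_le_iff_mem]
      exact (v.valuation_lt_one_iff ⟨_, hpoly π⟩).2 ((hlt π).2 dvd_rfl)
  exact ⟨v, hdvr, hpoly, hlt, fun f hf => (hmem f).1 hf,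
    ord_eq_of_val hirr (by rw [zpow_one])⟩

/-- The discrete valuation ring `L[w]_(π(w))` of `K = L(w)`. -/
def gaussV {L : IntermediateField ℂ K} {w : K} (h : IsGen L w) (π : L[X])
    (hπ : Irreducible π) : ValuationSubring K := (exists_gaussV h π hπ).choose

section

variable {L : IntermediateField ℂ K} {w : K} (h : IsGen L w) (π : L[X]) (hπ : Irreducible π)

instance gaussV_dvr : IsDiscreteValuationRing (gaussV h π hπ) :=
  (exists_gaussV h π hπ).choose_spec.1

theorem aeval_mem_gaussV (F : L[X]) : aeval w F ∈ gaussV h π hπ :=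
  (exists_gaussV h π hπ).choose_spec.2.1 F

theorem gaussV_lt_one_iff (F : L[X]) : (gaussV h π hπ).valuation (aeval w F) < 1 ↔ π ∣ F :=
  (exists_gaussV h π hπ).choose_spec.2.2.1 F

theorem gaussV_repr {f : K} (hf : f ∈ gaussV h π hπ) :
    ∃ F G : L[X], ¬ π ∣ G ∧ f = aeval w F / aeval w G :=
  (exists_gaussV h π hπ).choose_spec.2.2.2.1 f hf

theorem ord_gaussV_self : ord (gaussV h π hπ) (aeval w π) = 1 :=
  (exists_gaussV h π hπ).choose_spec.2.2.2.2

include h in
theorem aeval_ne_zero' {F : L[X]} (hF : F ≠ 0) : aeval w F ≠ 0 := by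
  intro h0
  exact hF ((transcendental_iff.1 h.tr) F h0)

/-- Uniqueness. -/
theorem gaussV_unique {v : ValuationSubring K} [IsDiscreteValuationRing v]
    (hv : ∀ F : L[X], aeval w F ∈ v) (hπv : v.valuation (aeval w π) < 1) :
    v = gaussV h π hπ := by
  symm
  apply dvr_eq_of_le
  intro f hf
  obtain ⟨F, G, hG, rfl⟩ := gaussV_repr h π hπ hf
  have h1 : v.valuation (aeval w G) = 1 := by
    refine le_antisymm ((v.valuation_le_one_iff _).2 (hv G)) (not_lt.1 fun h2 => ?_)
    obtain ⟨A, B, hAB⟩ : IsCoprime π G := (hπ.coprime_iff_not_dvd).2 hG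
    have h3 : aeval w A * aeval w π + aeval w B * aeval w G = 1 := by
      rw [← map_mul, ← map_mul, ← map_add, hAB, map_one]
    have h4 : v.valuation (aeval w A * aeval w π + aeval w B * aeval w G) < 1 := by
      refine Valuation.map_add_lt _ ?_ ?_
      · rw [map_mul]
        exact (mul_le_of_le_one_left' ((v.valuation_le_one_iff _).2 (hv A))).trans_lt hπv
      · rw [map_mul]
        exact (mul_le_of_le_one_left' ((v.valuation_le_one_iff _).2 (hv B))).trans_lt h2
    rw [h3, map_one] at h4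
    exact lt_irrefl _ h4
  rw [← v.valuation_le_one_iff, map_div₀, h1, div_one]
  exact (v.valuation_le_one_iff _).2 (hv F)

/-- The order of a polynomial in `w` not divisible by `π`. -/
theorem ord_gaussV_of_not_dvd {F : L[X]} (hF : ¬ π ∣ F) :
    ord (gaussV h π hπ) (aeval w F) = 0 := by
  have h0 : aeval w F ≠ 0 := h.aeval_ne_zero (by rintro rfl; exact hF (dvd_zero _))
  rw [ord_eq_zero_iff h0]
  refine le_antisymm ((ValuationSubring.valuation_le_one_iff _ _).2 (aeval_mem_gaussV h π hπ F))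
    (not_lt.1 ?_)
  rw [gaussV_lt_one_iff]
  exact hF

theorem ord_gaussV_of_dvd {F : L[X]} (hF0 : F ≠ 0) (hF : π ∣ F) :
    0 < ord (gaussV h π hπ) (aeval w F) := by
  have h0 : aeval w F ≠ 0 := h.aeval_ne_zero hF0
  rw [ord_pos_iff h0, gaussV_lt_one_iff]
  exact hF

/-- Prime decomposition in `L[w]`: an element of order `0` at all `gaussV` is in `L`. -/
theorem mem_of_ord_gaussV_eq_zero {f : K} (hf : f ≠ 0)
    (h0 : ∀ (π : L[X]) (hπ : Irreducible π), ord (gaussV h π hπ) f = 0) : f ∈ L := by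
  obtain ⟨F, G, hc, hG, rfl⟩ := h.exists_coprime f
  have hF : F ≠ 0 := by
    rintro rfl
    rw [map_zero, zero_div] at hf
    exact hf rfl
  have hFu : IsUnit F := by
    by_contra hu
    obtain ⟨π, hπ, hd⟩ := WfDvdMonoid.exists_irreducible_factor hu hF
    have h1 := h0 π hπ
    rw [ord_div (h.aeval_ne_zero hF) (h.aeval_ne_zero hG)] at h1
    have h2 := ord_gaussV_of_dvd h π hπ hF hd
    have h3 : ¬ π ∣ G := fun hd' => hπ.not_isUnit (hc.isUnit_of_dvd' hd hd')
    rw [ord_gaussV_of_not_dvd h π hπ h3] at h1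
    omega
  have hGu : IsUnit G := by
    by_contra hu
    obtain ⟨π, hπ, hd⟩ := WfDvdMonoid.exists_irreducible_factor hu hG
    have h1 := h0 π hπ
    rw [ord_div (h.aeval_ne_zero hF) (h.aeval_ne_zero hG)] at h1
    have h2 := ord_gaussV_of_dvd h π hπ hG hd
    have h3 : ¬ π ∣ F := fun hd' => hπ.not_isUnit (hc.isUnit_of_dvd' hd' hd)
    rw [ord_gaussV_of_not_dvd h π hπ h3] at h1
    omega
  obtain ⟨a, -, rfl⟩ := Polynomial.isUnit_iff.1 hFu
  obtain ⟨b, -, rfl⟩ := Polynomial.isUnit_iff.1 hGu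
  rw [aeval_C, aeval_C]
  exact div_mem a.2 b.2

theorem valuation_gaussV_of_mem {f : K} (hf : f ≠ 0) (hfL : f ∈ L) :
    (gaussV h π hπ).valuation f = 1 := by
  rw [← ord_eq_zero_iff hf]
  have h1 : f = aeval w (C (⟨f, hfL⟩ : L)) := by
    rw [aeval_C]
    rfl
  rw [h1]
  apply ord_gaussV_of_not_dvd
  intro hd
  have hu : IsUnit (C (⟨f, hfL⟩ : L)) := by
    rw [Polynomial.isUnit_C, isUnit_iff_ne_zero]
    intro h0
    exact hf (congrArg Subtype.val h0)
  exact hπ.not_isUnit (isUnit_of_dvd_unit hd hu)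

theorem ord_gaussV_of_mem {f : K} (hf : f ≠ 0) (hfL : f ∈ L) : ord (gaussV h π hπ) f = 0 :=
  (ord_eq_zero_iff hf).2 (valuation_gaussV_of_mem h π hπ hf hfL)

/-- Two generators with the same divisor `w = 0`. -/
theorem gaussX_eq {L' : IntermediateField ℂ K} {w' : K} (h' : IsGen L' w') (hL : L' ≤ L)
    (hw : (gaussV h X irreducible_X).valuation w' < 1) :
    gaussV h' X irreducible_X = gaussV h X irreducible_X := by
  symm
  apply gaussV_unique
  · intro F
    have hw1 : w' ∈ gaussV h X irreducible_X :=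
      (ValuationSubring.valuation_le_one_iff _ _).1 hw.le
    have hL1 : ∀ y : L', (y : K) ∈ gaussV h X irreducible_X := by
      intro y
      have : (y : K) = aeval w (C (⟨y, hL y.2⟩ : L)) := by
        rw [aeval_C]
        rfl
      rw [this]
      exact aeval_mem_gaussV h X irreducible_X _
    rw [Polynomial.aeval_eq_sum_range]
    refine sum_mem fun i _ => ?_
    rw [Algebra.smul_def]
    exact mul_mem (hL1 _) (pow_mem hw1 i)
  · rw [aeval_X]
    exact hw

/-- The divisor `w = 0` is determined by the vanishing of `w`. -/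
theorem eq_gaussX {A D : Subalgebra ℂ K} (hDL : ∀ d ∈ D, d ∈ L) (_ : w ∈ A)
    (hA : ∀ x ∈ A, ∃ d ∈ D, ∃ y ∈ A, x = d + w * y)
    (hAv : A.toSubring ≤ (gaussV h X irreducible_X).toSubring) {v : ValuationSubring K}
    [IsDiscreteValuationRing v] (hv : IsLocOf A.toSubring v) (hw : v.valuation w < 1) :
    v = gaussV h X irreducible_X := by
  refine hv.eq_of_centre hAv fun x hx hx1 => ?_
  obtain ⟨d, hd, y, hy, rfl⟩ := hA x hx
  have hwv : (gaussV h X irreducible_X).valuation w < 1 := by
    have := (gaussV_lt_one_iff h X irreducible_X X).2 dvd_rfl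
    rwa [aeval_X] at this
  have hd1 : (gaussV h X irreducible_X).valuation d < 1 := by
    have : d = (d + w * y) - w * y := by ring
    rw [this]
    refine (Valuation.map_sub _ _ _).trans_lt (max_lt hx1 ?_)
    rw [map_mul]
    exact (mul_le_of_le_one_right'
      ((ValuationSubring.valuation_le_one_iff _ _).2 (hAv hy))).trans_lt hwv
  have hd0 : d = 0 := by
    by_contra hd0
    rw [valuation_gaussV_of_mem h X irreducible_X hd0 (hDL d hd)] at hd1
    exact lt_irrefl _ hd1
  rw [hd0, zero_add, map_mul]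
  exact (mul_le_of_le_one_right' ((v.valuation_le_one_iff _).2 (hv.1 hy))).trans_lt hw

end

/-- Clearing denominators. -/
theorem exists_clear {A D : Subalgebra ℂ K} {L : IntermediateField ℂ K} {w : K}
    (hL : ∀ f ∈ L, ∃ r ∈ D, ∃ s ∈ D, f = r / s) (hDA : D ≤ A) (hw : w ∈ A) (F : L[X]) :
    ∃ d ∈ D, d ≠ 0 ∧ d * aeval w F ∈ A := by
  induction F using Polynomial.induction_on' with
  | add F G hF hG =>
    obtain ⟨d, hd, hd0, h1⟩ := hF
    obtain ⟨e, he, he0, h2⟩ := hG
    refine ⟨d * e, mul_mem hd he, mul_ne_zero hd0 he0, ?_⟩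
    have : d * e * aeval w (F + G) = e * (d * aeval w F) + d * (e * aeval w G) := by
      rw [map_add]; ring
    rw [this]
    exact add_mem (mul_mem (hDA he) h1) (mul_mem (hDA hd) h2)
  | monomial n a =>
    obtain ⟨r, hr, s, hs, e⟩ := hL a a.2
    rw [aeval_monomial]
    change ∃ d ∈ D, d ≠ 0 ∧ d * ((a : K) * w ^ n) ∈ A
    by_cases hs0 : s = 0
    · refine ⟨1, one_mem _, one_ne_zero, ?_⟩
      rw [e, hs0, div_zero, zero_mul, mul_zero]
      exact zero_mem _
    · refine ⟨s, hs, hs0, ?_⟩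
      have : s * ((a : K) * w ^ n) = r * w ^ n := by
        rw [e]
        field_simp
      rw [this]
      exact mul_mem (hDA hr) (pow_mem hw n)

theorem isLocOf_aux {S : Set K} {A : Subalgebra ℂ K} {L : IntermediateField ℂ K} {w : K}
    (h : IsGen L w) (hL : L = IntermediateField.adjoin ℂ S) (π : L[X]) (hπ : Irreducible π)
    (hSA : S ⊆ A) (hA : A = Algebra.adjoin ℂ (insert w S)) :
    IsLocOf A.toSubring (gaussV h π hπ) := by
  have hDA : Algebra.adjoin ℂ S ≤ A := Algebra.adjoin_le hSA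
  have hw : w ∈ A := by
    rw [hA]
    exact Algebra.subset_adjoin (by simp)
  have hmemL : ∀ y ∈ L, y ∈ gaussV h π hπ := by
    intro y hy
    have : y = aeval w (C (⟨y, hy⟩ : L)) := by
      rw [aeval_C]
      rfl
    rw [this]
    exact aeval_mem_gaussV h π hπ _
  have hDL : ∀ d ∈ Algebra.adjoin ℂ S, d ∈ L := by
    intro d hd
    rw [hL]
    exact IntermediateField.algebra_adjoin_le_adjoin ℂ S hd
  refine ⟨?_, ?_⟩
  · have : ∀ x ∈ A, x ∈ gaussV h π hπ := by
      intro x hx
      rw [hA] at hx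
      induction hx using Algebra.adjoin_induction with
      | mem x hx =>
        rcases hx with rfl | hx
        · have := aeval_mem_gaussV h π hπ X
          rwa [aeval_X] at this
        · exact hmemL x (hDL x (Algebra.subset_adjoin hx))
      | algebraMap z => exact hmemL _ (IntermediateField.algebraMap_mem L z)
      | add y z _ _ h1 h2 => exact (gaussV h π hπ).add_mem _ _ h1 h2
      | mul y z _ _ h1 h2 => exact (gaussV h π hπ).mul_mem _ _ h1 h2
    exact this
  · intro f hf
    obtain ⟨F, G, hG, rfl⟩ := gaussV_repr h π hπ hf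
    have hLD : ∀ f ∈ L, ∃ r ∈ Algebra.adjoin ℂ S, ∃ s ∈ Algebra.adjoin ℂ S, f = r / s := by
      intro f hf
      rw [hL] at hf
      exact IntermediateField.mem_adjoin_iff_div.1 hf
    obtain ⟨d, hd, hd0, h1⟩ := exists_clear hLD hDA hw F
    obtain ⟨e, he, he0, h2⟩ := exists_clear hLD hDA hw G
    refine ⟨e * (d * aeval w F), mul_mem (hDA he) h1, d * (e * aeval w G),
      mul_mem (hDA hd) h2, ?_, ?_⟩
    · rw [map_mul, map_mul, valuation_gaussV_of_mem h π hπ hd0 (hDL d hd),
        valuation_gaussV_of_mem h π hπ he0 (hDL e he), one_mul, one_mul]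
      have h0 : aeval w G ≠ 0 := h.aeval_ne_zero (by rintro rfl; exact hG (dvd_zero _))
      rw [← ord_eq_zero_iff h0]
      exact ord_gaussV_of_not_dvd h π hπ hG
    · have h0 : aeval w G ≠ 0 := h.aeval_ne_zero (by rintro rfl; exact hG (dvd_zero _))
      field_simp

/-- `K = ℂ(a, b, p)(q)` with `q` transcendental over `ℂ(a, b, p)`. -/
theorem isGen_aux {a b p q : K} (rel : 1 + a ^ 3 + b ^ 3 = 0)
    (gen : IntermediateField.adjoin ℂ {a, b, p, q} = ⊤) (tr : Algebra.trdeg ℂ K = 3) :
    IsGen (IntermediateField.adjoin ℂ {a, b, p}) q := by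
  have ind := indep_aux rel gen tr
  set L := IntermediateField.adjoin ℂ ({a, b, p} : Set K) with hL
  refine ⟨?_, ?_⟩
  · intro halg
    set S := Algebra.adjoin ℂ (Set.range ![a, p]) with hS
    have ha : a ∈ S := Algebra.subset_adjoin ⟨0, rfl⟩
    have hp : p ∈ S := Algebra.subset_adjoin ⟨1, rfl⟩
    have hmem : ∀ x ∈ S, IsAlgebraic S x := fun x hx => isAlgebraic_algebraMap (⟨x, hx⟩ : S)
    have hb : IsAlgebraic S b := by
      have h1 : IsAlgebraic S (b ^ 3) := by
        have : b ^ 3 = -(1 + a ^ 3) := by linear_combination rel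
        rw [this]
        exact hmem _ (neg_mem (add_mem (one_mem _) (pow_mem ha 3)))
      exact h1.of_pow (by norm_num)
    have key : ∀ x ∈ L, IsAlgebraic S x := by
      intro x hx
      induction hx using IntermediateField.adjoin_induction with
      | mem x hx =>
        rcases hx with rfl | rfl | rfl
        · exact hmem _ ha
        · exact hb
        · exact hmem _ hp
      | algebraMap z => exact hmem _ (algebraMap_mem S z)
      | add x y _ _ hx hy => exact hx.add hy
      | inv x _ hx => exact hx.inv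
      | mul x y _ _ hx hy => exact hx.mul hy
    have hSL : S ≤ L.toSubalgebra := by
      apply Algebra.adjoin_le
      rintro _ ⟨i, rfl⟩
      fin_cases i
      · exact IntermediateField.subset_adjoin _ _ (by simp)
      · exact IntermediateField.subset_adjoin _ _ (by simp)
    let _ : Algebra S L := (Subalgebra.inclusion hSL).toAlgebra
    have : IsScalarTower S L K := IsScalarTower.of_algebraMap_eq fun x => rfl
    have : Algebra.IsAlgebraic S L := by
      refine ⟨fun x => ?_⟩
      have h1 := key x x.2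
      exact (isAlgebraic_algebraMap_iff (algebraMap L K).injective).1 h1
    have h2 : IsAlgebraic S q := halg.restrictScalars S
    have h3 : AlgebraicIndependent ℂ (fun o : Option (Fin 2) => o.elim q ![a, p]) := by
      have h4 := ind.comp (fun o : Option (Fin 2) => o.elim 2 ![0, 1]) (by
        intro x y hxy
        rcases x with _ | x <;> rcases y with _ | y
        · rfl
        · fin_cases y <;> simp at hxy
        · fin_cases x <;> simp at hxy
        · fin_cases x <;> fin_cases y <;> simp at hxy ⊢)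
      convert h4 using 1
      funext o
      rcases o with _ | o
      · rfl
      · fin_cases o <;> rfl
    rw [AlgebraicIndependent.option_iff] at h3
    exact h3.2 h2
  · rw [eq_top_iff]
    intro x _
    have h1 : x ∈ (IntermediateField.adjoin L {q}).restrictScalars ℂ := by
      rw [hL, IntermediateField.adjoin_adjoin_left]
      have h2 : ({a, b, p} ∪ {q} : Set K) = {a, b, p, q} := by
        ext y
        simp only [Set.mem_union, Set.mem_insert_iff, Set.mem_singleton_iff]
        tauto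
      rw [h2, gen]
      trivial
    exact h1

namespace Coord

variable (c : Coord K)

/-- The field `ℂ(a, b, q)`. -/
def K₁ : IntermediateField ℂ K := IntermediateField.adjoin ℂ {c.a, c.b, c.q}

theorem isGen_q : IsGen c.K₀ c.q := isGen_aux c.rel c.gen c.tr

theorem isGen_p : IsGen c.K₁ c.p := by
  refine isGen_aux (p := c.q) c.rel ?_ c.tr
  rw [← c.gen]
  congr 1
  ext x
  simp only [Set.mem_insert_iff, Set.mem_singleton_iff]
  tauto

/-- Every `gaussV` over `ℂ(a, b, p)` is a localization of `ℂ[a, b, p, q]`. -/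
theorem isLocOf_gaussV_q (π : c.K₀[X]) (hπ : Irreducible π) :
    IsLocOf c.A.toSubring (gaussV c.isGen_q π hπ) := by
  refine isLocOf_aux (S := {c.a, c.b, c.p}) c.isGen_q rfl π hπ ?_ ?_
  · rintro x (rfl | rfl | rfl) <;> exact Algebra.subset_adjoin (by simp)
  · have : ({c.a, c.b, c.p, c.q} : Set K) = insert c.q {c.a, c.b, c.p} := by
      ext x
      simp only [Set.mem_insert_iff, Set.mem_singleton_iff]
      tauto
    rw [A, this]

/-- Every `gaussV` over `ℂ(a, b, q)` is a localization of `ℂ[a, b, p, q]`. -/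
theorem isLocOf_gaussV_p (π : c.K₁[X]) (hπ : Irreducible π) :
    IsLocOf c.A.toSubring (gaussV c.isGen_p π hπ) := by
  refine isLocOf_aux (S := {c.a, c.b, c.q}) c.isGen_p rfl π hπ ?_ ?_
  · rintro x (rfl | rfl | rfl) <;> exact Algebra.subset_adjoin (by simp)
  · have : ({c.a, c.b, c.p, c.q} : Set K) = insert c.p {c.a, c.b, c.q} := by
      ext x
      simp only [Set.mem_insert_iff, Set.mem_singleton_iff]
      tauto
    rw [A, this]

/-- The divisor `q = 0`. -/
def Vq : ValuationSubring K := gaussV c.isGen_q Polynomial.X irreducible_X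

/-- The divisor `p = 0`. -/
def Vp : ValuationSubring K := gaussV c.isGen_p Polynomial.X irreducible_X

instance : IsDiscreteValuationRing c.Vq := gaussV_dvr _ _ _
instance : IsDiscreteValuationRing c.Vp := gaussV_dvr _ _ _

theorem isLocOf_Vq : IsLocOf c.A.toSubring c.Vq := c.isLocOf_gaussV_q _ _
theorem isLocOf_Vp : IsLocOf c.A.toSubring c.Vp := c.isLocOf_gaussV_p _ _

theorem ord_Vq_q : ord c.Vq c.q = 1 := by
  have := ord_gaussV_self c.isGen_q Polynomial.X irreducible_X
  rw [Polynomial.aeval_X] at this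
  exact this

theorem ord_Vp_p : ord c.Vp c.p = 1 := by
  have := ord_gaussV_self c.isGen_p Polynomial.X irreducible_X
  rw [Polynomial.aeval_X] at this
  exact this

theorem ord_Vp_q : ord c.Vp c.q = 0 :=
  ord_gaussV_of_mem _ _ _ c.q_ne (IntermediateField.subset_adjoin _ _ (by simp))

theorem ord_Vq_p : ord c.Vq c.p = 0 :=
  ord_gaussV_of_mem _ _ _ c.p_ne (IntermediateField.subset_adjoin _ _ (by simp))

theorem exists_eq_add {S : Set K} {A : Subalgebra ℂ K} {w : K}
    (hA : A = Algebra.adjoin ℂ (insert w S)) {x : K} (hx : x ∈ A) :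
    ∃ d ∈ Algebra.adjoin ℂ S, ∃ y ∈ A, x = d + w * y := by
  have hw : w ∈ A := by
    rw [hA]
    exact Algebra.subset_adjoin (by simp)
  have hDA : Algebra.adjoin ℂ S ≤ A := by
    rw [hA]
    exact Algebra.adjoin_mono (Set.subset_insert _ _)
  have hx' := hx
  rw [hA] at hx'
  induction hx' using Algebra.adjoin_induction with
  | mem x hx1 =>
    rcases hx1 with rfl | hx1
    · exact ⟨0, zero_mem _, 1, one_mem _, by ring⟩
    · exact ⟨x, Algebra.subset_adjoin hx1, 0, zero_mem _, by ring⟩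
  | algebraMap z => exact ⟨_, algebraMap_mem _ z, 0, zero_mem _, by ring⟩
  | add x y hx1 hy1 h1 h2 =>
    rw [← hA] at hx1 hy1
    obtain ⟨d, hd, z, hz, e1⟩ := h1 hx1
    obtain ⟨d', hd', z', hz', e2⟩ := h2 hy1
    exact ⟨d + d', add_mem hd hd', z + z', add_mem hz hz', by rw [e1, e2]; ring⟩
  | mul x y hx1 hy1 h1 h2 =>
    rw [← hA] at hx1 hy1
    obtain ⟨d, hd, z, hz, e1⟩ := h1 hx1
    obtain ⟨d', hd', z', hz', e2⟩ := h2 hy1
    refine ⟨d * d', mul_mem hd hd', d * z' + z * y,
      add_mem (mul_mem (hDA hd) hz') (mul_mem hz hy1), ?_⟩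
    rw [e1]
    conv_lhs => rw [e2]
    conv_rhs => rw [e2]
    ring

theorem A_eq_q : c.A = Algebra.adjoin ℂ (insert c.q {c.a, c.b, c.p}) := by
  have : ({c.a, c.b, c.p, c.q} : Set K) = insert c.q {c.a, c.b, c.p} := by
    ext x
    simp only [Set.mem_insert_iff, Set.mem_singleton_iff]
    tauto
  rw [A, this]

theorem A_eq_p : c.A = Algebra.adjoin ℂ (insert c.p {c.a, c.b, c.q}) := by
  have : ({c.a, c.b, c.p, c.q} : Set K) = insert c.p {c.a, c.b, c.q} := by
    ext x
    simp only [Set.mem_insert_iff, Set.mem_singleton_iff]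
    tauto
  rw [A, this]

/-- The divisor `q = 0` is the only one in the chart with `q` in its ideal. -/
theorem ord_q_eq {v : ValuationSubring K} [IsDiscreteValuationRing v]
    (hv : IsLocOf c.A.toSubring v) (h : v ≠ c.Vq) : ord v c.q = 0 := by
  have hq : c.q ∈ c.A := Algebra.subset_adjoin (by simp)
  have h1 : 0 ≤ ord v c.q := (ord_nonneg_iff c.q_ne).2 (hv.1 hq)
  by_contra h2
  have h3 : v.valuation c.q < 1 := (ord_pos_iff c.q_ne).1 (by omega)
  apply h
  refine eq_gaussX c.isGen_q (D := Algebra.adjoin ℂ {c.a, c.b, c.p})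
    (fun d hd => IntermediateField.algebra_adjoin_le_adjoin ℂ _ hd) hq
    (fun x hx => exists_eq_add c.A_eq_q hx) c.isLocOf_Vq.1 hv h3

/-- The divisor `p = 0` is the only one in the chart with `p` in its ideal. -/
theorem ord_p_eq {v : ValuationSubring K} [IsDiscreteValuationRing v]
    (hv : IsLocOf c.A.toSubring v) (h : v ≠ c.Vp) : ord v c.p = 0 := by
  have hp : c.p ∈ c.A := Algebra.subset_adjoin (by simp)
  have h1 : 0 ≤ ord v c.p := (ord_nonneg_iff c.p_ne).2 (hv.1 hp)
  by_contra h2
  have h3 : v.valuation c.p < 1 := (ord_pos_iff c.p_ne).1 (by omega)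
  apply h
  refine eq_gaussX c.isGen_p (D := Algebra.adjoin ℂ {c.a, c.b, c.q})
    (fun d hd => IntermediateField.algebra_adjoin_le_adjoin ℂ _ hd) hp
    (fun x hx => exists_eq_add c.A_eq_p hx) c.isLocOf_Vp.1 hv h3

theorem val_Vq_q : c.Vq.valuation c.q < 1 := by
  rw [← ord_pos_iff c.q_ne, c.ord_Vq_q]
  exact one_pos

theorem val_Vp_p : c.Vp.valuation c.p < 1 := by
  rw [← ord_pos_iff c.p_ne, c.ord_Vp_p]
  exact one_pos

theorem inv_K₀ : c.inv.K₀ ≤ c.K₀ := by
  rw [K₀, IntermediateField.adjoin_le_iff]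
  have ha : c.a ∈ c.K₀ := IntermediateField.subset_adjoin _ _ (by simp)
  have hb : c.b ∈ c.K₀ := IntermediateField.subset_adjoin _ _ (by simp)
  have hp : c.p ∈ c.K₀ := IntermediateField.subset_adjoin _ _ (by simp)
  rintro x (rfl | rfl | rfl)
  · exact div_mem (one_mem _) ha
  · exact div_mem hb ha
  · exact hp

theorem inv_K₁ : c.inv.K₁ ≤ c.K₁ := by
  rw [K₁, IntermediateField.adjoin_le_iff]
  have ha : c.a ∈ c.K₁ := IntermediateField.subset_adjoin _ _ (by simp)
  have hb : c.b ∈ c.K₁ := IntermediateField.subset_adjoin _ _ (by simp)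
  have hq : c.q ∈ c.K₁ := IntermediateField.subset_adjoin _ _ (by simp)
  rintro x (rfl | rfl | rfl)
  · exact div_mem (one_mem _) ha
  · exact div_mem hb ha
  · exact div_mem hq ha

theorem swap_K₀ : c.swap.K₀ ≤ c.K₀ := by
  rw [K₀, IntermediateField.adjoin_le_iff]
  rintro x (rfl | rfl | rfl) <;> exact IntermediateField.subset_adjoin _ _ (by simp [swap])

theorem swap_K₁ : c.swap.K₁ ≤ c.K₁ := by
  rw [K₁, IntermediateField.adjoin_le_iff]
  rintro x (rfl | rfl | rfl) <;> exact IntermediateField.subset_adjoin _ _ (by simp [swap])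

theorem pinv_K₀ : c.pinv.K₀ ≤ c.K₀ := by
  rw [K₀, IntermediateField.adjoin_le_iff]
  have ha : c.a ∈ c.K₀ := IntermediateField.subset_adjoin _ _ (by simp)
  have hb : c.b ∈ c.K₀ := IntermediateField.subset_adjoin _ _ (by simp)
  have hp : c.p ∈ c.K₀ := IntermediateField.subset_adjoin _ _ (by simp)
  rintro x (rfl | rfl | rfl)
  · exact ha
  · exact hb
  · exact div_mem (one_mem _) hp

theorem inv_Vq : c.inv.Vq = c.Vq := by
  refine gaussX_eq c.isGen_q c.inv.isGen_q c.inv_K₀ ?_
  change c.Vq.valuation (c.q / c.a) < 1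
  have ha : c.Vq.valuation c.a = 1 :=
    valuation_gaussV_of_mem _ _ _ c.a_ne (IntermediateField.subset_adjoin _ _ (by simp))
  rw [map_div₀, ha, div_one]
  exact c.val_Vq_q

theorem inv_Vp : c.inv.Vp = c.Vp :=
  gaussX_eq c.isGen_p c.inv.isGen_p c.inv_K₁ c.val_Vp_p

theorem swap_Vq : c.swap.Vq = c.Vq :=
  gaussX_eq c.isGen_q c.swap.isGen_q c.swap_K₀ c.val_Vq_q

theorem swap_Vp : c.swap.Vp = c.Vp :=
  gaussX_eq c.isGen_p c.swap.isGen_p c.swap_K₁ c.val_Vp_p

theorem pinv_Vq : c.pinv.Vq = c.Vq := by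
  refine gaussX_eq c.isGen_q c.pinv.isGen_q c.pinv_K₀ ?_
  change c.Vq.valuation (c.q / c.p) < 1
  have hp : c.Vq.valuation c.p = 1 :=
    valuation_gaussV_of_mem _ _ _ c.p_ne (IntermediateField.subset_adjoin _ _ (by simp))
  rw [map_div₀, hp, div_one]
  exact c.val_Vq_q

end Coord

end Pool.Agent.Helper94.LCY
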