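import Pool.Agent.Helper94.LCY.Defs

/-!
# The definitions of regular forms and orders of forms, in unfolded form

The files on differential forms use these unfolded versions of `regularForms` and `HasOrder`.
-/

noncomputable section

open KaehlerDifferential

namespace Pool.Agent.Helper94.LCY

variable {K : Type} [Field K] [Algebra ℂ K]

/-- The unfolded form of `regularForms`. -/
def regForms (n : ℕ) (v : ValuationSubring K) : AddSubgroup (⋀[K]^n Ω[K⁄ℂ]) :=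
  AddSubgroup.closure
    {θ | ∃ (a : K) (g : Fin n → K), a ∈ v ∧ (∀ i, g i ∈ v) ∧
      θ = a • exteriorPower.ιMulti K n (fun i => D ℂ K (g i))}

/-- The unfolded form of `HasOrder`. -/
def HasOrdForm (n : ℕ) (v : ValuationSubring K) (θ : ⋀[K]^n Ω[K⁄ℂ]) (k : ℤ) : Prop :=
  ∃ (t : v) (η : ⋀[K]^n Ω[K⁄ℂ]), Irreducible t ∧ η ≠ 0 ∧
    (∀ ξ, ξ ∈ regForms n v ↔ ∃ a ∈ v, ξ = a • η) ∧ θ = (t : K) ^ k • η

theorem hasOrder_iff {n : ℕ} {v : ValuationSubring K} {θ : Form K n} {k : ℤ} :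
    HasOrder n v θ k ↔ HasOrdForm n v θ k := by
  constructor
  · rintro ⟨t, η, h1, ⟨h2, h3⟩, h4⟩
    exact ⟨t, η, h1, h2, h3, h4⟩
  · rintro ⟨t, η, h1, h2, h3, h4⟩
    exact ⟨t, η, h1, ⟨h2, h3⟩, h4⟩

end Pool.Agent.Helper94.LCY
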