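import Pool.Agent.Helper94.LCY.Coord

/-!
# The function field of `E x ℙ^2` is not purely transcendental
-/

noncomputable section

namespace Pool.Agent.Helper94.LCY

variable {K : Type} [Field K] [Algebra ℂ K]

theorem flt_mvPolynomial (n : ℕ) : ∀ A B C : MvPolynomial (Fin n) ℂ, A ≠ 0 → B ≠ 0 → C ≠ 0 →
    A ^ 3 + B ^ 3 = C ^ 3 → ∃ z : ℂ, A = MvPolynomial.C z * C := by
  induction n with
  | zero =>
    intro A B C hA hB hC _
    obtain ⟨a, rfl⟩ := MvPolynomial.C_surjective (Fin 0) A
    obtain ⟨c, rfl⟩ := MvPolynomial.C_surjective (Fin 0) C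
    have hc : c ≠ 0 := by
      rintro rfl
      simp at hC
    refine ⟨a / c, ?_⟩
    rw [← map_mul, div_mul_cancel₀ _ hc]
  | succ n ih =>
    intro A B C hA hB hC h
    let R := MvPolynomial (Fin n) ℂ
    let F := FractionRing R
    let φ : MvPolynomial (Fin (n + 1)) ℂ →+* Polynomial F :=
      (Polynomial.mapRingHom (algebraMap R F)).comp
        (MvPolynomial.finSuccEquiv ℂ n : MvPolynomial (Fin (n + 1)) ℂ →+* Polynomial R)
    have hinj : Function.Injective (Polynomial.mapRingHom (algebraMap R F)) :=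
      Polynomial.map_injective _ (IsFractionRing.injective R F)
    have hφ : Function.Injective φ := hinj.comp (MvPolynomial.finSuccEquiv ℂ n).injective
    have hne : ∀ P, P ≠ 0 → φ P ≠ 0 := fun P hP h0 => hP (hφ (by rw [h0, map_zero]))
    have heq : (φ A) ^ 3 + (φ B) ^ 3 = (φ C) ^ 3 := by
      rw [← map_pow, ← map_pow, ← map_pow, ← map_add, h]
    obtain ⟨d, a', b', c', ⟨ha, hb, hc⟩, ua, ub, uc⟩ :=
      fermatLastTheoremWith'_polynomial (k := F) (n := 3) le_rfl
        (by exact_mod_cast (three_ne_zero : (3 : F) ≠ 0)) (φ A) (φ B) (φ C) (hne A hA) (hne B hB)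
        (hne C hC) heq
    obtain ⟨α, hα0, rfl⟩ := Polynomial.isUnit_iff.1 ua
    obtain ⟨β, hβ0, rfl⟩ := Polynomial.isUnit_iff.1 ub
    obtain ⟨γ, hγ0, rfl⟩ := Polynomial.isUnit_iff.1 uc
    have hα : α ≠ 0 := hα0.ne_zero
    have hβ : β ≠ 0 := hβ0.ne_zero
    have hγ : γ ≠ 0 := hγ0.ne_zero
    have hd : d ≠ 0 := by
      rintro rfl
      apply hne A hA
      rw [ha]
      simp
    -- cubes of the ratios
    have h3 : α ^ 3 + β ^ 3 = γ ^ 3 := by
      have h1 : (Polynomial.C α * d) ^ 3 + (Polynomial.C β * d) ^ 3 = (Polynomial.C γ * d) ^ 3 := by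
        rw [← ha, ← hb, ← hc]
        exact heq
      have h2 : Polynomial.C (α ^ 3 + β ^ 3) * d ^ 3 = Polynomial.C (γ ^ 3) * d ^ 3 := by
        rw [map_add, map_pow, map_pow, map_pow]
        linear_combination h1
      exact Polynomial.C_injective (mul_right_cancel₀ (pow_ne_zero 3 hd) h2)
    obtain ⟨p, q, hq, hpq⟩ := IsFractionRing.div_surjective (A := R) (α / γ)
    obtain ⟨r, s, hs, hrs⟩ := IsFractionRing.div_surjective (A := R) (β / γ)
    have hq0 : q ≠ 0 := nonZeroDivisors.ne_zero hq
    have hs0 : s ≠ 0 := nonZeroDivisors.ne_zero hs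
    have hinjF := IsFractionRing.injective R F
    have hqF : algebraMap R F q ≠ 0 := fun h => hq0 (hinjF (by rw [h, map_zero]))
    have hsF : algebraMap R F s ≠ 0 := fun h => hs0 (hinjF (by rw [h, map_zero]))
    have hp0 : p ≠ 0 := by
      rintro rfl
      rw [map_zero, zero_div] at hpq
      exact div_ne_zero hα hγ hpq.symm
    have hr0 : r ≠ 0 := by
      rintro rfl
      rw [map_zero, zero_div] at hrs
      exact div_ne_zero hβ hγ hrs.symm
    have h4 : (p * s) ^ 3 + (r * q) ^ 3 = (q * s) ^ 3 := by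
      apply hinjF
      rw [map_add, map_pow, map_pow, map_pow, map_mul, map_mul, map_mul]
      have e1 : algebraMap R F p = α / γ * algebraMap R F q := by
        rw [← hpq, div_mul_cancel₀ _ hqF]
      have e2 : algebraMap R F r = β / γ * algebraMap R F s := by
        rw [← hrs, div_mul_cancel₀ _ hsF]
      have h5 : (α / γ) ^ 3 + (β / γ) ^ 3 = 1 := by
        rw [div_pow, div_pow, ← add_div, h3, div_self (pow_ne_zero 3 hγ)]
      rw [e1, e2]
      linear_combination (algebraMap R F q ^ 3 * algebraMap R F s ^ 3) * h5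
    obtain ⟨z, hz⟩ := ih (p * s) (r * q) (q * s) (mul_ne_zero hp0 hs0) (mul_ne_zero hr0 hq0)
      (mul_ne_zero hq0 hs0) h4
    have hz' : p = MvPolynomial.C z * q := by
      have : p * s = (MvPolynomial.C z * q) * s := by
        rw [hz]
        ring
      exact mul_right_cancel₀ hs0 this
    refine ⟨z, ?_⟩
    apply hφ
    rw [map_mul]
    have hφC : φ (MvPolynomial.C z) = Polynomial.C (algebraMap R F (MvPolynomial.C z)) := by
      simp [φ, MvPolynomial.finSuccEquiv_apply]
    rw [hφC, ha, hc, ← mul_assoc, ← map_mul]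
    congr 2
    have e1 : algebraMap R F p = α / γ * algebraMap R F q := by
      rw [← hpq, div_mul_cancel₀ _ hqF]
    rw [hz', map_mul] at e1
    have e2 := mul_right_cancel₀ hqF e1
    rw [e2, div_mul_cancel₀ _ hγ]

/-- The Fermat cubic has no nonconstant point over a rational function field. -/
theorem isAlgebraic_of_rel (n : ℕ) {a b : RatField n} (h : 1 + a ^ 3 + b ^ 3 = 0) :
    IsAlgebraic ℂ a := by
  by_cases ha : a = 0
  · rw [ha]
    exact isAlgebraic_zero
  by_cases hb : b = 0
  · rw [hb] at h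
    have h1 : IsAlgebraic ℂ (a ^ 3) := by
      have : a ^ 3 = algebraMap ℂ (RatField n) (-1) := by
        rw [map_neg, map_one]
        linear_combination h
      rw [this]
      exact isAlgebraic_algebraMap _
    exact h1.of_pow (by norm_num)
  obtain ⟨A, D, hD, rfl⟩ := IsFractionRing.div_surjective (A := MvPolynomial (Fin n) ℂ) a
  obtain ⟨B, E, hE, rfl⟩ := IsFractionRing.div_surjective (A := MvPolynomial (Fin n) ℂ) b
  have hD0 : D ≠ 0 := nonZeroDivisors.ne_zero hD
  have hE0 : E ≠ 0 := nonZeroDivisors.ne_zero hE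
  have hinj := IsFractionRing.injective (MvPolynomial (Fin n) ℂ) (RatField n)
  have hDF : algebraMap (MvPolynomial (Fin n) ℂ) (RatField n) D ≠ 0 :=
    fun h => hD0 (hinj (by rw [h, map_zero]))
  have hEF : algebraMap (MvPolynomial (Fin n) ℂ) (RatField n) E ≠ 0 :=
    fun h => hE0 (hinj (by rw [h, map_zero]))
  have hA0 : A ≠ 0 := by
    rintro rfl
    simp at ha
  have hB0 : B ≠ 0 := by
    rintro rfl
    simp at hb
  have h4 : (A * E) ^ 3 + (B * D) ^ 3 = (-(D * E)) ^ 3 := by
    apply hinj
    rw [map_add, map_pow, map_pow, map_pow, map_mul, map_mul, map_neg, map_mul]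
    field_simp at h
    linear_combination h
  obtain ⟨z, hz⟩ := flt_mvPolynomial n (A * E) (B * D) (-(D * E)) (mul_ne_zero hA0 hE0)
    (mul_ne_zero hB0 hD0) (neg_ne_zero.2 (mul_ne_zero hD0 hE0)) h4
  have hz' : A = MvPolynomial.C (-z) * D := by
    have : A * E = (MvPolynomial.C (-z) * D) * E := by
      rw [hz, map_neg]
      ring
    exact mul_right_cancel₀ hE0 this
  have : algebraMap (MvPolynomial (Fin n) ℂ) (RatField n) A /
      algebraMap (MvPolynomial (Fin n) ℂ) (RatField n) D = algebraMap ℂ (RatField n) (-z) := by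
    rw [hz', map_mul, mul_div_assoc, div_self hDF, mul_one,
      IsScalarTower.algebraMap_apply ℂ (MvPolynomial (Fin n) ℂ) (RatField n)]
    rfl
  rw [this]
  exact isAlgebraic_algebraMap _

theorem Coord.not_rational (c : Coord K) (n : ℕ) (σ : RatField n ≃ₐ[ℂ] K) : False := by
  have h : 1 + (σ.symm c.a) ^ 3 + (σ.symm c.b) ^ 3 = 0 := by
    have := congrArg σ.symm c.rel
    simpa using this
  have h2 := isAlgebraic_of_rel n h
  have h3 : IsAlgebraic ℂ c.a := by
    have := h2.algHom (σ : RatField n →ₐ[ℂ] K)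
    simpa using this
  have h4 := c.indep.transcendental 0
  exact h4 (by simpa using h3)

end Pool.Agent.Helper94.LCY
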