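import Pool.Agent.Helper94.LCY.Gauss
import Pool.Agent.Helper94.LCY.FormsBasic

/-!
# The prime divisors of the cone, its boundary, and the divisor of the form `ω`
-/

noncomputable section

open Classical

namespace Pool.Agent.Helper94.LCY

variable {K : Type} [Field K] [Algebra ℂ K]

namespace Coord

variable (c : Coord K)

/-- The coordinate ring of the affine cone is contained in `ℂ[a, b, p, 1/q]`. -/
theorem chart_none_le : c.X.chart none ≤ c.qinv.A := by
  apply Algebra.adjoin_le
  rintro _ ⟨o, rfl⟩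
  have ha : c.a ∈ c.qinv.A := Algebra.subset_adjoin (by simp [qinv])
  have hb : c.b ∈ c.qinv.A := Algebra.subset_adjoin (by simp [qinv])
  have hp : c.p ∈ c.qinv.A := Algebra.subset_adjoin (by simp [qinv])
  have hq : 1 / c.q ∈ c.qinv.A := Algebra.subset_adjoin (by simp [qinv])
  cases o with
  | none =>
    change c.q / c.q ∈ _
    rw [div_self c.q_ne]
    exact one_mem _
  | some ej =>
    change (c.m ej.1 * c.n ej.2) / c.q ∈ _
    rw [div_eq_mul_one_div]
    refine mul_mem (mul_mem ?_ ?_) hq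
    · obtain ⟨e, j⟩ := ej
      fin_cases e
      · exact one_mem _
      · exact ha
      · exact hb
    · obtain ⟨e, j⟩ := ej
      fin_cases j
      · exact one_mem _
      · exact hp

/-- `q = ∞` is the generic point of the exceptional divisor of the blow up of the vertex. -/
theorem chart_none_le_Vq : (c.X.chart none).toSubring ≤ c.qinv.Vq.toSubring :=
  fun _ hx => c.qinv.isLocOf_Vq.1 (c.chart_none_le hx)

/-- The homogeneous maximal ideal of the coordinate ring of the affine cone. -/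
def vertexIdeal : Ideal (c.X.chart none).toSubring :=
  (IsLocalRing.maximalIdeal c.qinv.Vq).comap (Subring.inclusion c.chart_none_le_Vq)

instance : c.vertexIdeal.IsPrime := by
  unfold vertexIdeal
  infer_instance

theorem mem_vertexIdeal (x : (c.X.chart none).toSubring) :
    x ∈ c.vertexIdeal ↔ c.qinv.Vq.valuation (x : K) < 1 :=
  c.qinv.Vq.valuation_lt_one_iff ⟨x, c.chart_none_le_Vq x.2⟩

/-- The vertex of the cone. -/
def vertex : LocalSubring K := LocalSubring.ofPrime (c.X.chart none).toSubring c.vertexIdeal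

theorem isPoint_vertex : c.X.IsPoint c.vertex := ⟨none, c.X_x_ne none, c.vertexIdeal, inferInstance, rfl⟩

theorem m_mem_K₀ (e : Fin 3) : c.m e ∈ c.K₀ := by
  fin_cases e
  · exact one_mem _
  · exact IntermediateField.subset_adjoin _ _ (by simp [m])
  · exact IntermediateField.subset_adjoin _ _ (by simp [m])

theorem n_mem_K₀ (j : Fin 2) : c.n j ∈ c.K₀ := by
  fin_cases j
  · exact one_mem _
  · exact IntermediateField.subset_adjoin _ _ (by simp [n])

theorem mn_div_mem (e e' : Fin 3) (j j' : Fin 2) :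
    (c.m e' * c.n j') / (c.m e * c.n j) ∈ (c.ch e j).D := by
  have ha : (c.ch e j).a ∈ (c.ch e j).D := Algebra.subset_adjoin (by simp)
  have hb : (c.ch e j).b ∈ (c.ch e j).D := Algebra.subset_adjoin (by simp)
  have hp : (c.ch e j).p ∈ (c.ch e j).D := Algebra.subset_adjoin (by simp)
  rw [mul_div_mul_comm]
  apply mul_mem
  · have h := c.m_div_mem e e'
    rw [← c.ch_a e j, ← c.ch_b e j] at h
    rcases h with h | h | h
    · rw [h]; exact one_mem _
    · rw [h]; exact ha
    · rw [h]; exact hb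
  · have h := c.n_div_mem e j j'
    rcases h with h | h
    · rw [h]; exact one_mem _
    · rw [h]; exact hp

/-- The elements of the coordinate ring of the cone are polynomials in `1/q` with constant term
in `ℂ` and `i`-th coefficient in `(m e * n j) ^ i * ℂ[a', b', p']` for all six charts. -/
theorem exists_polynomial_of_mem {x : K} (hx : x ∈ c.X.chart none) :
    ∃ Γ : Polynomial c.K₀, x = Polynomial.aeval (1 / c.q) Γ ∧
      (∃ z : ℂ, (Γ.coeff 0 : K) = algebraMap ℂ K z) ∧
      ∀ (i : ℕ) (e : Fin 3) (j : Fin 2), (Γ.coeff i : K) / (c.m e * c.n j) ^ i ∈ (c.ch e j).D := by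
  have hmn : ∀ e j, c.m e * c.n j ≠ 0 := fun e j => mul_ne_zero (c.m_ne e) (c.n_ne j)
  induction hx using Algebra.adjoin_induction with
  | mem x hx =>
    obtain ⟨o, rfl⟩ := hx
    cases o with
    | none =>
      refine ⟨1, ?_, ⟨1, by simp⟩, ?_⟩
      · change c.q / c.q = _
        rw [div_self c.q_ne, map_one]
      · intro i e j
        rw [Polynomial.coeff_one]
        split_ifs with h
        · subst h
          simp
        · simp
    | some ej =>
      refine ⟨Polynomial.C ⟨c.m ej.1 * c.n ej.2, mul_mem (c.m_mem_K₀ _) (c.n_mem_K₀ _)⟩ *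
        Polynomial.X, ?_, ⟨0, by simp⟩, ?_⟩
      · change (c.m ej.1 * c.n ej.2) / c.q = _
        rw [map_mul, Polynomial.aeval_X, Polynomial.aeval_C, div_eq_mul_one_div]
        rfl
      · intro i e j
        rw [Polynomial.coeff_C_mul, Polynomial.coeff_X]
        split_ifs with h
        · subst h
          simpa using c.mn_div_mem e ej.1 j ej.2
        · simp
  | algebraMap z =>
    refine ⟨Polynomial.C (algebraMap ℂ c.K₀ z), ?_, ⟨z, by simp⟩, ?_⟩
    · rw [Polynomial.aeval_C]
      rfl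
    · intro i e j
      rw [Polynomial.coeff_C]
      split_ifs with h
      · subst h
        rw [pow_zero, div_one]
        exact algebraMap_mem _ z
      · simp
  | add x y _ _ hx hy =>
    obtain ⟨Γ, rfl, ⟨z, hz⟩, h1⟩ := hx
    obtain ⟨Δ, rfl, ⟨w, hw⟩, h2⟩ := hy
    refine ⟨Γ + Δ, by rw [map_add], ⟨z + w, ?_⟩, ?_⟩
    · rw [Polynomial.coeff_add, map_add, ← hz, ← hw]
      rfl
    · intro i e j
      rw [Polynomial.coeff_add]
      have := add_mem (h1 i e j) (h2 i e j)
      rw [← add_div] at this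
      exact this
  | mul x y _ _ hx hy =>
    obtain ⟨Γ, rfl, ⟨z, hz⟩, h1⟩ := hx
    obtain ⟨Δ, rfl, ⟨w, hw⟩, h2⟩ := hy
    refine ⟨Γ * Δ, by rw [map_mul], ⟨z * w, ?_⟩, ?_⟩
    · rw [Polynomial.mul_coeff_zero, map_mul, ← hz, ← hw]
      rfl
    · intro i e j
      rw [Polynomial.coeff_mul]
      have : (((∑ x ∈ Finset.HasAntidiagonal.antidiagonal i, Γ.coeff x.1 * Δ.coeff x.2 : c.K₀) : K)) /
          (c.m e * c.n j) ^ i = ∑ x ∈ Finset.HasAntidiagonal.antidiagonal i,
            ((Γ.coeff x.1 : K) / (c.m e * c.n j) ^ x.1) *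
              ((Δ.coeff x.2 : K) / (c.m e * c.n j) ^ x.2) := by
        rw [AddSubmonoidClass.coe_finsetSum, Finset.sum_div]
        refine Finset.sum_congr rfl fun x hx => ?_
        rw [← Finset.HasAntidiagonal.mem_antidiagonal.1 hx, pow_add, div_mul_div_comm]
        rfl
      rw [this]
      exact sum_mem fun x _ => mul_mem (h1 x.1 e j) (h2 x.2 e j)

/-- An element of the coordinate ring of the affine cone is in the ideal of the vertex if and
only if its constant term vanishes. -/
theorem mem_vertexIdeal_iff {Γ : Polynomial c.K₀}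
    (hx : Polynomial.aeval (1 / c.q) Γ ∈ (c.X.chart none).toSubring) :
    (⟨_, hx⟩ : (c.X.chart none).toSubring) ∈ c.vertexIdeal ↔ Γ.coeff 0 = 0 := by
  rw [mem_vertexIdeal, ← Polynomial.X_dvd_iff]
  exact gaussV_lt_one_iff c.qinv.isGen_q Polynomial.X Polynomial.irreducible_X Γ

theorem notMem_vertex_aux {y : c.K₀} (hy : Transcendental ℂ (y : K)) :
    (y : K) ∉ c.vertex.toSubring := by
  intro hmem
  obtain ⟨g, h, hh, e⟩ := (mem_ofPrime _ _ _).1 hmem
  obtain ⟨Γ, hΓ, ⟨z, hz⟩, -⟩ := c.exists_polynomial_of_mem g.2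
  obtain ⟨Δ, hΔ, ⟨w, hw⟩, -⟩ := c.exists_polynomial_of_mem h.2
  have h0 : (h : K) ≠ 0 := by
    intro h0
    apply hh
    have : h = 0 := Subtype.ext h0
    rw [this]
    exact zero_mem _
  have hΔ0 : Δ.coeff 0 ≠ 0 := by
    intro h1
    apply hh
    have h2 : Polynomial.aeval (1 / c.q) Δ ∈ (c.X.chart none).toSubring := by
      rw [← hΔ]
      exact h.2
    have h3 := (c.mem_vertexIdeal_iff h2).2 h1
    have h4 : h = ⟨_, h2⟩ := Subtype.ext hΔ
    rw [h4]
    exact h3
  rw [eq_div_iff h0] at e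
  have e2 : Polynomial.aeval (1 / c.q) (Polynomial.C y * Δ - Γ) = 0 := by
    rw [map_sub, map_mul, Polynomial.aeval_C, ← hΔ, ← hΓ]
    change (y : K) * h - g = 0
    rw [e, sub_self]
  have e3 : Polynomial.C y * Δ - Γ = 0 := (transcendental_iff.1 c.qinv.isGen_q.tr) _ e2
  have e4 : y * Δ.coeff 0 = Γ.coeff 0 := by
    have := congrArg (fun P => P.coeff 0) (sub_eq_zero.1 e3)
    simpa using this
  have hw0 : w ≠ 0 := by
    rintro rfl
    apply hΔ0
    apply Subtype.ext
    rw [hw, map_zero]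
    rfl
  apply hy
  have e5 : (y : K) * algebraMap ℂ K w = algebraMap ℂ K z := by
    rw [← hz, ← hw, ← e4]
    rfl
  have hw1 : algebraMap ℂ K w ≠ 0 := (map_ne_zero _).2 hw0
  have e6 : (y : K) = algebraMap ℂ K (z / w) := by
    rw [map_div₀, eq_div_iff hw1, e5]
  rw [e6]
  exact isAlgebraic_algebraMap _

theorem p_transcendental : Transcendental ℂ c.p := c.indep.transcendental 1

/-- The local ring at the vertex is not a valuation ring: neither `p` nor `1/p` is in it. -/
theorem p_notMem_vertex : c.p ∉ c.vertex.toSubring ∧ 1 / c.p ∉ c.vertex.toSubring := by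
  have hp : c.p ∈ c.K₀ := IntermediateField.subset_adjoin _ _ (by simp)
  constructor
  · exact c.notMem_vertex_aux (y := ⟨c.p, hp⟩) c.p_transcendental
  · refine c.notMem_vertex_aux (y := ⟨1 / c.p, div_mem (one_mem _) hp⟩) ?_
    exact c.pinv.p_transcendental

/-- Elements of the coordinate ring of the cone have a pole only along `q = 0` in the chart
`(e, j)`. -/
theorem exists_mul_pow_mem {x : K} (hx : x ∈ c.X.chart none) (e : Fin 3) (j : Fin 2) :
    ∃ N : ℕ, ∀ M ≥ N, x * (c.ch e j).q ^ M ∈ (c.ch e j).A := by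
  have hq : (c.ch e j).q ∈ (c.ch e j).A := Algebra.subset_adjoin (by simp)
  have hmn : c.m e * c.n j ≠ 0 := mul_ne_zero (c.m_ne e) (c.n_ne j)
  induction hx using Algebra.adjoin_induction with
  | mem x hx =>
    obtain ⟨o, rfl⟩ := hx
    cases o with
    | none =>
      refine ⟨0, fun M _ => ?_⟩
      change c.q / c.q * _ ∈ _
      rw [div_self c.q_ne, one_mul]
      exact pow_mem hq M
    | some ej =>
      refine ⟨1, fun M hM => ?_⟩
      obtain ⟨M, rfl⟩ := Nat.exists_eq_add_of_le hM
      change (c.m ej.1 * c.n ej.2) / c.q * _ ∈ _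
      have h1 : (c.m ej.1 * c.n ej.2) / c.q * (c.ch e j).q ^ (1 + M) =
          (c.m ej.1 * c.n ej.2) / (c.m e * c.n j) * (c.ch e j).q ^ M := by
        rw [pow_add, pow_one, c.ch_q e j]
        have := c.q_ne
        field_simp
      rw [h1]
      refine mul_mem ?_ (pow_mem hq M)
      exact Algebra.adjoin_mono (by
        intro x hx
        simp only [Set.mem_insert_iff, Set.mem_singleton_iff] at hx ⊢
        tauto) (c.mn_div_mem e ej.1 j ej.2)
  | algebraMap z =>
    exact ⟨0, fun M _ => mul_mem (algebraMap_mem _ z) (pow_mem hq M)⟩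
  | add x y _ _ hx hy =>
    obtain ⟨N1, h1⟩ := hx
    obtain ⟨N2, h2⟩ := hy
    refine ⟨N1 + N2, fun M hM => ?_⟩
    rw [add_mul]
    exact add_mem (h1 M (by omega)) (h2 M (by omega))
  | mul x y _ _ hx hy =>
    obtain ⟨N1, h1⟩ := hx
    obtain ⟨N2, h2⟩ := hy
    refine ⟨N1 + N2, fun M hM => ?_⟩
    have : x * y * (c.ch e j).q ^ M =
        (x * (c.ch e j).q ^ N1) * (y * (c.ch e j).q ^ (M - N1)) := by
      have : (c.ch e j).q ^ M = (c.ch e j).q ^ N1 * (c.ch e j).q ^ (M - N1) := by
        rw [← pow_add]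
        congr 1
        omega
      rw [this]
      ring
    rw [this]
    exact mul_mem (h1 N1 le_rfl) (h2 _ (by omega))

/-- If all the coordinates vanish at the centre of `v` then it contains the vertex ideal. -/
theorem lt_one_of_mem_vertexIdeal {v : ValuationSubring K}
    (hC : ∀ z : ℂ, algebraMap ℂ K z ∈ v)
    (hy : ∀ e j, v.valuation ((c.m e * c.n j) / c.q) < 1)
    {x : K} (hx : x ∈ c.X.chart none) (hx1 : c.qinv.Vq.valuation x < 1) :
    v.valuation x < 1 := by
  have hC' : ∀ z : ℂ, algebraMap ℂ K z ∈ c.qinv.Vq := fun z =>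
    c.qinv.isLocOf_Vq.1 (algebraMap_mem c.qinv.A z)
  have key : ∃ z : ℂ, v.valuation (x - algebraMap ℂ K z) < 1 ∧
      c.qinv.Vq.valuation (x - algebraMap ℂ K z) < 1 := by
    clear hx1
    have hle : ∀ y ∈ c.X.chart none, y ∈ v ∧ y ∈ c.qinv.Vq := by
      intro y hy'
      refine ⟨?_, c.chart_none_le_Vq hy'⟩
      induction hy' using Algebra.adjoin_induction with
      | mem y hy' =>
        obtain ⟨o, rfl⟩ := hy'
        cases o with
        | none =>
          change c.q / c.q ∈ _
          rw [div_self c.q_ne]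
          exact v.one_mem
        | some ej => exact (v.valuation_le_one_iff _).1 (hy ej.1 ej.2).le
      | algebraMap z => exact hC z
      | add y z _ _ h1 h2 => exact v.add_mem _ _ h1 h2
      | mul y z _ _ h1 h2 => exact v.mul_mem _ _ h1 h2
    induction hx using Algebra.adjoin_induction with
    | mem x hx =>
      obtain ⟨o, rfl⟩ := hx
      cases o with
      | none =>
        refine ⟨1, ?_⟩
        change v.valuation (c.q / c.q - _) < 1 ∧ _
        rw [div_self c.q_ne, map_one, sub_self, map_zero]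
        refine ⟨zero_lt_one, ?_⟩
        change c.qinv.Vq.valuation (c.q / c.q - _) < 1
        rw [div_self c.q_ne, sub_self, map_zero]
        exact zero_lt_one
      | some ej =>
        refine ⟨0, ?_⟩
        rw [map_zero, sub_zero]
        refine ⟨hy ej.1 ej.2, ?_⟩
        change c.qinv.Vq.valuation ((c.m ej.1 * c.n ej.2) / c.q) < 1
        have h1 : (c.m ej.1 * c.n ej.2) / c.q = Polynomial.aeval c.qinv.q
            (Polynomial.C (⟨c.m ej.1 * c.n ej.2, mul_mem (c.m_mem_K₀ _) (c.n_mem_K₀ _)⟩ : c.K₀) *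
              Polynomial.X) := by
          rw [map_mul, Polynomial.aeval_X, Polynomial.aeval_C, div_eq_mul_one_div]
          rfl
        rw [h1]
        exact (gaussV_lt_one_iff c.qinv.isGen_q Polynomial.X Polynomial.irreducible_X _).2
          (Dvd.intro_left _ rfl)
    | algebraMap z =>
      refine ⟨z, ?_⟩
      rw [sub_self, map_zero, map_zero]
      exact ⟨zero_lt_one, zero_lt_one⟩
    | add x y _ _ h1 h2 =>
      obtain ⟨z, h1, h1'⟩ := h1
      obtain ⟨w, h2, h2'⟩ := h2
      refine ⟨z + w, ?_⟩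
      have : x + y - algebraMap ℂ K (z + w) =
          (x - algebraMap ℂ K z) + (y - algebraMap ℂ K w) := by rw [map_add]; ring
      rw [this]
      exact ⟨Valuation.map_add_lt _ h1 h2, Valuation.map_add_lt _ h1' h2'⟩
    | mul x y hx' hy' h1 h2 =>
      obtain ⟨z, h1, h1'⟩ := h1
      obtain ⟨w, h2, h2'⟩ := h2
      refine ⟨z * w, ?_⟩
      have : x * y - algebraMap ℂ K (z * w) =
          (x - algebraMap ℂ K z) * y + algebraMap ℂ K z * (y - algebraMap ℂ K w) := by
        rw [map_mul]; ring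
      rw [this]
      constructor
      · refine Valuation.map_add_lt _ ?_ ?_
        · rw [map_mul]
          exact (mul_le_of_le_one_right' ((v.valuation_le_one_iff _).2 (hle y hy').1)).trans_lt h1
        · rw [map_mul]
          exact (mul_le_of_le_one_left' ((v.valuation_le_one_iff _).2 (hC z))).trans_lt h2
      · refine Valuation.map_add_lt _ ?_ ?_
        · rw [map_mul]
          exact (mul_le_of_le_one_right'
            ((c.qinv.Vq.valuation_le_one_iff _).2 (hle y hy').2)).trans_lt h1'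
        · rw [map_mul]
          exact (mul_le_of_le_one_left'
            ((c.qinv.Vq.valuation_le_one_iff _).2 (hC' z))).trans_lt h2'
  obtain ⟨z, h1, h2⟩ := key
  have h3 : c.qinv.Vq.valuation (algebraMap ℂ K z) < 1 := by
    have : algebraMap ℂ K z = x - (x - algebraMap ℂ K z) := by ring
    rw [this]
    exact (Valuation.map_sub _ _ _).trans_lt (max_lt hx1 h2)
  have h4 : z = 0 := by
    by_contra hz
    have h5 : (algebraMap ℂ K z)⁻¹ ∈ c.qinv.Vq := by
      rw [← map_inv₀]
      exact hC' _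
    have h6 := (c.qinv.Vq.valuation_le_one_iff _).2 h5
    rw [map_inv₀, inv_le_one₀] at h6
    · exact absurd h3 (not_lt.2 h6)
    · rw [zero_lt_iff]
      exact (Valuation.ne_zero_iff _).2 ((map_ne_zero _).2 hz)
  rw [h4, map_zero, sub_zero] at h1
  exact h1

/-- Every prime divisor meets one of the six charts `(e, j)`. -/
theorem exists_chart (P : c.X.PrimeDiv) :
    ∃ e j, IsLocOf (c.ch e j).A.toSubring P.dvr := by
  obtain ⟨o, ho, hP⟩ := (isPoint_iff c.X P.dvr).1 P.2.1
  cases o with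
  | some ej =>
    refine ⟨ej.1, ej.2, ?_⟩
    rw [← c.chart_some ej.1 ej.2]
    exact hP
  | none =>
    have hC : ∀ z : ℂ, algebraMap ℂ K z ∈ P.dvr := fun z =>
      hP.1 (algebraMap_mem (c.X.chart none) z)
    have hmem : ∀ e j, (c.m e * c.n j) / c.q ∈ P.dvr := fun e j =>
      hP.1 (Algebra.subset_adjoin ⟨some (e, j), rfl⟩)
    have hex : ∃ e j, P.dvr.valuation ((c.m e * c.n j) / c.q) = 1 := by
      by_contra hcon
      push Not at hcon
      have hy : ∀ e j, P.dvr.valuation ((c.m e * c.n j) / c.q) < 1 := fun e j =>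
        lt_of_le_of_ne ((P.dvr.valuation_le_one_iff _).2 (hmem e j)) (hcon e j)
      have hle : ∀ f ∈ P.dvr, f ∈ c.vertex.toSubring := by
        intro f hf
        obtain ⟨g, hg, h, hh, hh1, rfl⟩ := hP.2 f hf
        refine (mem_ofPrime _ _ _).2 ⟨⟨g, hg⟩, ⟨h, hh⟩, ?_, rfl⟩
        intro hmem
        rw [mem_vertexIdeal] at hmem
        exact (c.lt_one_of_mem_vertexIdeal hC hy hh hmem).ne hh1
      rcases P.dvr.mem_or_inv_mem c.p with h | h
      · exact c.p_notMem_vertex.1 (hle _ h)
      · rw [inv_eq_one_div] at h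
        exact c.p_notMem_vertex.2 (hle _ h)
    obtain ⟨e, j, hy⟩ := hex
    refine ⟨e, j, ?_⟩
    have hQ : (c.ch e j).q = ((c.m e * c.n j) / c.q)⁻¹ := by
      rw [c.ch_q e j, inv_div]
    have hQ1 : P.dvr.valuation (c.ch e j).q = 1 := by
      rw [hQ, map_inv₀, hy, inv_one]
    have hmn : c.m e * c.n j ≠ 0 := mul_ne_zero (c.m_ne e) (c.n_ne j)
    refine ⟨?_, ?_⟩
    · rw [← c.chart_some e j]
      have : ∀ x ∈ c.X.chart (some (e, j)), x ∈ P.dvr := by
        intro x hx
        induction hx using Algebra.adjoin_induction with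
        | mem x hx =>
          obtain ⟨o, rfl⟩ := hx
          have h1 : c.X.x o / c.q ∈ P.dvr := hP.1 (Algebra.subset_adjoin ⟨o, rfl⟩)
          have h2 : c.X.x o / c.X.x (some (e, j)) = c.X.x o / c.q * (c.ch e j).q := by
            change _ / (c.m e * c.n j) = _
            rw [c.ch_q e j]
            have := c.q_ne
            field_simp
          change c.X.x o / c.X.x (some (e, j)) ∈ _
          rw [h2]
          exact P.dvr.mul_mem _ _ h1 ((P.dvr.valuation_le_one_iff _).1 hQ1.le)
        | algebraMap z => exact hC z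
        | add y z _ _ h1 h2 => exact P.dvr.add_mem _ _ h1 h2
        | mul y z _ _ h1 h2 => exact P.dvr.mul_mem _ _ h1 h2
      exact this
    · intro f hf
      obtain ⟨g, hg, h, hh, hh1, rfl⟩ := hP.2 f hf
      obtain ⟨N1, h1⟩ := c.exists_mul_pow_mem hg e j
      obtain ⟨N2, h2⟩ := c.exists_mul_pow_mem hh e j
      refine ⟨g * (c.ch e j).q ^ (N1 + N2), h1 _ (by omega), h * (c.ch e j).q ^ (N1 + N2),
        h2 _ (by omega), ?_, ?_⟩
      · rw [map_mul, map_pow, hQ1, hh1, one_pow, one_mul]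
      · rw [mul_div_mul_right]
        exact pow_ne_zero _ (c.ch e j).q_ne

/-- A discrete valuation ring which is a localization of one of the six charts is a prime
divisor. -/
def mkDiv (e : Fin 3) (j : Fin 2) (v : ValuationSubring K) [h : IsDiscreteValuationRing v]
    (hv : IsLocOf (c.ch e j).A.toSubring v) : c.X.PrimeDiv :=
  ⟨v, (isPoint_iff c.X v).2 ⟨some (e, j), c.X_x_ne _, by rw [c.chart_some e j]; exact hv⟩, h⟩

theorem ch_zero_zero : c.ch 0 0 = c := rfl

theorem ch_zero_one : c.ch 0 1 = c.pinv := rfl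

/-- The cone over `E x {0}`. -/
def P0 : c.X.PrimeDiv := c.mkDiv 0 0 c.Vp c.isLocOf_Vp

/-- The cone over `E x {∞}`. -/
def Pinf : c.X.PrimeDiv := c.mkDiv 0 1 c.pinv.Vp c.pinv.isLocOf_Vp

/-- The section at infinity `E x ℙ^1`. -/
def Pw : c.X.PrimeDiv := c.mkDiv 0 0 c.Vq c.isLocOf_Vq

theorem ch_Vq (e : Fin 3) (j : Fin 2) : (c.ch e j).Vq = c.Vq := by
  have h : (c.eCoord e).Vq = c.Vq := by
    fin_cases e
    · rfl
    · exact c.inv_Vq
    · exact (c.swap.inv_Vq).trans c.swap_Vq
  fin_cases j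
  · exact h
  · exact ((c.eCoord e).pinv_Vq).trans h

theorem ch_Vp_zero (e : Fin 3) : (c.ch e 0).Vp = c.Vp := by
  fin_cases e
  · rfl
  · exact c.inv_Vp
  · exact (c.swap.inv_Vp).trans c.swap_Vp

theorem ext' {c d : Coord K} (ha : c.a = d.a) (hb : c.b = d.b) (hp : c.p = d.p)
    (hq : c.q = d.q) : c = d := by
  cases c
  cases d
  simp only at ha hb hp hq
  subst ha hb hp hq
  rfl

theorem inv_pinv : c.inv.pinv = c.pinv.inv := by
  refine ext' rfl rfl rfl ?_
  change c.q / c.a / c.p = c.q / c.p / c.a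
  rw [div_div, div_div, mul_comm]

theorem swap_pinv : c.swap.pinv = c.pinv.swap := ext' rfl rfl rfl rfl

theorem ch_Vp_one (e : Fin 3) : (c.ch e 1).Vp = c.pinv.Vp := by
  fin_cases e
  · rfl
  · change c.inv.pinv.Vp = _
    rw [inv_pinv, inv_Vp]
  · change c.swap.inv.pinv.Vp = _
    rw [inv_pinv, inv_Vp, swap_pinv, swap_Vp]

theorem dvr_injective {P Q : c.X.PrimeDiv} (h : P.dvr = Q.dvr) : P = Q := Subtype.ext h

/-- The order of `q / (m e * n j)` along a prime divisor of the chart `(e, j)`. -/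
theorem ord_ch_q {P : c.X.PrimeDiv} {e : Fin 3} {j : Fin 2}
    (h : IsLocOf (c.ch e j).A.toSubring P.dvr) :
    ord P.dvr (c.ch e j).q = if P = c.Pw then 1 else 0 := by
  split_ifs with hP
  · rw [hP]
    change ord c.Vq _ = 1
    rw [← c.ch_Vq e j]
    exact (c.ch e j).ord_Vq_q
  · refine (c.ch e j).ord_q_eq h fun h1 => hP (c.dvr_injective ?_)
    rw [h1, ch_Vq]
    rfl

theorem ord_P0_p : ord c.P0.dvr c.p = 1 := c.ord_Vp_p

theorem ord_Pinf_p : ord c.Pinf.dvr c.p = -1 := by
  have h : ord c.Pinf.dvr (1 / c.p) = 1 := c.pinv.ord_Vp_p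
  rw [one_div, ord_inv c.p_ne] at h
  omega

theorem ord_Pw_p : ord c.Pw.dvr c.p = 0 := c.ord_Vq_p

theorem P0_ne_Pinf : c.P0 ≠ c.Pinf := by
  intro h
  have h1 := c.ord_P0_p
  rw [h, ord_Pinf_p] at h1
  omega

theorem P0_ne_Pw : c.P0 ≠ c.Pw := by
  intro h
  have h1 := c.ord_P0_p
  rw [h, ord_Pw_p] at h1
  omega

theorem Pinf_ne_Pw : c.Pinf ≠ c.Pw := by
  intro h
  have h1 := c.ord_Pinf_p
  rw [h, ord_Pw_p] at h1
  omega

theorem ord_ch_p {P : c.X.PrimeDiv} {e : Fin 3} {j : Fin 2}
    (h : IsLocOf (c.ch e j).A.toSubring P.dvr) :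
    ord P.dvr (c.ch e j).p = (if P = c.P0 then 1 else 0) + (if P = c.Pinf then 1 else 0) := by
  have hnn : 0 ≤ ord P.dvr (c.ch e j).p :=
    (ord_nonneg_iff (c.ch e j).p_ne).2 (h.1 (Algebra.subset_adjoin (by simp)))
  fin_cases j
  · change ord P.dvr (c.ch e 0).p = _
    change 0 ≤ ord P.dvr (c.ch e 0).p at hnn
    rw [c.ch_p_zero e] at hnn ⊢
    have h1 : P ≠ c.Pinf := by
      rintro rfl
      rw [ord_Pinf_p] at hnn
      omega
    rw [if_neg h1, add_zero]
    split_ifs with hP
    · rw [hP]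
      exact c.ord_P0_p
    · rw [← c.ch_p_zero e]
      refine (c.ch e 0).ord_p_eq h fun h2 => hP (c.dvr_injective ?_)
      rw [h2, ch_Vp_zero]
      rfl
  · change ord P.dvr (c.ch e 1).p = _
    change 0 ≤ ord P.dvr (c.ch e 1).p at hnn
    rw [c.ch_p_one e] at hnn ⊢
    have h1 : P ≠ c.P0 := by
      rintro rfl
      rw [one_div, ord_inv c.p_ne, ord_P0_p] at hnn
      omega
    rw [if_neg h1, zero_add]
    split_ifs with hP
    · rw [hP]
      exact c.pinv.ord_Vp_p
    · rw [← c.ch_p_one e]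
      refine (c.ch e 1).ord_p_eq h fun h2 => hP (c.dvr_injective ?_)
      rw [h2, ch_Vp_one]
      rfl

/-- The boundary: the three prime divisors `P0, Pinf, Pw`. -/
def B (P : c.X.PrimeDiv) : ℚ := if P = c.P0 ∨ P = c.Pinf ∨ P = c.Pw then 1 else 0

/-- `div ω = - B`. -/
theorem hasOrdForm_B (P : c.X.PrimeDiv) :
    ∃ k : ℤ, HasOrdForm 3 P.dvr c.form k ∧ (k : ℚ) = - c.B P := by
  obtain ⟨e, j, h⟩ := c.exists_chart P
  refine ⟨- ord P.dvr (c.ch e j).p - ord P.dvr (c.ch e j).q, ?_, ?_⟩
  · have h1 := (c.ch e j).hasOrdForm_form h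
    rcases c.form_ch e j with h2 | h2
    · rw [h2] at h1
      exact h1
    · rw [h2] at h1
      have h3 := h1.neg
      rw [neg_neg] at h3
      exact h3
  · rw [c.ord_ch_p h, c.ord_ch_q h]
    unfold B
    by_cases h1 : P = c.P0
    · rw [h1]
      simp [c.P0_ne_Pinf, c.P0_ne_Pw]
    · by_cases h2 : P = c.Pinf
      · rw [h2]
        simp [c.P0_ne_Pinf.symm, c.Pinf_ne_Pw]
      · by_cases h3 : P = c.Pw
        · rw [h3]
          simp [c.P0_ne_Pw.symm, c.Pinf_ne_Pw.symm]
        · simp [h1, h2, h3]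

end Coord

end Pool.Agent.Helper94.LCY
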