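import Pool.Agent.Helper94.LCY.Cube
import Pool.Agent.Helper94.LCY.Var

/-!
# Normality of the affine cone over `E x ℙ^1`
-/

noncomputable section

namespace Pool.Agent.Helper94.LCY

variable {K : Type} [Field K] [Algebra ℂ K]

/-- Comparing the expansions of `x` and `z * x`. -/
theorem shift_mem {ι : Type} {v : ι → K} (hv : LinearIndependent ℂ v) (l : ι →₀ ℂ) {z : K}
    {shift : ι → ι} (hshift : Function.Injective shift) (hz : ∀ s, z * v s = v (shift s))
    {T : Set ι} (hT : z * Finsupp.linearCombination ℂ v l ∈ Submodule.span ℂ (v '' T)) {s : ι}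
    (hs : s ∈ l.support) : shift s ∈ T := by
  obtain ⟨l', hl', e⟩ := (Finsupp.mem_span_image_iff_linearCombination ℂ).1 hT
  have h1 : z * Finsupp.linearCombination ℂ v l =
      Finsupp.linearCombination ℂ v (l.mapDomain shift) := by
    rw [Finsupp.linearCombination_mapDomain, Finsupp.linearCombination_apply,
      Finsupp.linearCombination_apply, Finsupp.mul_sum]
    refine Finsupp.sum_congr fun t _ => ?_
    rw [mul_smul_comm, hz]
    rfl
  rw [h1] at e
  have h2 : l' = l.mapDomain shift := hv e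
  rw [h2, Finsupp.mem_supported] at hl'
  apply hl'
  rw [Finset.mem_coe, Finsupp.mem_support_iff, Finsupp.mapDomain_apply hshift]
  exact Finsupp.mem_support_iff.1 hs

namespace Coord

variable (c : Coord K)

/-- The monomials `a ^ i * p ^ l * (1 / q) ^ k * b ^ j`. -/
def monN (i l k j : ℕ) : K := c.a ^ i * c.p ^ l * (1 / c.q) ^ k * c.b ^ j

/-- The basis of `ℂ[a, b, p, 1/q]`. -/
def mon (s : (ℕ × ℕ × ℕ) × Fin 3) : K := c.monN s.1.1 s.1.2.1 s.1.2.2 s.2

theorem monN_mul (i l k j i' l' k' j' : ℕ) : c.monN i l k j * c.monN i' l' k' j' =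
    c.monN (i + i') (l + l') (k + k') (j + j') := by
  unfold monN
  ring

theorem linearIndependent_mon : LinearIndependent ℂ c.mon := by
  have hv := c.qinv.indep
  set v : Fin 3 → K := ![c.qinv.a, c.qinv.p, c.qinv.q] with hvdef
  set L := IntermediateField.adjoin ℂ (Set.range v) with hL
  have hvL : ∀ i, v i ∈ L := fun i => IntermediateField.subset_adjoin _ _ ⟨i, rfl⟩
  have ha : c.a ∈ L := hvL 0
  have hp : c.p ∈ L := hvL 1
  have hq : 1 / c.q ∈ L := hvL 2
  let f1 : ℕ × ℕ × ℕ → L := fun n => ⟨c.a ^ n.1 * c.p ^ n.2.1 * (1 / c.q) ^ n.2.2,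
    mul_mem (mul_mem (pow_mem ha _) (pow_mem hp _)) (pow_mem hq _)⟩
  have h1 : LinearIndependent ℂ f1 := by
    have h2 : LinearIndependent ℂ
        (fun s : Fin 3 →₀ ℕ => MvPolynomial.aeval v (MvPolynomial.monomial s (1 : ℂ))) := by
      have h3 := (MvPolynomial.basisMonomials (Fin 3) ℂ).linearIndependent
      rw [MvPolynomial.coe_basisMonomials] at h3
      exact h3.map' (MvPolynomial.aeval v).toLinearMap (LinearMap.ker_eq_bot.2 hv)
    let g : ℕ × ℕ × ℕ → (Fin 3 →₀ ℕ) := fun n => Finsupp.equivFunOnFinite.symm ![n.1, n.2.1, n.2.2]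
    have hg : Function.Injective g := by
      intro n m hnm
      have h3 := Finsupp.equivFunOnFinite.symm.injective hnm
      have e0 := congrFun h3 0
      have e1 := congrFun h3 1
      have e2 := congrFun h3 2
      simp at e0 e1 e2
      exact Prod.ext e0 (Prod.ext e1 e2)
    have h4 := h2.comp g hg
    have h5 : LinearIndependent ℂ (L.val.toLinearMap ∘ f1) := by
      convert h4 using 1
      funext n
      simp only [Function.comp_apply, MvPolynomial.aeval_monomial, map_one, one_mul]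
      rw [Finsupp.prod_fintype _ _ (fun i => pow_zero _), Fin.prod_univ_three]
      simp [g, v, f1, qinv]
    exact LinearIndependent.of_comp _ h5
  have h2 : LinearIndependent L (fun j : Fin 3 => c.b ^ (j : ℕ)) :=
    cube_indep hv 0 c.rel
  exact linearIndependent_smul h1 h2

/-- The span of the monomials with exponents in `T`. -/
def W (T : Set (ℕ × ℕ × ℕ × ℕ)) : Submodule ℂ K :=
  Submodule.span ℂ ((fun s : ℕ × ℕ × ℕ × ℕ => c.monN s.1 s.2.1 s.2.2.1 s.2.2.2) '' T)

theorem monN_mem_W {T : Set (ℕ × ℕ × ℕ × ℕ)} {i l k j : ℕ} (h : (i, l, k, j) ∈ T) :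
    c.monN i l k j ∈ c.W T := Submodule.subset_span ⟨_, h, rfl⟩

theorem mul_mem_W {T T' T'' : Set (ℕ × ℕ × ℕ × ℕ)} (hT : ∀ s ∈ T, ∀ t ∈ T', s + t ∈ T'')
    {x y : K} (hx : x ∈ c.W T) (hy : y ∈ c.W T') : x * y ∈ c.W T'' := by
  have h1 : c.W T * c.W T' ≤ c.W T'' := by
    unfold W
    rw [Submodule.span_mul_span, Submodule.span_le]
    rintro _ ⟨_, ⟨s, hs, rfl⟩, _, ⟨t, ht, rfl⟩, rfl⟩
    change c.monN s.1 s.2.1 s.2.2.1 s.2.2.2 * c.monN t.1 t.2.1 t.2.2.1 t.2.2.2 ∈ _
    rw [monN_mul]
    exact c.monN_mem_W (hT s hs t ht)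
  exact h1 (Submodule.mul_mem_mul hx hy)

theorem reduce_W {T : Set (ℕ × ℕ × ℕ × ℕ)}
    (hT : ∀ i l k j, (i, l, k, j + 3) ∈ T → (i, l, k, j) ∈ T ∧ (i + 3, l, k, j) ∈ T) :
    c.W T ≤ Submodule.span ℂ (c.mon '' {s | (s.1.1, s.1.2.1, s.1.2.2, (s.2 : ℕ)) ∈ T}) := by
  have key : ∀ j i l k, (i, l, k, j) ∈ T → c.monN i l k j ∈
      Submodule.span ℂ (c.mon '' {s | (s.1.1, s.1.2.1, s.1.2.2, (s.2 : ℕ)) ∈ T}) := by
    intro j
    induction j using Nat.strong_induction_on with
    | _ j ih =>
      intro i l k h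
      by_cases hj : j < 3
      · exact Submodule.subset_span ⟨((i, l, k), ⟨j, hj⟩), h, rfl⟩
      · obtain ⟨j, rfl⟩ := Nat.exists_eq_add_of_le' (not_lt.1 hj)
        obtain ⟨h1, h2⟩ := hT i l k j h
        have h3 : c.monN i l k (j + 3) = -(c.monN i l k j) - c.monN (i + 3) l k j := by
          unfold monN
          have := c.rel
          have hb : c.b ^ 3 = -(1 + c.a ^ 3) := by linear_combination this
          rw [pow_add c.b, hb]
          ring
        rw [h3]
        exact sub_mem (neg_mem (ih j (by omega) i l k h1)) (ih j (by omega) (i + 3) l k h2)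
  unfold W
  rw [Submodule.span_le]
  rintro _ ⟨⟨i, l, k, j⟩, h, rfl⟩
  exact key j i l k h

theorem exists_pow_mul_mem {G : Set K} {z : K} {T : ℕ → Set (ℕ × ℕ × ℕ × ℕ)}
    (hmul : ∀ M N, ∀ s ∈ T M, ∀ t ∈ T N, s + t ∈ T (M + N)) (hz : ∀ M, z ^ M ∈ c.W (T M))
    (hG : ∀ g ∈ G, ∃ M, ∀ N ≥ M, z ^ N * g ∈ c.W (T N)) {x : K}
    (hx : x ∈ Algebra.adjoin ℂ G) : ∃ M, ∀ N ≥ M, z ^ N * x ∈ c.W (T N) := by
  induction hx using Algebra.adjoin_induction with
  | mem x hx => exact hG x hx
  | algebraMap y =>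
    refine ⟨0, fun N _ => ?_⟩
    rw [mul_comm, ← Algebra.smul_def]
    exact Submodule.smul_mem _ _ (hz N)
  | add x y _ _ hx hy =>
    obtain ⟨M1, h1⟩ := hx
    obtain ⟨M2, h2⟩ := hy
    refine ⟨M1 + M2, fun N hN => ?_⟩
    rw [mul_add]
    exact add_mem (h1 N (by omega)) (h2 N (by omega))
  | mul x y _ _ hx hy =>
    obtain ⟨M1, h1⟩ := hx
    obtain ⟨M2, h2⟩ := hy
    refine ⟨M1 + M2, fun N hN => ?_⟩
    obtain ⟨N, rfl⟩ := Nat.exists_eq_add_of_le hN
    have h3 : z ^ (M1 + M2 + N) * (x * y) = (z ^ M1 * x) * (z ^ (M2 + N) * y) := by ring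
    rw [h3, add_assoc]
    exact c.mul_mem_W (hmul M1 (M2 + N)) (h1 M1 le_rfl) (h2 _ (by omega))

theorem exists_E (k i j : ℕ) (h : i + j ≤ k + 1) : ∃ e i' j', i' + j' ≤ k ∧
    c.a ^ i * c.b ^ j = c.m e * (c.a ^ i' * c.b ^ j') := by
  rcases i with _ | i
  · rcases j with _ | j
    · exact ⟨0, 0, 0, by omega, by simp [m]⟩
    · exact ⟨2, 0, j, by omega, by simp [m]; ring⟩
  · exact ⟨1, i, j, by omega, by simp [m]; ring⟩

theorem exists_P (k l : ℕ) (h : l ≤ k + 1) : ∃ f l', l' ≤ k ∧ c.p ^ l = c.n f * c.p ^ l' := by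
  rcases l with _ | l
  · exact ⟨0, 0, by omega, by simp [n]⟩
  · exact ⟨1, l, by omega, by simp [n]; ring⟩

theorem monN_mem_chart (k : ℕ) : ∀ i l j, i + j ≤ k → l ≤ k → c.monN i l k j ∈ c.X.chart none := by
  induction k with
  | zero =>
    intro i l j h1 h2
    obtain rfl : i = 0 := by omega
    obtain rfl : j = 0 := by omega
    obtain rfl : l = 0 := by omega
    have : c.monN 0 0 0 0 = 1 := by simp [monN]
    rw [this]
    exact one_mem _
  | succ k ih =>
    intro i l j h1 h2
    obtain ⟨e, i', j', h3, h4⟩ := c.exists_E k i j h1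
    obtain ⟨f, l', h5, h6⟩ := c.exists_P k l h2
    have h7 : c.monN i l (k + 1) j = ((c.m e * c.n f) / c.q) * c.monN i' l' k j' := by
      unfold monN
      have h8 : c.a ^ i * c.p ^ l * (1 / c.q) ^ (k + 1) * c.b ^ j =
          (c.a ^ i * c.b ^ j) * c.p ^ l * (1 / c.q) ^ (k + 1) := by ring
      rw [h8, h4, h6]
      ring
    rw [h7]
    exact mul_mem (Algebra.subset_adjoin ⟨some (e, f), rfl⟩) (ih i' l' j' h3 h5)

/-- The affine cone is contained in the rings `ℂ[a', b', p', 1/q']`. -/
theorem chart_none_le_ch (e : Fin 3) (j : Fin 2) : c.X.chart none ≤ (c.ch e j).qinv.A := by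
  apply Algebra.adjoin_le
  rintro _ ⟨o, rfl⟩
  cases o with
  | none =>
    change c.q / c.q ∈ _
    rw [div_self c.q_ne]
    exact one_mem _
  | some ej =>
    have h1 : (c.m ej.1 * c.n ej.2) / (c.m e * c.n j) ∈ (c.ch e j).qinv.A := by
      have h2 := c.mn_div_mem e ej.1 j ej.2
      refine Algebra.adjoin_mono ?_ h2
      intro x hx
      simp only [Set.mem_insert_iff, Set.mem_singleton_iff] at hx ⊢
      rcases hx with hx | hx | hx
      · left; exact hx
      · right; left; exact hx
      · right; right; left; exact hx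
    have h2 : (c.m e * c.n j) / c.q ∈ (c.ch e j).qinv.A := by
      refine Algebra.subset_adjoin ?_
      simp only [Set.mem_insert_iff, Set.mem_singleton_iff]
      right; right; right
      change _ = 1 / (c.ch e j).q
      rw [c.ch_q e j, one_div_div]
    have h3 : (c.m ej.1 * c.n ej.2) / c.q =
        (c.m ej.1 * c.n ej.2) / (c.m e * c.n j) * ((c.m e * c.n j) / c.q) := by
      rw [div_mul_div_cancel₀]
      exact mul_ne_zero (c.m_ne e) (c.n_ne j)
    change (c.m ej.1 * c.n ej.2) / c.q ∈ _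
    rw [h3]
    exact mul_mem h1 h2

/-- The affine cone is the intersection of three normal rings `ℂ[a', b', p', 1/q']`. -/
theorem mem_chart_none {x : K} (h00 : x ∈ (c.ch 0 0).qinv.A) (h01 : x ∈ (c.ch 0 1).qinv.A)
    (h10 : x ∈ (c.ch 1 0).qinv.A) : x ∈ c.X.chart none := by
  have hred : ∀ T : Set (ℕ × ℕ × ℕ × ℕ), (∀ i l k j, (i, l, k, j + 3) ∈ T →
      (i, l, k, j) ∈ T ∧ (i + 3, l, k, j) ∈ T) → ∀ y ∈ c.W T, y ∈
      Submodule.span ℂ (c.mon '' {s | (s.1.1, s.1.2.1, s.1.2.2, (s.2 : ℕ)) ∈ T}) :=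
    fun T hT y hy => c.reduce_W hT hy
  have hp := c.p_ne
  have ha := c.a_ne
  have hq := c.q_ne
  -- the first ring
  have hx0 : x ∈ Submodule.span ℂ (Set.range c.mon) := by
    have h1 : ∃ M, ∀ N ≥ M, (1 : K) ^ N * x ∈ c.W Set.univ := by
      refine c.exists_pow_mul_mem (z := 1) (T := fun _ => Set.univ) (fun _ _ _ _ _ _ => trivial)
        (fun M => ?_) (fun g hg => ⟨0, fun N _ => ?_⟩) h00
      · have : (1 : K) ^ M = c.monN 0 0 0 0 := by simp [monN]
        rw [this]
        exact c.monN_mem_W trivial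
      · rw [one_pow, one_mul]
        rcases hg with rfl | rfl | rfl | rfl
        · have : (c.ch 0 0).qinv.a = c.monN 1 0 0 0 := by
            change c.a = _
            simp [monN]
          rw [this]
          exact c.monN_mem_W trivial
        · have : (c.ch 0 0).qinv.b = c.monN 0 0 0 1 := by
            change c.b = _
            simp [monN]
          rw [this]
          exact c.monN_mem_W trivial
        · have : (c.ch 0 0).qinv.p = c.monN 0 1 0 0 := by
            change c.p = _
            simp [monN]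
          rw [this]
          exact c.monN_mem_W trivial
        · have : (c.ch 0 0).qinv.q = c.monN 0 0 1 0 := by
            change 1 / c.q = _
            simp [monN]
          rw [this]
          exact c.monN_mem_W trivial
    obtain ⟨M, hM⟩ := h1
    have h2 := hM M le_rfl
    rw [one_pow, one_mul] at h2
    have h3 := hred Set.univ (fun _ _ _ _ _ => ⟨trivial, trivial⟩) x h2
    exact Submodule.span_mono (Set.image_subset_range _ _) h3
  -- the second ring
  have hx1 : ∃ M, c.p ^ M * x ∈ c.W {s | s.2.1 ≤ s.2.2.1 + M} := by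
    have h1 : ∃ M, ∀ N ≥ M, c.p ^ N * x ∈ c.W {s | s.2.1 ≤ s.2.2.1 + N} := by
      refine c.exists_pow_mul_mem (z := c.p) (T := fun M => {s | s.2.1 ≤ s.2.2.1 + M})
        (fun M N s hs t ht => ?_) (fun M => ?_) (fun g hg => ⟨1, fun N hN => ?_⟩) h01
      · have hs' : s.2.1 ≤ s.2.2.1 + M := hs
        have ht' : t.2.1 ≤ t.2.2.1 + N := ht
        change s.2.1 + t.2.1 ≤ s.2.2.1 + t.2.2.1 + (M + N)
        omega
      · have : c.p ^ M = c.monN 0 M 0 0 := by simp [monN]
        rw [this]
        exact c.monN_mem_W (by simp)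
      · obtain ⟨N, rfl⟩ := Nat.exists_eq_add_of_le hN
        rcases hg with rfl | rfl | rfl | rfl
        · have : c.p ^ (1 + N) * (c.ch 0 1).qinv.a = c.monN 1 (1 + N) 0 0 := by
            change _ * c.a = _
            simp [monN]
            ring
          rw [this]
          exact c.monN_mem_W (by simp)
        · have : c.p ^ (1 + N) * (c.ch 0 1).qinv.b = c.monN 0 (1 + N) 0 1 := by
            change _ * c.b = _
            simp [monN]
          rw [this]
          exact c.monN_mem_W (by simp)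
        · have : c.p ^ (1 + N) * (c.ch 0 1).qinv.p = c.monN 0 N 0 0 := by
            change _ * (1 / c.p) = _
            simp only [monN, pow_zero, one_mul, mul_one]
            rw [pow_add, pow_one]
            field_simp
          rw [this]
          exact c.monN_mem_W (by simp)
        · have : c.p ^ (1 + N) * (c.ch 0 1).qinv.q = c.monN 0 (2 + N) 1 0 := by
            change _ * (1 / (c.q / c.p)) = _
            simp only [monN, pow_zero, one_mul, mul_one, pow_one]
            rw [pow_add, pow_add]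
            field_simp
          rw [this]
          exact c.monN_mem_W (by
            change 2 + N ≤ 1 + (1 + N)
            omega)
    obtain ⟨M, hM⟩ := h1
    exact ⟨M, hM M le_rfl⟩
  -- the third ring
  have hx2 : ∃ M, c.a ^ M * x ∈ c.W {s | s.1 + s.2.2.2 ≤ s.2.2.1 + M} := by
    have h1 : ∃ M, ∀ N ≥ M, c.a ^ N * x ∈ c.W {s | s.1 + s.2.2.2 ≤ s.2.2.1 + N} := by
      refine c.exists_pow_mul_mem (z := c.a) (T := fun M => {s | s.1 + s.2.2.2 ≤ s.2.2.1 + M})
        (fun M N s hs t ht => ?_) (fun M => ?_) (fun g hg => ⟨1, fun N hN => ?_⟩) h10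
      · have hs' : s.1 + s.2.2.2 ≤ s.2.2.1 + M := hs
        have ht' : t.1 + t.2.2.2 ≤ t.2.2.1 + N := ht
        change s.1 + t.1 + (s.2.2.2 + t.2.2.2) ≤ s.2.2.1 + t.2.2.1 + (M + N)
        omega
      · have : c.a ^ M = c.monN M 0 0 0 := by simp [monN]
        rw [this]
        exact c.monN_mem_W (by simp)
      · obtain ⟨N, rfl⟩ := Nat.exists_eq_add_of_le hN
        rcases hg with rfl | rfl | rfl | rfl
        · have : c.a ^ (1 + N) * (c.ch 1 0).qinv.a = c.monN N 0 0 0 := by
            change _ * (1 / c.a) = _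
            simp only [monN, pow_zero, mul_one]
            rw [pow_add, pow_one]
            field_simp
          rw [this]
          exact c.monN_mem_W (by simp)
        · have : c.a ^ (1 + N) * (c.ch 1 0).qinv.b = c.monN N 0 0 1 := by
            change _ * (c.b / c.a) = _
            simp only [monN, pow_zero, mul_one, pow_one]
            rw [pow_add, pow_one]
            field_simp
          rw [this]
          exact c.monN_mem_W (by
            change N + 1 ≤ 0 + (1 + N)
            omega)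
        · have : c.a ^ (1 + N) * (c.ch 1 0).qinv.p = c.monN (1 + N) 1 0 0 := by
            change _ * c.p = _
            simp [monN]
          rw [this]
          exact c.monN_mem_W (by simp)
        · have : c.a ^ (1 + N) * (c.ch 1 0).qinv.q = c.monN (2 + N) 0 1 0 := by
            change _ * (1 / (c.q / c.a)) = _
            simp only [monN, pow_zero, mul_one, pow_one]
            rw [pow_add, pow_add]
            field_simp
          rw [this]
          exact c.monN_mem_W (by
            change 2 + N + 0 ≤ 1 + (1 + N)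
            omega)
    obtain ⟨M, hM⟩ := h1
    exact ⟨M, hM M le_rfl⟩
  obtain ⟨M1, hx1⟩ := hx1
  obtain ⟨M2, hx2⟩ := hx2
  have hx1' := hred _ (by
    rintro i l k j h
    exact ⟨h, h⟩) _ hx1
  have hx2' := hred _ (by
    rintro i l k j h
    have h' : i + (j + 3) ≤ k + M2 := h
    constructor
    · change i + j ≤ k + M2
      omega
    · change i + 3 + j ≤ k + M2
      omega) _ hx2
  obtain ⟨l, rfl⟩ := (Finsupp.mem_span_range_iff_exists_finsupp).1 hx0
  change (Finsupp.linearCombination ℂ c.mon l) ∈ _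
  change c.p ^ M1 * (Finsupp.linearCombination ℂ c.mon l) ∈ _ at hx1'
  change c.a ^ M2 * (Finsupp.linearCombination ℂ c.mon l) ∈ _ at hx2'
  have hli := c.linearIndependent_mon
  rw [Finsupp.linearCombination_apply]
  refine sum_mem fun s hs => ?_
  have h1 := shift_mem hli l (z := c.p ^ M1)
    (shift := fun s => ((s.1.1, s.1.2.1 + M1, s.1.2.2), s.2)) (by
      rintro ⟨⟨i, l, k⟩, j⟩ ⟨⟨i', l', k'⟩, j'⟩ h
      simp only [Prod.mk.injEq, add_left_inj] at h
      obtain ⟨⟨rfl, rfl, rfl⟩, rfl⟩ := h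
      rfl) (by
      intro s
      simp only [mon, monN]
      ring) hx1' hs
  have h2 := shift_mem hli l (z := c.a ^ M2)
    (shift := fun s => ((s.1.1 + M2, s.1.2.1, s.1.2.2), s.2)) (by
      rintro ⟨⟨i, l, k⟩, j⟩ ⟨⟨i', l', k'⟩, j'⟩ h
      simp only [Prod.mk.injEq, add_left_inj] at h
      obtain ⟨⟨rfl, rfl, rfl⟩, rfl⟩ := h
      rfl) (by
      intro s
      simp only [mon, monN]
      ring) hx2' hs
  have h1' : s.1.2.1 + M1 ≤ s.1.2.2 + M1 := h1
  have h2' : s.1.1 + M2 + (s.2 : ℕ) ≤ s.1.2.2 + M2 := h2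
  refine Subalgebra.smul_mem _ ?_ _
  exact c.monN_mem_chart _ _ _ _ (by omega) (by omega)

/-- The affine cone is normal. -/
theorem isIntegrallyClosed_chart_none : IsIntegrallyClosed (c.X.chart none) := by
  have hfr : ∀ z : K, ∃ g ∈ c.X.chart none, ∃ k ∈ c.X.chart none, z = g / k := by
    intro z
    have hz : z ∈ IntermediateField.adjoin ℂ (Set.range fun i => c.X.x i / c.X.x none) := by
      have h1 : IntermediateField.adjoin ℂ {r : K | ∃ i j, r = c.X.x i / c.X.x j} ≤
          IntermediateField.adjoin ℂ (Set.range fun i => c.X.x i / c.X.x none) := by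
        rw [IntermediateField.adjoin_le_iff]
        rintro _ ⟨i, j, rfl⟩
        have h2 : c.X.x i / c.X.x j = (c.X.x i / c.X.x none) / (c.X.x j / c.X.x none) :=
          (div_div_div_cancel_right₀ (c.X_x_ne none) _ _).symm
        rw [h2]
        exact div_mem (IntermediateField.subset_adjoin _ _ ⟨i, rfl⟩)
          (IntermediateField.subset_adjoin _ _ ⟨j, rfl⟩)
      rw [show _ = _ from c.X.gen] at h1
      exact h1 trivial
    exact IntermediateField.mem_adjoin_iff_div.1 hz
  have : IsFractionRing (c.X.chart none) K := by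
    refine IsFractionRing.of_field (c.X.chart none) K fun z => ?_
    obtain ⟨g, hg, k, hk, e⟩ := hfr z
    exact ⟨⟨g, hg⟩, ⟨k, hk⟩, e⟩
  rw [isIntegrallyClosed_iff K]
  intro x hx
  have hint : ∀ e j, x ∈ (c.ch e j).qinv.A := by
    intro e j
    apply (c.ch e j).qinv.mem_A_of_isIntegral
    have hle := c.chart_none_le_ch e j
    let _ : Algebra (c.X.chart none) (c.ch e j).qinv.A :=
      (Subalgebra.inclusion hle).toRingHom.toAlgebra
    have : IsScalarTower (c.X.chart none) (c.ch e j).qinv.A K :=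
      IsScalarTower.of_algebraMap_eq fun _ => rfl
    exact hx.tower_top
  exact ⟨⟨x, c.mem_chart_none (hint 0 0) (hint 0 1) (hint 1 0)⟩, rfl⟩

theorem isNormal_X : c.X.IsNormal := by
  intro o _
  cases o with
  | none => exact c.isIntegrallyClosed_chart_none
  | some ej =>
    rw [c.chart_some ej.1 ej.2]
    exact (c.ch ej.1 ej.2).isIntegrallyClosed_A

end Coord

end Pool.Agent.Helper94.LCY
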