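import Pool.Agent.Helper94.LCY.PicB
import Pool.Agent.Helper94.LCY.Vertex
import Pool.Agent.Helper94.LCY.FormsLC
import Pool.Agent.Helper94.LCY.FormsOrd
import Pool.Agent.Helper94.LCY.NonRat

/-!
# A log Calabi-Yau pair of index one with `n + ρ - 1` boundary components not of cluster type
-/

noncomputable section

open Classical

namespace Pool.Agent.Helper94.LCY

variable {K : Type} [Field K] [Algebra ℂ K]

namespace Coord

variable (c : Coord K)

theorem support_B : Function.support c.B = {c.P0, c.Pinf, c.Pw} := by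
  ext P
  simp only [Function.mem_support, B, ne_eq, ite_eq_right_iff, one_ne_zero, imp_false, not_not,
    Set.mem_insert_iff, Set.mem_singleton_iff]

theorem ncard_support_B : (Function.support c.B).ncard = 3 := by
  rw [c.support_B, Set.ncard_eq_toFinset_card']
  simp [c.P0_ne_Pinf, c.P0_ne_Pw, c.Pinf_ne_Pw]

theorem B_nonneg (P : c.X.PrimeDiv) : 0 ≤ c.B P := by
  unfold B
  split_ifs <;> norm_num

theorem hasOrder_B (P : c.X.PrimeDiv) :
    ∃ k : ℤ, HasOrder 3 P.dvr (c.form : Form K 3) k ∧ (k : ℚ) = - c.B P := by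
  obtain ⟨k, hk, hk'⟩ := c.hasOrdForm_B P
  exact ⟨k, hasOrder_iff.2 hk, hk'⟩

theorem indexOne : IndexOne 3 c.X c.B := ⟨c.form, c.form_ne_zero, c.hasOrder_B⟩

theorem hasOrderNegB (P : c.X.PrimeDiv) : HasOrderNegB 3 c.X c.B 1 1 (c.form : Form K 3) P := by
  obtain ⟨k, hk, hk'⟩ := c.hasOrder_B P
  refine ⟨k, ⟨k, hk, ?_⟩, ?_⟩
  · rw [ord_one]
    simp
  · rw [hk']
    simp

theorem isLocalGenerator (R : LocalSubring K) :
    IsLocalGenerator 3 c.X c.B R 1 1 (c.form : Form K 3) :=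
  ⟨one_pos, one_ne_zero, c.form_ne_zero, fun P _ => c.hasOrderNegB P⟩

include c in
theorem fg_top : (⊤ : IntermediateField ℂ K).FG := by
  rw [← c.gen]
  exact ⟨{c.a, c.b, c.p, c.q}, by simp⟩

theorem isLogCanonical : IsLogCanonical 3 c.X c.B := by
  intro R _
  refine ⟨1, 1, c.form, c.isLocalGenerator R, fun v hv _ => ?_⟩
  obtain ⟨k, hk⟩ := exists_hasOrdForm (by norm_num) c.fg_top c.tr hv c.form_ne_zero
  have := hv.1
  refine ⟨k, ⟨k, hasOrder_iff.2 hk, ?_⟩, ?_⟩
  · rw [ord_one]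
    simp
  have hC : ∀ z : ℂ, algebraMap ℂ K z ∈ v := by
    intro z
    obtain ⟨g, hg⟩ := hv.2
    by_cases hz : z = 0
    · rw [hz, map_zero]; exact v.zero_mem
    · have := hg (MvPolynomial.C z) (by simpa using hz)
      rw [MvPolynomial.aeval_C] at this
      exact (v.valuation_le_one_iff _).1 this.le
  have := c.neg_one_le_of_hasOrdForm hC hk
  simpa using this

theorem isLogCY : IsLogCY 3 c.X c.B := by
  refine ⟨c.tr, c.isNormal_X, ?_, c.B_nonneg, c.isLogCanonical, 1, 1, c.form, one_pos,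
    one_ne_zero, c.form_ne_zero, c.hasOrderNegB⟩
  rw [c.support_B]
  exact Set.toFinite _

theorem not_isClusterType : ¬ IsClusterType 3 c.X c.B := by
  rintro ⟨σ, -⟩
  exact c.not_rational 3 σ

end Coord

theorem main : ∃ (K : Type) (_ : Field K) (_ : Algebra ℂ K)
    (X : ProjVar K (Option (Fin 3 × Fin 2))) (B : X.PrimeDiv → ℚ),
    IsLogCY 3 X B ∧ IndexOne 3 X B ∧ Nonempty (X.Pic ≃+ ℤ) ∧ X.picardRank = 1 ∧
      (Function.support B).ncard = 3 ∧ (∀ n, IsEmpty (RatField n ≃ₐ[ℂ] K)) ∧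
      ¬ IsClusterType 3 X B := by
  obtain ⟨K, i1, i2, ⟨c⟩⟩ := exists_coord
  exact ⟨K, i1, i2, c.X, c.B, c.isLogCY, c.indexOne, c.pic_equiv, c.picardRank_X,
    c.ncard_support_B, fun n => ⟨c.not_rational n⟩, c.not_isClusterType⟩

end Pool.Agent.Helper94.LCY
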