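import Mathlib

/-!
# Orders along discrete valuation rings of a field
-/

noncomputable section

namespace Pool.Agent.Helper94.LCY

variable {K : Type} [Field K]

/-- `f = (unit of v) * t ^ k` for a uniformizer `t` of the discrete valuation ring `v`. -/
def HasOrd (v : ValuationSubring K) (f : K) (k : ℤ) : Prop :=
  ∃ t : v, Irreducible t ∧ v.valuation f = v.valuation (t : K) ^ k

/-- The order of `f` along a discrete valuation ring `v` of `K`: the integer `k` such that
`f = (unit of v) * t ^ k`, `t` a uniformizer (junk value `0` if there is no such `k`, which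
for a discrete valuation ring happens only for `f = 0`). -/
def ord (v : ValuationSubring K) (f : K) : ℤ :=
  open Classical in if h : ∃ k : ℤ, HasOrd v f k then h.choose else 0

section

variable {v : ValuationSubring K}

theorem irr_ne_zero {t : v} (ht : Irreducible t) : (t : K) ≠ 0 := by
  intro h
  exact ht.ne_zero (Subtype.ext h)

theorem irr_lt_one {t : v} (ht : Irreducible t) : v.valuation (t : K) < 1 := by
  rw [← v.valuation_lt_one_iff, IsLocalRing.mem_maximalIdeal]
  exact ht.not_isUnit

theorem val_irr_eq [IsDiscreteValuationRing v] {t t' : v} (ht : Irreducible t)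
    (ht' : Irreducible t') : v.valuation (t : K) = v.valuation (t' : K) := by
  have h := IsDiscreteValuationRing.associated_of_irreducible v ht' ht
  obtain ⟨u, hu⟩ := h
  rw [v.valuation_eq_iff]
  exact ⟨u, by rw [← hu]; push_cast; ring⟩

theorem exists_irr (v : ValuationSubring K) [IsDiscreteValuationRing v] :
    ∃ t : v, Irreducible t := IsDiscreteValuationRing.exists_irreducible v

theorem zpow_inj_of_lt_one {t : v} (ht : Irreducible t) {k l : ℤ}
    (h : v.valuation (t : K) ^ k = v.valuation (t : K) ^ l) : k = l := by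
  have h0 : (0 : v.ValueGroup) < v.valuation (t : K) := by
    rw [zero_lt_iff]
    exact (v.valuation.ne_zero_iff).2 (irr_ne_zero ht)
  exact zpow_right_injective₀ h0 (irr_lt_one ht).ne h

/-- Every nonzero element is a power of a uniformizer times a unit. -/
theorem exists_val_eq_zpow [IsDiscreteValuationRing v] {t : v} (ht : Irreducible t) {f : K}
    (hf : f ≠ 0) : ∃ k : ℤ, v.valuation f = v.valuation (t : K) ^ k := by
  have key : ∀ g : v, g ≠ 0 → ∃ n : ℕ, v.valuation (g : K) = v.valuation (t : K) ^ n := by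
    intro g hg
    obtain ⟨n, u, hu⟩ := IsDiscreteValuationRing.eq_unit_mul_pow_irreducible hg ht
    refine ⟨n, ?_⟩
    rw [hu]
    push_cast
    rw [map_mul, map_pow, v.valuation_unit, one_mul]
  rcases v.mem_or_inv_mem f with h | h
  · obtain ⟨n, hn⟩ := key ⟨f, h⟩ (fun h0 => hf (congrArg Subtype.val h0))
    exact ⟨n, by simpa using hn⟩
  · obtain ⟨n, hn⟩ := key ⟨f⁻¹, h⟩ (fun h0 => inv_ne_zero hf (congrArg Subtype.val h0))
    refine ⟨-n, ?_⟩
    have : v.valuation f⁻¹ = v.valuation (t : K) ^ n := hn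
    rw [map_inv₀] at this
    rw [zpow_neg, zpow_natCast, ← this, inv_inv]

theorem val_eq_zpow_ord [IsDiscreteValuationRing v] {t : v} (ht : Irreducible t) {f : K}
    (hf : f ≠ 0) : v.valuation f = v.valuation (t : K) ^ ord v f := by
  have h : ∃ k : ℤ, HasOrd v f k := by
    obtain ⟨k, hk⟩ := exists_val_eq_zpow ht hf
    exact ⟨k, t, ht, hk⟩
  obtain ⟨t', ht', hk⟩ := h.choose_spec
  rw [ord, dif_pos h, val_irr_eq ht ht']
  exact hk

theorem ord_eq_of_val [IsDiscreteValuationRing v] {t : v} (ht : Irreducible t) {f : K} {k : ℤ}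
    (h : v.valuation f = v.valuation (t : K) ^ k) : ord v f = k := by
  have hf : f ≠ 0 := by
    rintro rfl
    rw [map_zero] at h
    exact (zpow_ne_zero k ((v.valuation.ne_zero_iff).2 (irr_ne_zero ht))) h.symm
  exact zpow_inj_of_lt_one ht ((val_eq_zpow_ord ht hf).symm.trans h)

theorem ord_eq_iff [IsDiscreteValuationRing v] {t : v} (ht : Irreducible t) {f : K} (hf : f ≠ 0)
    {k : ℤ} : ord v f = k ↔ v.valuation f = v.valuation (t : K) ^ k := by
  constructor
  · rintro rfl
    exact val_eq_zpow_ord ht hf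
  · exact ord_eq_of_val ht

theorem ord_mul [IsDiscreteValuationRing v] {f g : K} (hf : f ≠ 0) (hg : g ≠ 0) :
    ord v (f * g) = ord v f + ord v g := by
  obtain ⟨t, ht⟩ := exists_irr v
  apply ord_eq_of_val ht
  rw [map_mul, val_eq_zpow_ord ht hf, val_eq_zpow_ord ht hg, zpow_add₀]
  exact (v.valuation.ne_zero_iff).2 (irr_ne_zero ht)

theorem ord_one [IsDiscreteValuationRing v] : ord v (1 : K) = 0 := by
  obtain ⟨t, ht⟩ := exists_irr v
  exact ord_eq_of_val ht (by simp)

theorem ord_inv [IsDiscreteValuationRing v] {f : K} (hf : f ≠ 0) :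
    ord v f⁻¹ = - ord v f := by
  have h := ord_mul (v := v) hf (inv_ne_zero hf)
  rw [mul_inv_cancel₀ hf, ord_one] at h
  omega

theorem ord_div [IsDiscreteValuationRing v] {f g : K} (hf : f ≠ 0) (hg : g ≠ 0) :
    ord v (f / g) = ord v f - ord v g := by
  rw [div_eq_mul_inv, ord_mul hf (inv_ne_zero hg), ord_inv hg]
  ring

theorem ord_pow [IsDiscreteValuationRing v] {f : K} (hf : f ≠ 0) (n : ℕ) :
    ord v (f ^ n) = n * ord v f := by
  induction n with
  | zero => simp [ord_one]
  | succ n ih =>
    rw [pow_succ, ord_mul (pow_ne_zero n hf) hf, ih]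
    push_cast
    ring

theorem ord_zpow [IsDiscreteValuationRing v] {f : K} (hf : f ≠ 0) (n : ℤ) :
    ord v (f ^ n) = n * ord v f := by
  obtain ⟨m, rfl | rfl⟩ := n.eq_nat_or_neg
  · rw [zpow_natCast, ord_pow hf]
  · rw [zpow_neg, zpow_natCast, ord_inv (pow_ne_zero m hf), ord_pow hf]
    ring

/-- An element of order `0` is the same as a unit of `v`. -/
theorem ord_eq_zero_iff [IsDiscreteValuationRing v] {f : K} (hf : f ≠ 0) :
    ord v f = 0 ↔ v.valuation f = 1 := by
  obtain ⟨t, ht⟩ := exists_irr v
  rw [ord_eq_iff ht hf, zpow_zero]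

theorem ord_nonneg_iff [IsDiscreteValuationRing v] {f : K} (hf : f ≠ 0) :
    0 ≤ ord v f ↔ f ∈ v := by
  obtain ⟨t, ht⟩ := exists_irr v
  rw [← v.valuation_le_one_iff, val_eq_zpow_ord ht hf]
  have h0 : (0 : v.ValueGroup) < v.valuation (t : K) := by
    rw [zero_lt_iff]
    exact (v.valuation.ne_zero_iff).2 (irr_ne_zero ht)
  have h1 := irr_lt_one ht
  constructor
  · intro h
    exact zpow_le_one₀ h0 h1.le h
  · intro h
    by_contra hneg
    rw [not_le] at hneg
    have : 1 < v.valuation (t : K) ^ ord v f := by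
      exact one_lt_zpow_of_neg₀ h0 h1 hneg
    exact absurd h (not_le.2 this)

theorem ord_pos_iff [IsDiscreteValuationRing v] {f : K} (hf : f ≠ 0) :
    0 < ord v f ↔ v.valuation f < 1 := by
  have h1 := ord_nonneg_iff (v := v) hf
  have h2 := ord_eq_zero_iff (v := v) hf
  rw [← v.valuation_le_one_iff] at h1
  constructor
  · intro h
    refine lt_of_le_of_ne (h1.1 h.le) ?_
    intro h3
    rw [← h2] at h3
    omega
  · intro h
    have h3 := h1.2 h.le
    rcases h3.lt_or_eq with h4 | h4
    · exact h4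
    · exact absurd (h2.1 h4.symm) h.ne

end

end Pool.Agent.Helper94.LCY
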