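import Pool.Agent.Helper94.LCY.Var
import Pool.Agent.Helper94.LCY.Cube

/-!
# Prime divisors not through the vertex are principal up to a multiple of `Pw`
-/

noncomputable section

open Classical Polynomial

namespace Pool.Agent.Helper94.LCY

variable {K : Type} [Field K] [Algebra ℂ K]

/-- Gauss lemma for a monic polynomial: let `D` be an integrally closed subring of a field `L`
with `L = Frac D`, `h` a monic polynomial over `L` dividing a monic polynomial over `D`. Then `h`
has coefficients in `D`. -/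
theorem coeff_mem_of_monic_dvd (D : Subalgebra ℂ K) [IsIntegrallyClosed D]
    (L : IntermediateField ℂ K) (hDL : ∀ d ∈ D, d ∈ L)
    (hfrac : ∀ f ∈ L, ∃ g ∈ D, ∃ h ∈ D, f = g / h) {h G : L[X]} (hh : h.Monic)
    (hG : G.Monic) (hGD : ∀ i, (G.coeff i : K) ∈ D) (hdvd : h ∣ G) :
    ∀ i, (h.coeff i : K) ∈ D := by
  have hDL' : D ≤ L.toSubalgebra := hDL
  let _ : Algebra D L := (Subalgebra.inclusion hDL').toRingHom.toAlgebra
  have hinj : Function.Injective (algebraMap D L) := by
    intro x y hxy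
    exact Subtype.ext (congrArg (fun z : L => (z : K)) hxy)
  have : FaithfulSMul D L := (faithfulSMul_iff_algebraMap_injective D L).2 hinj
  have : IsFractionRing D L := by
    refine IsFractionRing.of_field D L fun z => ?_
    obtain ⟨g, hg, k, hk, e⟩ := hfrac z z.2
    exact ⟨⟨g, hg⟩, ⟨k, hk⟩, Subtype.ext e⟩
  obtain ⟨G', hG'⟩ : ∃ G' : D[X], G'.map (algebraMap D L) = G := by
    rw [← mem_lifts, lifts_iff_coeff_lifts]
    intro n
    exact ⟨⟨G.coeff n, hGD n⟩, rfl⟩
  have hG'm : G'.Monic := monic_of_injective hinj (by rw [hG']; exact hG)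
  obtain ⟨h', hh'⟩ := IsIntegrallyClosed.eq_map_mul_C_of_dvd L hG'm (g := h) (by
    rw [hG']; exact hdvd)
  rw [hh.leadingCoeff, C_1, mul_one] at hh'
  intro i
  rw [← hh', coeff_map]
  exact (h'.coeff i).2

namespace Coord

variable (c : Coord K)

theorem D_le_A : c.D ≤ c.A := Algebra.adjoin_mono (by
  intro x hx
  simp only [Set.mem_insert_iff, Set.mem_singleton_iff] at hx ⊢
  tauto)

theorem D_le_K₀ {x : K} (hx : x ∈ c.D) : x ∈ c.K₀ :=
  IntermediateField.algebra_adjoin_le_adjoin ℂ _ hx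

/-- A prime divisor of the chart whose ideal contains a monic polynomial in `q` over
`ℂ[a, b, p]` is horizontal. -/
theorem K₀_le {v : ValuationSubring K} [IsDiscreteValuationRing v]
    (hv : IsLocOf c.A.toSubring v) {G : K[X]} (hG : G.Monic) (hGD : ∀ i, G.coeff i ∈ c.D)
    (h1 : v.valuation (G.eval c.q) < 1) {x : K} (hx : x ∈ c.K₀) : x ∈ v := by
  have hDv : ∀ x ∈ c.D, x ∈ v := fun x hx => hv.1 (c.D_le_A hx)
  -- every nonzero element of `D` is a unit of `v`
  have hunit : ∀ r ∈ c.D, r ≠ 0 → v.valuation r = 1 := by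
    intro r hr hr0
    refine le_antisymm ((v.valuation_le_one_iff _).2 (hDv r hr)) (not_lt.1 fun hlt => ?_)
    let ι : c.D →+* v :=
      { toFun := fun x => ⟨x, hDv x x.2⟩
        map_one' := rfl
        map_zero' := rfl
        map_add' := fun _ _ => rfl
        map_mul' := fun _ _ => rfl }
    let 𝔯 : Ideal c.D := (IsLocalRing.maximalIdeal v).comap ι
    have h𝔯 : 𝔯.IsPrime := Ideal.comap_isPrime _ _
    have hmem𝔯 : ∀ y : c.D, y ∈ 𝔯 ↔ v.valuation (y : K) < 1 := fun y =>
      v.valuation_lt_one_iff ⟨y, hDv y y.2⟩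
    let φ : c.D[X] →+* c.A.toSubring :=
      { toFun := fun F => ⟨aeval c.q F, by
          have hq : c.q ∈ c.A := Algebra.subset_adjoin (by simp)
          change aeval c.q F ∈ c.A
          rw [aeval_eq_sum_range]
          refine sum_mem fun i _ => ?_
          rw [Algebra.smul_def]
          exact mul_mem (c.D_le_A (F.coeff i).2) (pow_mem hq i)⟩
        map_one' := Subtype.ext (map_one _)
        map_zero' := Subtype.ext (map_zero _)
        map_add' := fun F G => Subtype.ext (map_add _ F G)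
        map_mul' := fun F G => Subtype.ext (map_mul _ F G) }
    have hφ : ∀ F, ((φ F : c.A.toSubring) : K) = aeval c.q F := fun F => rfl
    have hinj : Function.Injective φ := by
      rw [injective_iff_map_eq_zero]
      intro F hF
      have hF' : aeval c.q F = 0 := congrArg Subtype.val hF
      let κ : c.D →+* c.K₀ :=
        { toFun := fun x => ⟨x, c.D_le_K₀ x.2⟩
          map_one' := rfl
          map_zero' := rfl
          map_add' := fun _ _ => rfl
          map_mul' := fun _ _ => rfl }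
      have hκ : Function.Injective κ := by
        intro x y hxy
        exact Subtype.ext (congrArg (fun z : c.K₀ => (z : K)) hxy)
      have h2 : aeval c.q (F.map κ) = 0 := by
        rw [← hF', aeval_def, aeval_def, eval₂_map]
        rfl
      have h3 : F.map κ = 0 := by
        by_contra h3
        exact c.isGen_q.aeval_ne_zero h3 h2
      exact (Polynomial.map_eq_zero_iff hκ).1 h3
    have hsurj : Function.Surjective φ := by
      rintro ⟨y, hy⟩
      have hy' : y ∈ c.A := hy
      have : ∃ F : c.D[X], aeval c.q F = y := by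
        rw [A] at hy'
        clear hy
        induction hy' using Algebra.adjoin_induction with
        | mem y hy =>
          rcases hy with rfl | rfl | rfl | rfl
          · exact ⟨C ⟨c.a, Algebra.subset_adjoin (by simp)⟩, by rw [aeval_C]; rfl⟩
          · exact ⟨C ⟨c.b, Algebra.subset_adjoin (by simp)⟩, by rw [aeval_C]; rfl⟩
          · exact ⟨C ⟨c.p, Algebra.subset_adjoin (by simp)⟩, by rw [aeval_C]; rfl⟩
          · exact ⟨Polynomial.X, by rw [aeval_X]⟩
        | algebraMap z => exact ⟨C (algebraMap ℂ c.D z), by rw [aeval_C]; rfl⟩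
        | add y z _ _ h1 h2 =>
          obtain ⟨F, hF⟩ := h1
          obtain ⟨G, hG⟩ := h2
          exact ⟨F + G, by rw [map_add, hF, hG]⟩
        | mul y z _ _ h1 h2 =>
          obtain ⟨F, hF⟩ := h1
          obtain ⟨G, hG⟩ := h2
          exact ⟨F * G, by rw [map_mul, hF, hG]⟩
      obtain ⟨F, hF⟩ := this
      exact ⟨F, Subtype.ext hF⟩
    let ψ : c.D[X] ≃+* c.A.toSubring := RingEquiv.ofBijective φ ⟨hinj, hsurj⟩
    have hψ : ∀ F, ((ψ F : c.A.toSubring) : K) = aeval c.q F := fun F => rfl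
    let Q : Ideal c.A.toSubring := (Ideal.map C 𝔯).comap (ψ.symm : c.A.toSubring →+* c.D[X])
    have hQ : Q.IsPrime := Ideal.comap_isPrime _ _
    have hmemQ : ∀ F : c.D[X], ψ F ∈ Q ↔ ∀ n, F.coeff n ∈ 𝔯 := by
      intro F
      rw [← Ideal.mem_map_C_iff]
      change ψ.symm (ψ F) ∈ Ideal.map C 𝔯 ↔ _
      rw [ψ.symm_apply_apply]
    have hQ0 : Q ≠ ⊥ := by
      intro h0
      have h2 : ψ (C ⟨r, hr⟩) ∈ Q := by
        rw [hmemQ]
        intro n
        rw [coeff_C]
        split_ifs with hn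
        · exact (hmem𝔯 _).2 hlt
        · exact zero_mem _
      rw [h0, Ideal.mem_bot] at h2
      have h3 : (C (⟨r, hr⟩ : c.D) : c.D[X]) = 0 := ψ.injective (by rw [h2, map_zero])
      rw [C_eq_zero] at h3
      exact hr0 (congrArg Subtype.val h3)
    have hQv : ∀ x ∈ Q, v.valuation (x : K) < 1 := by
      intro x hx
      obtain ⟨F, rfl⟩ := ψ.surjective x
      rw [hmemQ] at hx
      rw [hψ, aeval_eq_sum_range]
      have hq : c.q ∈ v := hv.1 (Algebra.subset_adjoin (by simp))
      refine Valuation.map_sum_lt _ one_ne_zero fun i _ => ?_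
      rw [Algebra.smul_def, map_mul]
      exact (mul_le_of_le_one_right' ((v.valuation_le_one_iff _).2 (pow_mem hq i))).trans_lt
        ((hmem𝔯 _).1 (hx i))
    obtain ⟨G', hG'⟩ : ∃ G' : c.D[X], G'.map (algebraMap c.D K) = G := by
      rw [← mem_lifts, lifts_iff_coeff_lifts]
      intro n
      exact ⟨⟨G.coeff n, hGD n⟩, rfl⟩
    have hG'm : G'.Monic := monic_of_injective (f := algebraMap c.D K) Subtype.val_injective
      (by rw [hG']; exact hG)
    have h4 : v.valuation ((ψ G' : c.A.toSubring) : K) < 1 := by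
      rw [hψ, ← eval_map_algebraMap, hG']
      exact h1
    have h5 := hv.mem_prime Q hQ0 hQv _ h4
    rw [hmemQ] at h5
    have h6 := h5 G'.natDegree
    rw [coeff_natDegree, hG'm.leadingCoeff] at h6
    exact h𝔯.ne_top ((Ideal.eq_top_iff_one _).2 h6)
  obtain ⟨r, hr, s, hs, rfl⟩ := IntermediateField.mem_adjoin_iff_div.1 hx
  by_cases hs0 : s = 0
  · rw [hs0, div_zero]
    exact v.zero_mem
  · rw [← v.valuation_le_one_iff, map_div₀, hunit s hs hs0, div_one]
    exact (v.valuation_le_one_iff _).2 (hDv r hr)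

theorem inv_inv : c.inv.inv = c := by
  have ha := c.a_ne
  refine ext' ?_ ?_ rfl ?_
  · change 1 / (1 / c.a) = c.a
    simp
  · change c.b / c.a / (1 / c.a) = c.b
    field_simp
  · change c.q / c.a / (1 / c.a) = c.q
    field_simp

theorem swap_swap : c.swap.swap = c := rfl

theorem pinv_pinv : c.pinv.pinv = c := by
  have hp := c.p_ne
  refine ext' rfl rfl ?_ ?_
  · change 1 / (1 / c.p) = c.p
    simp
  · change c.q / c.p / (1 / c.p) = c.q
    field_simp

theorem inv_K₀_eq : c.inv.K₀ = c.K₀ := by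
  refine le_antisymm c.inv_K₀ ?_
  have := c.inv.inv_K₀
  rwa [inv_inv] at this

theorem swap_K₀_eq : c.swap.K₀ = c.K₀ := le_antisymm c.swap_K₀ c.swap.swap_K₀

theorem pinv_K₀_eq : c.pinv.K₀ = c.K₀ := by
  refine le_antisymm c.pinv_K₀ ?_
  have := c.pinv.pinv_K₀
  rwa [pinv_pinv] at this

theorem ch_K₀ (e : Fin 3) (j : Fin 2) : (c.ch e j).K₀ = c.K₀ := by
  have h : (c.eCoord e).K₀ = c.K₀ := by
    fin_cases e
    · rfl
    · exact c.inv_K₀_eq
    · exact (c.swap.inv_K₀_eq).trans c.swap_K₀_eq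
  fin_cases j
  · exact h
  · exact ((c.eCoord e).pinv_K₀_eq).trans h

/-- All rescalings of the polynomial `h` to the six charts have coefficients in the coordinate
rings `ℂ[a', b', p']`. -/
def Homog (h : c.K₀[X]) : Prop := ∀ (e : Fin 3) (j : Fin 2) (i : ℕ),
  (h.coeff i : K) / (c.m e * c.n j) ^ (h.natDegree - i) ∈ (c.ch e j).D

/-- The rescaling of `h` to a chart. -/
def resc (h : c.K₀[X]) (e : Fin 3) (j : Fin 2) : K[X] :=
  (h.map (algebraMap c.K₀ K)).scaleRoots (c.m e * c.n j)⁻¹

theorem mn_ne (e : Fin 3) (j : Fin 2) : c.m e * c.n j ≠ 0 := mul_ne_zero (c.m_ne e) (c.n_ne j)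

theorem mn_mem (e : Fin 3) (j : Fin 2) : c.m e * c.n j ∈ c.K₀ :=
  mul_mem (c.m_mem_K₀ _) (c.n_mem_K₀ _)

theorem resc_monic {h : c.K₀[X]} (hm : h.Monic) (e : Fin 3) (j : Fin 2) :
    (c.resc h e j).Monic := (monic_scaleRoots_iff _).2 (hm.map _)

theorem resc_coeff {h : c.K₀[X]} (e : Fin 3) (j : Fin 2) (i : ℕ) :
    (c.resc h e j).coeff i = (h.coeff i : K) / (c.m e * c.n j) ^ (h.natDegree - i) := by
  rw [resc, coeff_scaleRoots, coeff_map, natDegree_map, inv_pow, div_eq_mul_inv]
  rfl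

theorem resc_eval (h : c.K₀[X]) (e : Fin 3) (j : Fin 2) :
    (c.resc h e j).eval (c.ch e j).q = aeval c.q h / (c.m e * c.n j) ^ h.natDegree := by
  have h1 : (c.ch e j).q = (c.m e * c.n j)⁻¹ * c.q := by
    rw [c.ch_q e j, div_eq_inv_mul]
  rw [resc, h1, scaleRoots_eval_mul, natDegree_map, eval_map_algebraMap, inv_pow,
    ← div_eq_inv_mul]

theorem Homog.coeff_mem {c : Coord K} {h : c.K₀[X]} (hh : c.Homog h) (e : Fin 3) (j : Fin 2)
    (i : ℕ) : (c.resc h e j).coeff i ∈ (c.ch e j).D := by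
  rw [resc_coeff]
  exact hh e j i

/-- A prime divisor on which a monic form vanishes is horizontal. -/
theorem K₀_le_of_homog {P : c.X.PrimeDiv} {e : Fin 3} {j : Fin 2}
    (hP : IsLocOf (c.ch e j).A.toSubring P.dvr) {h : c.K₀[X]} (hm : h.Monic) (hh : c.Homog h)
    (h1 : P.dvr.valuation (aeval c.q h / (c.m e * c.n j) ^ h.natDegree) < 1) {x : K}
    (hx : x ∈ c.K₀) : x ∈ P.dvr := by
  rw [← c.resc_eval h e j] at h1
  refine (c.ch e j).K₀_le hP (c.resc_monic hm e j) (hh.coeff_mem e j) h1 ?_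
  rw [ch_K₀]
  exact hx

theorem resc_eval_mem {P : c.X.PrimeDiv} {e : Fin 3} {j : Fin 2}
    (hP : IsLocOf (c.ch e j).A.toSubring P.dvr) {h : c.K₀[X]} (hh : c.Homog h) :
    aeval c.q h / (c.m e * c.n j) ^ h.natDegree ∈ P.dvr := by
  rw [← c.resc_eval h e j, eval_eq_sum_range]
  have hq : (c.ch e j).q ∈ P.dvr := hP.1 (Algebra.subset_adjoin (by simp))
  refine sum_mem fun i _ => ?_
  exact mul_mem (hP.1 ((c.ch e j).D_le_A (hh.coeff_mem e j i))) (pow_mem hq i)

/-- A function on the affine cone not vanishing at the vertex gives a monic form. -/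
theorem exists_reverse {x : K} (hx : x ∈ c.X.chart none)
    (hx' : (⟨x, hx⟩ : (c.X.chart none).toSubring) ∉ c.vertexIdeal) :
    ∃ G : c.K₀[X], G.Monic ∧ c.Homog G ∧
      ∃ z : ℂ, z ≠ 0 ∧ aeval c.q G = algebraMap ℂ K z * (c.q ^ G.natDegree * x) := by
  obtain ⟨Γ, hΓ, ⟨z, hz⟩, hΓD⟩ := c.exists_polynomial_of_mem hx
  have hz0 : z ≠ 0 := by
    rintro rfl
    apply hx'
    have h2 : Polynomial.aeval (1 / c.q) Γ ∈ (c.X.chart none).toSubring := by
      rw [← hΓ]
      exact hx
    have h3 := (c.mem_vertexIdeal_iff h2).2 (Subtype.ext (by rw [hz, map_zero]; rfl))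
    have h4 : (⟨x, hx⟩ : (c.X.chart none).toSubring) = ⟨_, h2⟩ := Subtype.ext hΓ
    rw [h4]
    exact h3
  set w : c.K₀ := algebraMap ℂ c.K₀ z⁻¹ with hw
  have hw0 : w ≠ 0 := (_root_.map_ne_zero _).2 (inv_ne_zero hz0)
  set Δ := C w * Γ with hΔ
  have hΔ0 : Δ.coeff 0 = 1 := by
    rw [hΔ, coeff_C_mul]
    apply Subtype.ext
    change algebraMap ℂ K z⁻¹ * (Γ.coeff 0 : K) = 1
    rw [hz, ← map_mul, inv_mul_cancel₀ hz0, map_one]
  have htr : Δ.natTrailingDegree = 0 := by
    refine Nat.le_zero.1 (natTrailingDegree_le_of_ne_zero ?_)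
    rw [hΔ0]
    exact one_ne_zero
  have hdeg : Δ.reverse.natDegree = Δ.natDegree := by
    rw [reverse_natDegree, htr, Nat.sub_zero]
  refine ⟨Δ.reverse, ?_, ?_, z⁻¹, inv_ne_zero hz0, ?_⟩
  · rw [Monic, reverse_leadingCoeff, trailingCoeff, htr, hΔ0]
  · intro e j i
    rw [hdeg, coeff_reverse]
    by_cases hi : i ≤ Δ.natDegree
    · rw [revAt_le hi, hΔ, coeff_C_mul]
      have h1 := hΓD (Δ.natDegree - i) e j
      change (algebraMap ℂ K z⁻¹ * (Γ.coeff _ : K)) / _ ∈ _
      rw [mul_div_assoc]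
      exact mul_mem (algebraMap_mem _ _) h1
    · rw [revAt_eq_self_of_lt (by omega), coeff_eq_zero_of_natDegree_lt (by omega)]
      simp
  · let _ : Invertible (1 / c.q) := invertibleOfNonzero (one_div_ne_zero c.q_ne)
    have h1 := eval₂_reverse_mul_pow (algebraMap c.K₀ K) (1 / c.q) Δ
    have h2 : ⅟(1 / c.q) = c.q := by
      rw [invOf_eq_inv, one_div]
      exact _root_.inv_inv c.q
    rw [h2] at h1
    have h3 : eval₂ (algebraMap c.K₀ K) (1 / c.q) Δ = algebraMap ℂ K z⁻¹ * x := by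
      change aeval (1 / c.q) Δ = _
      rw [hΔ, map_mul, aeval_C, ← hΓ]
      rfl
    rw [h3] at h1
    rw [hdeg]
    have h4 : c.q ^ Δ.natDegree ≠ 0 := pow_ne_zero _ c.q_ne
    change eval₂ (algebraMap c.K₀ K) c.q Δ.reverse = _
    rw [one_div, inv_pow, ← div_eq_mul_inv, div_eq_iff h4] at h1
    rw [h1]
    ring

/-- The ideal of a prime divisor not through the vertex contains a function not vanishing at the
vertex. -/
theorem exists_notMem_vertex {P : c.X.PrimeDiv} (hP : ¬ P.Through c.vertex)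
    (hC : (c.X.chart none).toSubring ≤ P.dvr.toSubring) :
    ∃ (x : K) (hx : x ∈ c.X.chart none),
      (⟨x, hx⟩ : (c.X.chart none).toSubring) ∉ c.vertexIdeal ∧ P.dvr.valuation x < 1 := by
  by_contra hcon
  push Not at hcon
  apply hP
  intro f hf
  obtain ⟨g, h, hh, rfl⟩ := (mem_ofPrime _ _ _).1 hf
  have h1 : P.dvr.valuation (h : K) = 1 := by
    refine le_antisymm ((P.dvr.valuation_le_one_iff _).2 (hC h.2)) ?_
    exact hcon h h.2 hh
  change (g : K) / h ∈ P.dvr
  rw [← P.dvr.valuation_le_one_iff, map_div₀, h1, div_one]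
  exact (P.dvr.valuation_le_one_iff _).2 (hC g.2)

/-- A prime divisor other than `Pw` meets the affine cone. -/
theorem chart_none_le_of_ne {P : c.X.PrimeDiv} (hPw : P ≠ c.Pw) :
    (c.X.chart none).toSubring ≤ P.dvr.toSubring := by
  obtain ⟨e, j, hej⟩ := c.exists_chart P
  have hq : P.dvr.valuation (c.ch e j).q = 1 := by
    rw [← ord_eq_zero_iff (c.ch e j).q_ne, c.ord_ch_q hej, if_neg hPw]
  have hC : ∀ z : ℂ, algebraMap ℂ K z ∈ P.dvr := fun z => hej.1 (algebraMap_mem (c.ch e j).A z)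
  have : ∀ x ∈ c.X.chart none, x ∈ P.dvr := by
    intro x hx
    induction hx using Algebra.adjoin_induction with
    | mem x hx =>
      obtain ⟨o, rfl⟩ := hx
      have h1 : c.X.x o / (c.m e * c.n j) ∈ P.dvr := by
        have := Algebra.subset_adjoin (R := ℂ) (s := Set.range fun i => c.X.x i / c.X.x (some (e, j)))
          ⟨o, rfl⟩
        have h2 : c.X.x o / c.X.x (some (e, j)) ∈ c.X.chart (some (e, j)) := this
        rw [c.chart_some e j] at h2
        exact hej.1 h2
      have h2 : c.X.x o / c.X.x none = (c.X.x o / (c.m e * c.n j)) / (c.ch e j).q := by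
        change c.X.x o / c.q = _
        rw [c.ch_q e j]
        exact (div_div_div_cancel_right₀ (c.mn_ne e j) _ _).symm
      change c.X.x o / c.X.x none ∈ P.dvr
      rw [h2, ← P.dvr.valuation_le_one_iff, map_div₀, hq, div_one]
      exact (P.dvr.valuation_le_one_iff _).2 h1
    | algebraMap z => exact hC z
    | add y z _ _ h1 h2 => exact P.dvr.add_mem _ _ h1 h2
    | mul y z _ _ h1 h2 => exact P.dvr.mul_mem _ _ h1 h2
  exact this

/-- A factor of a form is a form. -/
theorem Homog.of_dvd {c : Coord K} {h G : c.K₀[X]} (hh : h.Monic) (hG : G.Monic)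
    (hGH : c.Homog G) (hdvd : h ∣ G) : c.Homog h := by
  intro e j
  have hμ : (⟨c.m e * c.n j, c.mn_mem e j⟩ : c.K₀) ≠ 0 := fun h0 =>
    c.mn_ne e j (congrArg Subtype.val h0)
  set s : c.K₀ := (⟨c.m e * c.n j, c.mn_mem e j⟩ : c.K₀)⁻¹ with hs
  have hsu : IsUnit s := (inv_ne_zero hμ).isUnit
  have hcoe : ∀ (F : c.K₀[X]) (i : ℕ), (((F.scaleRoots s).coeff i : c.K₀) : K) =
      (F.coeff i : K) / (c.m e * c.n j) ^ (F.natDegree - i) := by
    intro F i
    rw [coeff_scaleRoots, hs, inv_pow, div_eq_mul_inv]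
    rfl
  have hcl := (c.ch e j).isIntegrallyClosed_D
  have key := coeff_mem_of_monic_dvd (c.ch e j).D c.K₀
    (fun d hd => by
      have := (c.ch e j).D_le_K₀ hd
      rwa [ch_K₀] at this)
    (fun f hf => by
      rw [← c.ch_K₀ e j] at hf
      exact IntermediateField.mem_adjoin_iff_div.1 hf)
    (h := h.scaleRoots s) (G := G.scaleRoots s) ((monic_scaleRoots_iff _).2 hh)
    ((monic_scaleRoots_iff _).2 hG) (fun i => by rw [hcoe]; exact hGH e j i)
    ((scaleRoots_dvd_iff _ _ hsu).2 hdvd)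
  intro i
  rw [← hcoe]
  exact key i

/-- Every prime divisor `P ≠ Pw` not through the vertex is horizontal: it is given by a monic
irreducible polynomial `h` over `ℂ(a, b, p)`, with `h(q) = 0` on `P`, such that all rescalings of
`h` to the six charts have coefficients in the coordinate rings `ℂ[a', b', p']`. -/
theorem exists_monic (P : c.X.PrimeDiv) (hP : ¬ P.Through c.vertex) (hPw : P ≠ c.Pw) :
    ∃ (h : c.K₀[X]) (hirr : Irreducible h), h.Monic ∧ P.dvr = gaussV c.isGen_q h hirr ∧
      c.Homog h ∧ ord P.dvr c.q = 0 := by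
  have hC := c.chart_none_le_of_ne hPw
  obtain ⟨x, hx, hxv, hxP⟩ := c.exists_notMem_vertex hP hC
  obtain ⟨G, hGm, hGH, z, hz0, hz⟩ := c.exists_reverse hx hxv
  obtain ⟨e, j, hej⟩ := c.exists_chart P
  have hμ := c.mn_ne e j
  have hq : P.dvr.valuation (c.ch e j).q = 1 := by
    rw [← ord_eq_zero_iff (c.ch e j).q_ne, c.ord_ch_q hej, if_neg hPw]
  have hCP : ∀ z : ℂ, algebraMap ℂ K z ∈ P.dvr := fun z => hej.1 (algebraMap_mem (c.ch e j).A z)
  have hG1 : P.dvr.valuation (aeval c.q G / (c.m e * c.n j) ^ G.natDegree) < 1 := by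
    have h1 : aeval c.q G / (c.m e * c.n j) ^ G.natDegree =
        algebraMap ℂ K z * ((c.ch e j).q ^ G.natDegree * x) := by
      rw [hz, c.ch_q e j, div_pow]
      field_simp
    rw [h1, map_mul, map_mul, map_pow, hq, one_pow, one_mul]
    exact (mul_le_of_le_one_left' ((P.dvr.valuation_le_one_iff _).2 (hCP z))).trans_lt hxP
  have hK₀ : ∀ y ∈ c.K₀, y ∈ P.dvr := fun y hy => c.K₀_le_of_homog hej hGm hGH hG1 hy
  have hK₀1 : ∀ y ∈ c.K₀, y ≠ 0 → P.dvr.valuation y = 1 := by
    intro y hy hy0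
    refine le_antisymm ((P.dvr.valuation_le_one_iff _).2 (hK₀ y hy)) ?_
    have h2 := (P.dvr.valuation_le_one_iff _).2 (hK₀ _ (inv_mem hy))
    rw [map_inv₀] at h2
    refine (inv_le_one₀ ?_).1 h2
    rw [zero_lt_iff]
    exact (Valuation.ne_zero_iff _).2 hy0
  have hμ1 : P.dvr.valuation (c.m e * c.n j) = 1 := hK₀1 _ (c.mn_mem e j) hμ
  have hqq : P.dvr.valuation c.q = 1 := by
    have : c.q = (c.ch e j).q * (c.m e * c.n j) := by
      rw [c.ch_q e j, div_mul_cancel₀ _ hμ]
    rw [this, map_mul, hq, hμ1, one_mul]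
  have hqm : c.q ∈ P.dvr := (P.dvr.valuation_le_one_iff _).1 hqq.le
  have hmem : ∀ F : c.K₀[X], aeval c.q F ∈ P.dvr := by
    intro F
    rw [aeval_eq_sum_range]
    refine sum_mem fun i _ => ?_
    rw [Algebra.smul_def]
    exact mul_mem (hK₀ _ (F.coeff i).2) (pow_mem hqm i)
  have hG2 : P.dvr.valuation (aeval c.q G) < 1 := by
    rw [map_div₀, map_pow, hμ1, one_pow, div_one] at hG1
    exact hG1
  -- an irreducible monic factor
  have hfac : ∃ h : c.K₀[X], Irreducible h ∧ h.Monic ∧ h ∣ G ∧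
      P.dvr.valuation (aeval c.q h) < 1 := by
    clear hz hG1 hGH
    have key : ∀ n : ℕ, ∀ G : c.K₀[X], G.natDegree = n → G.Monic →
        P.dvr.valuation (aeval c.q G) < 1 → ∃ h : c.K₀[X], Irreducible h ∧ h.Monic ∧ h ∣ G ∧
          P.dvr.valuation (aeval c.q h) < 1 := by
      intro n
      induction n using Nat.strong_induction_on with
      | _ n ih =>
        intro G hn hGm hG2
        by_cases hirr : Irreducible G
        · exact ⟨G, hirr, hGm, dvd_rfl, hG2⟩
        · have hG1 : G ≠ 1 := by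
            rintro rfl
            rw [map_one, map_one] at hG2
            exact lt_irrefl _ hG2
          rw [hGm.irreducible_iff_natDegree] at hirr
          push Not at hirr
          obtain ⟨f, g, hf, hg, rfl, hf0, hg0⟩ := hirr hG1
          have hdeg := hf.natDegree_mul hg
          have hor : P.dvr.valuation (aeval c.q f) < 1 ∨ P.dvr.valuation (aeval c.q g) < 1 := by
            by_contra hcon
            push Not at hcon
            have e1 := le_antisymm ((P.dvr.valuation_le_one_iff _).2 (hmem f)) hcon.1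
            have e2 := le_antisymm ((P.dvr.valuation_le_one_iff _).2 (hmem g)) hcon.2
            rw [map_mul, map_mul, e1, e2, one_mul] at hG2
            exact lt_irrefl _ hG2
          rcases hor with h1 | h1
          · obtain ⟨h, h2, h3, h4, h5⟩ := ih f.natDegree (by omega) f rfl hf h1
            exact ⟨h, h2, h3, h4.mul_right g, h5⟩
          · obtain ⟨h, h2, h3, h4, h5⟩ := ih g.natDegree (by omega) g rfl hg h1
            exact ⟨h, h2, h3, h4.mul_left f, h5⟩
    exact key _ G rfl hGm hG2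
  obtain ⟨h, hirr, hm, hdvd, hlt⟩ := hfac
  exact ⟨h, hirr, hm, gaussV_unique c.isGen_q h hirr hmem hlt, Homog.of_dvd hm hGm hGH hdvd,
    (ord_eq_zero_iff c.q_ne).2 hqq⟩

/-- Every prime divisor not through the vertex is linearly equivalent to a multiple of `Pw`. -/
theorem exists_principal (P : c.X.PrimeDiv) (hP : ¬ P.Through c.vertex) :
    ∃ g : K, g ≠ 0 ∧ ∃ k : ℤ, ∀ Q : c.X.PrimeDiv,
      ord Q.dvr g = (if Q = P then 1 else 0) + k * (if Q = c.Pw then 1 else 0) := by
  by_cases hPw : P = c.Pw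
  · refine ⟨1, one_ne_zero, -1, fun Q => ?_⟩
    rw [ord_one, hPw]
    ring
  · obtain ⟨h, hirr, hm, hPh, hH, hq0⟩ := c.exists_monic P hP hPw
    have hh0 : aeval c.q h ≠ 0 := c.isGen_q.aeval_ne_zero hm.ne_zero
    have hq := c.q_ne
    refine ⟨aeval c.q h / c.q ^ h.natDegree, div_ne_zero hh0 (pow_ne_zero _ hq),
      - h.natDegree, fun Q => ?_⟩
    by_cases hQP : Q = P
    · rw [hQP, if_pos rfl, if_neg hPw, ord_div hh0 (pow_ne_zero _ hq), ord_pow hq, hq0, hPh]
      rw [ord_gaussV_self]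
      ring
    · rw [if_neg hQP]
      obtain ⟨e, j, hej⟩ := c.exists_chart Q
      have hμ := c.mn_ne e j
      have hw := (c.ch e j).q_ne
      have h1 : aeval c.q h / c.q ^ h.natDegree =
          (aeval c.q h / (c.m e * c.n j) ^ h.natDegree) / (c.ch e j).q ^ h.natDegree := by
        rw [c.ch_q e j, div_pow]
        exact (div_div_div_cancel_right₀ (pow_ne_zero _ hμ) _ _).symm
      have h2 : aeval c.q h / (c.m e * c.n j) ^ h.natDegree ≠ 0 :=
        div_ne_zero hh0 (pow_ne_zero _ hμ)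
      have h3 : ord Q.dvr (aeval c.q h / (c.m e * c.n j) ^ h.natDegree) = 0 := by
        have h4 := (ord_nonneg_iff h2).2 (c.resc_eval_mem hej hH)
        by_contra h5
        have h6 := (ord_pos_iff h2).1 (lt_of_le_of_ne h4 (Ne.symm h5))
        have hK₀ : ∀ y ∈ c.K₀, y ∈ Q.dvr := fun y hy => c.K₀_le_of_homog hej hm hH h6 hy
        apply hQP
        apply c.dvr_injective
        rw [hPh]
        have hqm : c.q ∈ Q.dvr := by
          have : c.q = (c.ch e j).q * (c.m e * c.n j) := by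
            rw [c.ch_q e j, div_mul_cancel₀ _ hμ]
          rw [this]
          exact mul_mem (hej.1 (Algebra.subset_adjoin (by simp))) (hK₀ _ (c.mn_mem e j))
        refine gaussV_unique c.isGen_q h hirr ?_ ?_
        · intro F
          rw [aeval_eq_sum_range]
          refine sum_mem fun i _ => ?_
          rw [Algebra.smul_def]
          exact mul_mem (hK₀ _ (F.coeff i).2) (pow_mem hqm i)
        · have : aeval c.q h = (aeval c.q h / (c.m e * c.n j) ^ h.natDegree) *
              (c.m e * c.n j) ^ h.natDegree := by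
            rw [div_mul_cancel₀ _ (pow_ne_zero _ hμ)]
          rw [this, map_mul]
          exact (mul_le_of_le_one_right' ((Q.dvr.valuation_le_one_iff _).2
            (pow_mem (hK₀ _ (c.mn_mem e j)) _))).trans_lt h6
      rw [h1, ord_div h2 (pow_ne_zero _ hw), h3, ord_pow hw, c.ord_ch_q hej]
      ring

end Coord

end Pool.Agent.Helper94.LCY
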