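import Pool.Agent.Helper94.LCY.PicA

/-!
# The Picard group of the cone is infinite cyclic
-/

noncomputable section

open Classical Polynomial

namespace Pool.Agent.Helper94.LCY

variable {K : Type} [Field K] [Algebra ℂ K]

section Change

variable {ι : Type} (X : ProjVar K ι)

theorem chart_mul_pow_mem {i j : ι} (hi : X.x i ≠ 0) (hj : X.x j ≠ 0) {g : K}
    (hg : g ∈ X.chart i) : ∃ N : ℕ, ∀ M ≥ N, g * (X.x i / X.x j) ^ M ∈ X.chart j := by
  have hu : X.x i / X.x j ∈ X.chart j := Algebra.subset_adjoin ⟨i, rfl⟩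
  induction hg using Algebra.adjoin_induction with
  | mem x hx =>
    obtain ⟨o, rfl⟩ := hx
    refine ⟨1, fun M hM => ?_⟩
    obtain ⟨M, rfl⟩ := Nat.exists_eq_add_of_le hM
    change X.x o / X.x i * _ ∈ _
    have h1 : X.x o / X.x i * (X.x i / X.x j) ^ (1 + M) =
        X.x o / X.x j * (X.x i / X.x j) ^ M := by
      rw [pow_add, pow_one]
      field_simp
    rw [h1]
    exact mul_mem (Algebra.subset_adjoin ⟨o, rfl⟩) (pow_mem hu M)
  | algebraMap z => exact ⟨0, fun M _ => mul_mem (algebraMap_mem _ z) (pow_mem hu M)⟩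
  | add x y _ _ hx hy =>
    obtain ⟨N1, h1⟩ := hx
    obtain ⟨N2, h2⟩ := hy
    refine ⟨N1 + N2, fun M hM => ?_⟩
    rw [add_mul]
    exact add_mem (h1 M (by omega)) (h2 M (by omega))
  | mul x y _ _ hx hy =>
    obtain ⟨N1, h1⟩ := hx
    obtain ⟨N2, h2⟩ := hy
    refine ⟨N1 + N2, fun M hM => ?_⟩
    have : x * y * (X.x i / X.x j) ^ M =
        (x * (X.x i / X.x j) ^ N1) * (y * (X.x i / X.x j) ^ (M - N1)) := by
      have : (X.x i / X.x j) ^ M = (X.x i / X.x j) ^ N1 * (X.x i / X.x j) ^ (M - N1) := by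
        rw [← pow_add]
        congr 1
        omega
      rw [this]
      ring
    rw [this]
    exact mul_mem (h1 N1 le_rfl) (h2 _ (by omega))

theorem isLocOf_of_unit {i j : ι} (hi : X.x i ≠ 0) (hj : X.x j ≠ 0) {v : ValuationSubring K}
    (hv : IsLocOf (X.chart i).toSubring v) (hle : (X.chart j).toSubring ≤ v.toSubring)
    (h1 : v.valuation (X.x i / X.x j) = 1) : IsLocOf (X.chart j).toSubring v := by
  refine ⟨hle, fun f hf => ?_⟩
  obtain ⟨g, hg, h, hh, hh1, rfl⟩ := hv.2 f hf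
  obtain ⟨N1, h2⟩ := chart_mul_pow_mem X hi hj hg
  obtain ⟨N2, h3⟩ := chart_mul_pow_mem X hi hj hh
  refine ⟨g * (X.x i / X.x j) ^ (N1 + N2), h2 _ (by omega), h * (X.x i / X.x j) ^ (N1 + N2),
    h3 _ (by omega), ?_, ?_⟩
  · rw [map_mul, map_pow, h1, hh1, one_pow, one_mul]
  · rw [mul_div_mul_right]
    exact pow_ne_zero _ (div_ne_zero hi hj)

/-- A prime divisor whose local ring contains the coordinate ring of a chart meets that chart. -/
theorem isLocOf_of_le {j : ι} (hj : X.x j ≠ 0) {P : X.PrimeDiv}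
    (hle : (X.chart j).toSubring ≤ P.dvr.toSubring) : IsLocOf (X.chart j).toSubring P.dvr := by
  obtain ⟨i, hi, hP⟩ := (isPoint_iff X P.dvr).1 P.2.1
  refine isLocOf_of_unit X hi hj hP hle ?_
  have h1 : X.x i / X.x j ∈ P.dvr := hle (Algebra.subset_adjoin ⟨i, rfl⟩)
  have h2 : X.x j / X.x i ∈ P.dvr := hP.1 (Algebra.subset_adjoin ⟨j, rfl⟩)
  refine le_antisymm ((P.dvr.valuation_le_one_iff _).2 h1) ?_
  have h3 := (P.dvr.valuation_le_one_iff _).2 h2
  rw [← inv_div, map_inv₀] at h3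
  refine (inv_le_one₀ ?_).1 h3
  rw [zero_lt_iff]
  exact (Valuation.ne_zero_iff _).2 (div_ne_zero hi hj)

end Change

namespace Coord

variable (c : Coord K)

/-- A nonzero function has order `≠ 0` along only finitely many prime divisors. -/
theorem finite_ord {f : K} (hf : f ≠ 0) : {P : c.X.PrimeDiv | ord P.dvr f ≠ 0}.Finite := by
  have hfin : ∀ ej : Fin 3 × Fin 2, {v : ValuationSubring K | IsDiscreteValuationRing v ∧
      IsLocOf (c.ch ej.1 ej.2).A.toSubring v ∧ ord v f ≠ 0}.Finite := by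
    intro ej
    have hnoeth : IsNoetherianRing (c.ch ej.1 ej.2).A := by
      have : Algebra.FiniteType ℂ (c.ch ej.1 ej.2).A := by
        rw [← Subalgebra.fg_iff_finiteType]
        exact ⟨{(c.ch ej.1 ej.2).a, (c.ch ej.1 ej.2).b, (c.ch ej.1 ej.2).p,
          (c.ch ej.1 ej.2).q}, by simp [A]⟩
      exact Algebra.FiniteType.isNoetherianRing ℂ _
    have : IsNoetherianRing (c.ch ej.1 ej.2).A.toSubring := hnoeth
    refine finite_ord_ne_zero (c.ch ej.1 ej.2).A.toSubring ?_ hf
    intro g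
    obtain ⟨r, hr, s, hs, hs0, e⟩ := (c.ch ej.1 ej.2).exists_div_A g
    exact ⟨r, hr, s, hs, hs0, e⟩
  have hall : (⋃ ej : Fin 3 × Fin 2, {v : ValuationSubring K | IsDiscreteValuationRing v ∧
      IsLocOf (c.ch ej.1 ej.2).A.toSubring v ∧ ord v f ≠ 0}).Finite :=
    Set.finite_iUnion hfin
  refine Set.Finite.of_finite_image (f := fun P : c.X.PrimeDiv => P.dvr) (hall.subset ?_) ?_
  · rintro _ ⟨P, hP, rfl⟩
    obtain ⟨e, j, hej⟩ := c.exists_chart P
    rw [Set.mem_iUnion]
    exact ⟨(e, j), P.2.2, hej, hP⟩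
  · intro P _ Q _ hPQ
    exact c.dvr_injective hPQ

/-- The Weil divisor `Pw`. -/
def divPw : c.X.WeilDiv := Finsupp.single c.Pw 1

theorem divPw_apply (P : c.X.PrimeDiv) : c.divPw P = if P = c.Pw then 1 else 0 := by
  rw [divPw, Finsupp.single_apply]
  simp only [eq_comm]

theorem ord_Pw_q : ord c.Pw.dvr c.q = 1 := c.ord_Vq_q

theorem divPw_mem_cartier : c.divPw ∈ c.X.cartier := by
  rintro R ⟨o, ho, 𝔭, h𝔭, rfl⟩
  cases o with
  | none =>
    refine ⟨1, one_ne_zero, fun P hP => ?_⟩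
    rw [ord_one, divPw_apply, if_neg]
    rintro rfl
    have h1 : (c.X.chart none).toSubring ≤ c.Pw.dvr.toSubring :=
      le_trans (le_ofPrime' _ _) hP
    have h2 : 1 / c.q ∈ c.Pw.dvr := by
      apply h1
      refine Algebra.subset_adjoin ⟨some (0, 0), ?_⟩
      change (1 * 1) / c.q = 1 / c.q
      rw [one_mul]
    rw [← ord_nonneg_iff (one_div_ne_zero c.q_ne), one_div, ord_inv c.q_ne, ord_Pw_q] at h2
    omega
  | some ej =>
    refine ⟨(c.ch ej.1 ej.2).q, (c.ch ej.1 ej.2).q_ne, fun P hP => ?_⟩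
    rw [divPw_apply, c.ord_ch_q]
    have h1 : (c.X.chart (some ej)).toSubring ≤ P.dvr.toSubring :=
      le_trans (le_ofPrime' _ _) hP
    have h2 := isLocOf_of_le c.X (c.X_x_ne _) h1
    rw [c.chart_some ej.1 ej.2] at h2
    exact h2

/-- The divisor of a function. -/
def divOf {f : K} (hf : f ≠ 0) : c.X.WeilDiv :=
  Finsupp.ofSupportFinite (fun P => ord P.dvr f) (c.finite_ord hf)

theorem divOf_apply {f : K} (hf : f ≠ 0) (P : c.X.PrimeDiv) :
    c.divOf hf P = ord P.dvr f := rfl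

theorem divOf_mem {f : K} (hf : f ≠ 0) : c.divOf hf ∈ c.X.principal := ⟨f, hf, fun _ => rfl⟩

/-- A Cartier divisor is a principal divisor plus a multiple of `Pw`. -/
theorem exists_of_mem_cartier {E : c.X.WeilDiv} (hE : E ∈ c.X.cartier) :
    ∃ k : ℤ, E - k • c.divPw ∈ c.X.principal := by
  obtain ⟨f, hf, hEf⟩ := hE c.vertex c.isPoint_vertex
  set H : AddSubgroup c.X.WeilDiv := c.X.principal ⊔ AddSubgroup.zmultiples c.divPw with hH
  have h1 : ∀ P : c.X.PrimeDiv, ¬ P.Through c.vertex → Finsupp.single P (1 : ℤ) ∈ H := by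
    intro P hP
    obtain ⟨g, hg, k, hgk⟩ := c.exists_principal P hP
    have h2 : Finsupp.single P (1 : ℤ) = c.divOf hg + (-k) • c.divPw := by
      ext Q
      rw [Finsupp.add_apply, Finsupp.smul_apply, divOf_apply, divPw_apply, hgk Q,
        Finsupp.single_apply]
      simp only [eq_comm (a := P)]
      rw [smul_eq_mul]
      ring
    rw [h2]
    exact add_mem (AddSubgroup.mem_sup_left (c.divOf_mem hg))
      (AddSubgroup.mem_sup_right (zsmul_mem (AddSubgroup.mem_zmultiples _) _))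
  have h2 : E ∈ H := by
    have h3 : E = c.divOf hf + (E - c.divOf hf) := by abel
    rw [h3]
    refine add_mem (AddSubgroup.mem_sup_left (c.divOf_mem hf)) ?_
    rw [← Finsupp.sum_single (E - c.divOf hf)]
    refine sum_mem fun P hP => ?_
    have h4 : ¬ P.Through c.vertex := by
      intro h4
      rw [Finsupp.mem_support_iff, Finsupp.sub_apply, hEf P h4, divOf_apply, sub_self] at hP
      exact hP rfl
    have h5 : Finsupp.single P ((E - c.divOf hf) P) =
        ((E - c.divOf hf) P) • Finsupp.single P (1 : ℤ) := by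
      rw [Finsupp.smul_single, smul_eq_mul, mul_one]
    rw [h5]
    exact zsmul_mem (h1 P h4) _
  rw [hH, AddSubgroup.mem_sup] at h2
  obtain ⟨D, hD, Z, hZ, rfl⟩ := h2
  obtain ⟨k, rfl⟩ := AddSubgroup.mem_zmultiples_iff.1 hZ
  exact ⟨k, by rw [add_sub_cancel_right]; exact hD⟩

/-- A function of `(a, b, p)` which is also a function of `(a, b, q)` has order `0` at `Pinf`. -/
theorem ord_Pinf_eq_zero {α : K} (h0 : α ≠ 0) (hα : α ∈ c.K₀) (hα' : α ∈ c.K₁) :
    ord c.Pinf.dvr α = 0 := by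
  have h1 : α ∈ IntermediateField.adjoin ℂ ({c.a, c.b} : Set K) := by
    set F := IntermediateField.adjoin ℂ ({c.a, c.b} : Set K) with hF
    have h2 : α ∈ (IntermediateField.adjoin F {c.p}).restrictScalars ℂ := by
      rw [hF, IntermediateField.adjoin_adjoin_left]
      have h3 : ({c.a, c.b} ∪ {c.p} : Set K) = {c.a, c.b, c.p} := by
        ext y
        simp only [Set.mem_union, Set.mem_insert_iff, Set.mem_singleton_iff]
        tauto
      rw [h3]
      exact hα
    obtain ⟨A, B, hAB⟩ := (IntermediateField.mem_adjoin_simple_iff F α).1 h2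
    have hFK : F ≤ c.K₁ := by
      rw [hF, IntermediateField.adjoin_le_iff]
      rintro x (rfl | rfl) <;> exact IntermediateField.subset_adjoin _ _ (by simp)
    let κ : F →+* c.K₁ :=
      { toFun := fun x => ⟨x, hFK x.2⟩
        map_one' := rfl
        map_zero' := rfl
        map_add' := fun _ _ => rfl
        map_mul' := fun _ _ => rfl }
    have hκ : ∀ R : F[X], aeval c.p (R.map κ) = aeval c.p R := by
      intro R
      rw [aeval_def, aeval_def, eval₂_map]
      rfl
    have hB : aeval c.p B ≠ 0 := by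
      intro h3
      rw [h3, div_zero] at hAB
      exact h0 hAB
    have h4 : A.map κ - C (⟨α, hα'⟩ : c.K₁) * B.map κ = 0 := by
      by_contra h5
      refine c.isGen_p.aeval_ne_zero h5 ?_
      rw [map_sub, map_mul, aeval_C, hκ, hκ]
      change aeval c.p A - α * aeval c.p B = 0
      rw [hAB, div_mul_cancel₀ _ hB, sub_self]
    have hB0 : B ≠ 0 := by
      rintro rfl
      rw [map_zero] at hB
      exact hB rfl
    obtain ⟨i, hi⟩ : ∃ i, B.coeff i ≠ 0 := by
      by_contra h5
      push Not at h5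
      exact hB0 (Polynomial.ext (by simpa using h5))
    have h6 : (A.coeff i : K) = α * (B.coeff i : K) := by
      have h7 := congrArg (fun R : c.K₁[X] => ((R.coeff i : c.K₁) : K)) (sub_eq_zero.1 h4)
      simp only [coeff_map, coeff_C_mul] at h7
      exact h7
    have hi' : (B.coeff i : K) ≠ 0 := fun h => hi (Subtype.ext h)
    rw [← (div_eq_iff hi').2 h6]
    exact div_mem (A.coeff i).2 (B.coeff i).2
  refine ord_gaussV_of_mem c.pinv.isGen_p Polynomial.X irreducible_X h0 ?_
  have h2 : IntermediateField.adjoin ℂ ({c.a, c.b} : Set K) ≤ c.pinv.K₁ := by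
    rw [IntermediateField.adjoin_le_iff]
    rintro x (rfl | rfl) <;> exact IntermediateField.subset_adjoin _ _ (by simp [pinv])
  exact h2 h1

/-- No nonzero multiple of `Pw` is principal. -/
theorem eq_zero_of_principal {k : ℤ} (h : k • c.divPw ∈ c.X.principal) : k = 0 := by
  obtain ⟨f, hf, hfk⟩ := h
  have hord : ∀ P : c.X.PrimeDiv, ord P.dvr f = if P = c.Pw then k else 0 := by
    intro P
    rw [← hfk P, Finsupp.smul_apply, divPw_apply, smul_eq_mul]
    split_ifs <;> ring
  have hq := c.q_ne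
  have h1 : f ∈ c.K₁ := by
    refine mem_of_ord_gaussV_eq_zero c.isGen_p hf fun π hπ => ?_
    have h2 := hord (c.mkDiv 0 0 (gaussV c.isGen_p π hπ) (c.isLocOf_gaussV_p π hπ))
    rw [if_neg] at h2
    · exact h2
    · intro h3
      have h4 : ord (gaussV c.isGen_p π hπ) c.q = 0 :=
        ord_gaussV_of_mem _ _ _ hq (IntermediateField.subset_adjoin _ _ (by simp))
      have h5 := c.ord_Pw_q
      rw [← h3] at h5
      change ord (gaussV c.isGen_p π hπ) c.q = 1 at h5
      omega
  have hα0 : f / c.q ^ k ≠ 0 := div_ne_zero hf (zpow_ne_zero _ hq)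
  have h2 : f / c.q ^ k ∈ c.K₀ := by
    refine mem_of_ord_gaussV_eq_zero c.isGen_q hα0 fun π hπ => ?_
    have hloc := c.isLocOf_gaussV_q π hπ
    have h3 := hord (c.mkDiv 0 0 (gaussV c.isGen_q π hπ) hloc)
    have h4 := c.ord_ch_q (P := c.mkDiv 0 0 (gaussV c.isGen_q π hπ) hloc) (e := 0) (j := 0) hloc
    change ord (gaussV c.isGen_q π hπ) f = _ at h3
    change ord (gaussV c.isGen_q π hπ) c.q = _ at h4
    rw [ord_div hf (zpow_ne_zero _ hq), ord_zpow hq, h3, h4]
    split_ifs <;> ring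
  have h3 : f / c.q ^ k ∈ c.K₁ :=
    div_mem h1 (zpow_mem (IntermediateField.subset_adjoin _ _ (by simp)) k)
  have h4 := c.ord_Pinf_eq_zero hα0 h2 h3
  have h5 : ord c.Pinf.dvr c.q = -1 := by
    have h6 := c.ord_ch_q (P := c.Pinf) (e := 0) (j := 1) c.pinv.isLocOf_Vp
    rw [if_neg c.Pinf_ne_Pw] at h6
    change ord c.Pinf.dvr (c.q / c.p) = 0 at h6
    rw [ord_div hq c.p_ne, c.ord_Pinf_p] at h6
    omega
  rw [ord_div hf (zpow_ne_zero _ hq), ord_zpow hq, h5, hord, if_neg c.Pinf_ne_Pw] at h4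
  omega

/-- The Picard group of the cone is infinite cyclic (with the Picard group unfolded). -/
theorem pic_equiv' : Nonempty ((c.X.cartier ⧸ c.X.principal.addSubgroupOf c.X.cartier) ≃+ ℤ) := by
  let φ : ℤ →+ (c.X.cartier ⧸ c.X.principal.addSubgroupOf c.X.cartier) :=
    zmultiplesHom _ (QuotientAddGroup.mk ⟨c.divPw, c.divPw_mem_cartier⟩)
  have hφ : ∀ k : ℤ, φ k = QuotientAddGroup.mk (k • ⟨c.divPw, c.divPw_mem_cartier⟩) := by
    intro k
    simp [φ]
  refine ⟨(AddEquiv.ofBijective φ ⟨?_, ?_⟩).symm⟩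
  · rw [injective_iff_map_eq_zero]
    intro k hk
    rw [hφ, QuotientAddGroup.eq_zero_iff, AddSubgroup.mem_addSubgroupOf] at hk
    exact c.eq_zero_of_principal hk
  · intro x
    obtain ⟨⟨E, hE⟩, rfl⟩ := QuotientAddGroup.mk_surjective x
    obtain ⟨k, hk⟩ := c.exists_of_mem_cartier hE
    refine ⟨k, ?_⟩
    rw [hφ, QuotientAddGroup.eq, AddSubgroup.mem_addSubgroupOf]
    change -(k • c.divPw) + E ∈ _
    rw [neg_add_eq_sub]
    exact hk

/-- The Picard group of the cone is infinite cyclic. -/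
theorem pic_equiv : Nonempty (c.X.Pic ≃+ ℤ) := c.pic_equiv'

end Coord

theorem finrank_quotient_divisiblePart {G : Type} [AddCommGroup G] (e : G ≃+ ℤ) :
    Module.finrank ℤ (G ⧸ divisiblePart G) = 1 := by
  have h : divisiblePart G = ⊥ := by
    rw [divisiblePart, sSup_eq_bot]
    intro H hH
    rw [eq_bot_iff]
    intro x hx
    rw [AddSubgroup.mem_bot]
    by_contra hx0
    have hex : e x ≠ 0 := fun h => hx0 (by simpa using h)
    obtain ⟨y, -, hy⟩ := hH ((e x).natAbs + 1) (by omega) x hx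
    have h1 : ((e x).natAbs + 1 : ℤ) * e y = e x := by
      have := congrArg e hy
      rw [map_nsmul, nsmul_eq_mul] at this
      exact_mod_cast this
    have h2 : (((e x).natAbs + 1 : ℕ) : ℤ) ∣ e x := ⟨e y, by
      rw [Nat.cast_add, Nat.cast_one]; exact h1.symm⟩
    have h3 := Int.natAbs_dvd_natAbs.2 h2
    rw [Int.natAbs_natCast] at h3
    have h4 := Nat.le_of_dvd (Int.natAbs_pos.2 hex) h3
    omega
  rw [h]
  have e2 : (G ⧸ (⊥ : AddSubgroup G)) ≃+ ℤ := QuotientAddGroup.quotientBot.trans e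
  rw [e2.toIntLinearEquiv.finrank_eq]
  exact Module.finrank_self ℤ

theorem Coord.picardRank_X (c : Coord K) : c.X.picardRank = 1 := by
  obtain ⟨e⟩ := c.pic_equiv
  exact finrank_quotient_divisiblePart e

end Pool.Agent.Helper94.LCY
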